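import Pool.Agent.Helper47.Ram.Strip3

set_option autoImplicit false

/-!
# The radial inequality in the strip for a general piecewise linear test function

`ψ` is a nonnegative weight which on each piece has the form `p0 - p1 / r`, and the test function
is `t0 + t1 r` on each piece (continuous across the nodes).
-/

namespace Pool.Agent.Helper80.Ram

open MeasureTheory Set Filter Topology Pool.Agent.Helper10.Ram Pool.Agent.Helper47.Ram

/-- right integrand -/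
noncomputable def gR (ψ : ℝ → ℝ) (μ : ℝ) (g g' : ℝ → ℂ) (r : ℝ) : ℝ :=
  ψ r * (r ^ 3)⁻¹ * (r ^ 2 * (‖g' r‖ ^ 2 + μ * ‖g r‖ ^ 2))

/-- the boundary term at `x`, for the value `T` of the test function at `x` -/
noncomputable def bt (ψ : ℝ → ℝ) (g : ℝ → ℂ) (x T : ℝ) : ℝ := ψ x * T / x ^ 2 * ‖g x‖ ^ 2

/-- the inequality on `(x, ∞)`, when the test function has the value `T` at `x` -/
def Tail (ψ Q : ℝ → ℝ) (μ x T : ℝ) : Prop :=
  ∀ (g g' : ℝ → ℂ) (B : ℝ), (∀ r, 0 < r → HasDerivAt g (g' r) r) → ContinuousOn g' (Ioi 0) →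
    (∀ r, 0 < r → ‖g r‖ ≤ B) →
    (∫⁻ r in Ioi x, ENNReal.ofReal (fL Q g r)) + ENNReal.ofReal (-bt ψ g x T) ≤
      (∫⁻ r in Ioi x, ENNReal.ofReal (gR ψ μ g g' r)) + ENNReal.ofReal (bt ψ g x T)

section

variable {g g' : ℝ → ℂ} {ψ Q : ℝ → ℝ} {μ : ℝ}

theorem gpiece (hμ : 0 ≤ μ) (hψ0 : ∀ r, 0 < r → 0 ≤ ψ r) (p0 p1 t0 t1 : ℝ) {x y : ℝ} (hx : 0 < x)
    (hxy : x ≤ y) (hg : ∀ r, 0 < r → HasDerivAt g (g' r) r) (hgc : ContinuousOn g' (Ioi 0))
    (hP : ∀ r ∈ Icc x y, ψ r = p0 - p1 / r) (hQ0 : ∀ r, 0 < r → 0 ≤ Q r)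
    (hQ : ∀ r ∈ Ioo x y, Q r ≤ qq p0 p1 t0 t1 μ r) :
    ∃ I J : ℝ, ∫⁻ r in Ioc x y, ENNReal.ofReal (fL Q g r) ≤ ENNReal.ofReal I ∧ 0 ≤ I ∧ 0 ≤ J ∧
      ENNReal.ofReal J ≤ ∫⁻ r in Ioc x y, ENNReal.ofReal (gR ψ μ g g' r) ∧
      I + (bd p0 p1 t0 t1 g y - bd p0 p1 t0 t1 g x) ≤ J := by
  have hsub : Icc x y ⊆ Ioi 0 := fun r hr => lt_of_lt_of_le hx hr.1
  have hP0 : ∀ r ∈ Icc x y, 0 ≤ p0 - p1 / r := fun r hr => by
    rw [← hP r hr]; exact hψ0 r (hsub hr)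
  have hmain := piece p0 p1 t0 t1 μ hx hxy hg hgc hP0
  have hgc0 : ContinuousOn g (Icc x y) := fun r hr =>
    (hg r (hsub hr)).continuousAt.continuousWithinAt
  have hgc1 : ContinuousOn g' (Icc x y) := hgc.mono hsub
  have hne : ∀ r ∈ Icc x y, r ≠ 0 := fun r hr => (hsub hr).ne'
  have hinv : ContinuousOn (fun r : ℝ => p1 / r) (Icc x y) :=
    continuousOn_const.div continuousOn_id hne
  have hinv3 : ContinuousOn (fun r : ℝ => (r ^ 3)⁻¹) (Icc x y) :=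
    (continuousOn_id.pow 3).inv₀ fun r hr => pow_ne_zero _ (hne r hr)
  have hd2 : ContinuousOn (fun r : ℝ => r ^ 2) (Icc x y) := continuousOn_id.pow 2
  have hlin : ContinuousOn (fun r : ℝ => t0 + t1 * r) (Icc x y) := by fun_prop
  have hPc : ContinuousOn (fun r : ℝ => p0 - p1 / r) (Icc x y) := continuousOn_const.sub hinv
  have hn : ContinuousOn (fun r => ‖g r‖ ^ 2) (Icc x y) := hgc0.norm.pow 2
  have hn' : ContinuousOn (fun r => ‖g' r‖ ^ 2) (Icc x y) := hgc1.norm.pow 2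
  have hqq : ContinuousOn (fun r => qq p0 p1 t0 t1 μ r * (r ^ 3)⁻¹ * ‖g r‖ ^ 2) (Icc x y) := by
    apply (ContinuousOn.mul _ hinv3).mul hn
    unfold qq
    apply (hPc.mul _).sub (hinv.mul hlin)
    fun_prop
  have hR : ContinuousOn (fun r => (p0 - p1 / r) * (r ^ 3)⁻¹ *
      (r ^ 2 * (‖g' r‖ ^ 2 + μ * ‖g r‖ ^ 2))) (Icc x y) :=
    (hPc.mul hinv3).mul (hd2.mul (hn'.add (continuousOn_const.mul hn)))
  have i1 : IntegrableOn (fun r => qq p0 p1 t0 t1 μ r * (r ^ 3)⁻¹ * ‖g r‖ ^ 2) (Ioc x y) :=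
    (hqq.integrableOn_compact isCompact_Icc).mono_set Ioc_subset_Icc_self
  have i3 : IntegrableOn (fun r => (p0 - p1 / r) * (r ^ 3)⁻¹ *
      (r ^ 2 * (‖g' r‖ ^ 2 + μ * ‖g r‖ ^ 2))) (Ioc x y) :=
    (hR.integrableOn_compact isCompact_Icc).mono_set Ioc_subset_Icc_self
  have hae : ∀ᵐ r ∂(volume.restrict (Ioc x y)), r ∈ Ioo x y := by
    rw [← restrict_Ioo_eq_restrict_Ioc]
    exact ae_restrict_mem measurableSet_Ioo
  have hn0 : ∀ r ∈ Ioo x y, 0 ≤ qq p0 p1 t0 t1 μ r * (r ^ 3)⁻¹ * ‖g r‖ ^ 2 := by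
    intro r hr
    have hr0 : 0 < r := hx.trans hr.1
    have h1 := (hQ0 r hr0).trans (hQ r hr)
    positivity
  have hn1 : ∀ r ∈ Ioo x y, 0 ≤ (p0 - p1 / r) * (r ^ 3)⁻¹ *
      (r ^ 2 * (‖g' r‖ ^ 2 + μ * ‖g r‖ ^ 2)) := by
    intro r hr
    have hr0 : 0 < r := hx.trans hr.1
    have h1 := hP0 r (Ioo_subset_Icc_self hr)
    positivity
  refine ⟨_, _, ?_, ?_, ?_, ?_, hmain⟩
  · rw [intervalIntegral.integral_of_le hxy, ofReal_integral_eq_lintegral_ofReal i1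
      (by filter_upwards [hae] with r hr using hn0 r hr)]
    apply lintegral_mono_ae
    filter_upwards [hae] with r hr
    apply ENNReal.ofReal_le_ofReal
    unfold fL
    have hr0 : 0 < r := hx.trans hr.1
    have h2 := hQ r hr
    gcongr
  · rw [intervalIntegral.integral_of_le hxy]
    apply integral_nonneg_of_ae
    filter_upwards [hae] with r hr using hn0 r hr
  · rw [intervalIntegral.integral_of_le hxy]
    apply integral_nonneg_of_ae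
    filter_upwards [hae] with r hr using hn1 r hr
  · rw [intervalIntegral.integral_of_le hxy, ofReal_integral_eq_lintegral_ofReal i3
      (by filter_upwards [hae] with r hr using hn1 r hr)]
    apply lintegral_mono_ae
    filter_upwards [hae] with r hr
    apply ENNReal.ofReal_le_ofReal
    unfold gR
    rw [hP r (Ioo_subset_Icc_self hr)]

/-- one more piece to the left -/
theorem Tail.cons (hμ : 0 ≤ μ) (hψ0 : ∀ r, 0 < r → 0 ≤ ψ r) (hQ0 : ∀ r, 0 < r → 0 ≤ Q r)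
    {x y Tx Ty : ℝ} (p0 p1 t0 t1 : ℝ) (hx : 0 < x) (hxy : x ≤ y)
    (hTx : Tx = t0 + t1 * x) (hTy : Ty = t0 + t1 * y)
    (hP : ∀ r ∈ Icc x y, ψ r = p0 - p1 / r)
    (hQ : ∀ r ∈ Ioo x y, Q r ≤ qq p0 p1 t0 t1 μ r)
    (hT : Tail ψ Q μ y Ty) : Tail ψ Q μ x Tx := by
  intro g g' B hg hgc hB
  obtain ⟨I, J, a1, a2, a3, a4, a5⟩ := gpiece (g := g) (g' := g') hμ hψ0 p0 p1 t0 t1 hx hxy
    hg hgc hP hQ0 hQ
  have h1 := hT g g' B hg hgc hB
  have ex : bd p0 p1 t0 t1 g x = bt ψ g x Tx := by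
    unfold bd bt
    rw [hP x ⟨le_rfl, hxy⟩, hTx]
  have ey : bd p0 p1 t0 t1 g y = bt ψ g y Ty := by
    unfold bd bt
    rw [hP y ⟨hxy, le_rfl⟩, hTy]
  rw [ex, ey] at a5
  set bx := bt ψ g x Tx with hbx
  set by' := bt ψ g y Ty with hby
  have hu : Ioi x = Ioc x y ∪ Ioi y := (Ioc_union_Ioi_eq_Ioi hxy).symm
  have hdisj : Disjoint (Ioc x y) (Ioi y) := by
    rw [Set.disjoint_left]
    intro r h1 h2
    exact absurd h1.2 (not_le.2 h2)
  have hL : ∫⁻ r in Ioi x, ENNReal.ofReal (fL Q g r) ≤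
      ENNReal.ofReal I + ∫⁻ r in Ioi y, ENNReal.ofReal (fL Q g r) := by
    rw [hu]
    exact (lintegral_union_le _ _ _).trans (add_le_add a1 le_rfl)
  have hRr : ENNReal.ofReal J + ∫⁻ r in Ioi y, ENNReal.ofReal (gR ψ μ g g' r) ≤
      ∫⁻ r in Ioi x, ENNReal.ofReal (gR ψ μ g g' r) := by
    rw [hu, lintegral_union measurableSet_Ioi hdisj]
    exact add_le_add a4 le_rfl
  -- real inequality between parts
  have hreal : ENNReal.ofReal I + ENNReal.ofReal (-bx) + ENNReal.ofReal by' ≤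
      ENNReal.ofReal J + ENNReal.ofReal bx + ENNReal.ofReal (-by') := by
    have e1 : ∀ z : ℝ, ENNReal.ofReal z = ENNReal.ofReal (max z 0) := by
      intro z
      rcases le_total z 0 with h | h
      · rw [max_eq_right h, ENNReal.ofReal_of_nonpos h, ENNReal.ofReal_zero]
      · rw [max_eq_left h]
    rw [e1 (-bx), e1 by', e1 bx, e1 (-by'),
      ← ENNReal.ofReal_add a2 (le_max_right _ _),
      ← ENNReal.ofReal_add (add_nonneg a2 (le_max_right _ _)) (le_max_right _ _),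
      ← ENNReal.ofReal_add a3 (le_max_right _ _),
      ← ENNReal.ofReal_add (add_nonneg a3 (le_max_right _ _)) (le_max_right _ _)]
    apply ENNReal.ofReal_le_ofReal
    have m1 : max by' 0 - max (-by') 0 = by' := by
      rcases le_total by' 0 with h | h
      · rw [max_eq_right h, max_eq_left (by linarith)]; ring
      · rw [max_eq_left h, max_eq_right (by linarith)]; ring
    have m2 : max bx 0 - max (-bx) 0 = bx := by
      rcases le_total bx 0 with h | h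
      · rw [max_eq_right h, max_eq_left (by linarith)]; ring
      · rw [max_eq_left h, max_eq_right (by linarith)]; ring
    linarith
  have hfin : ENNReal.ofReal by' ≠ ⊤ := ENNReal.ofReal_ne_top
  rw [← ENNReal.add_le_add_iff_right hfin]
  calc (∫⁻ r in Ioi x, ENNReal.ofReal (fL Q g r)) + ENNReal.ofReal (-bx) + ENNReal.ofReal by'
      ≤ (ENNReal.ofReal I + ∫⁻ r in Ioi y, ENNReal.ofReal (fL Q g r)) + ENNReal.ofReal (-bx)
        + ENNReal.ofReal by' := by gcongr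
    _ = (ENNReal.ofReal I + ENNReal.ofReal (-bx) + ENNReal.ofReal by') +
        ∫⁻ r in Ioi y, ENNReal.ofReal (fL Q g r) := by ring
    _ ≤ (ENNReal.ofReal J + ENNReal.ofReal bx + ENNReal.ofReal (-by')) +
        ∫⁻ r in Ioi y, ENNReal.ofReal (fL Q g r) := by gcongr
    _ = ENNReal.ofReal J + ENNReal.ofReal bx +
        ((∫⁻ r in Ioi y, ENNReal.ofReal (fL Q g r)) + ENNReal.ofReal (-by')) := by ring
    _ ≤ ENNReal.ofReal J + ENNReal.ofReal bx +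
        ((∫⁻ r in Ioi y, ENNReal.ofReal (gR ψ μ g g' r)) + ENNReal.ofReal by') := by gcongr
    _ = (ENNReal.ofReal J + ∫⁻ r in Ioi y, ENNReal.ofReal (gR ψ μ g g' r)) +
        ENNReal.ofReal bx + ENNReal.ofReal by' := by ring
    _ ≤ _ := by gcongr

/-- the last piece -/
theorem Tail.last (hμ : 0 ≤ μ) (hψ0 : ∀ r, 0 < r → 0 ≤ ψ r) (hQ0 : ∀ r, 0 < r → 0 ≤ Q r)
    {x Tx m : ℝ} (t0 t1 : ℝ) (hx : 0 < x) (hTx : Tx = t0 + t1 * x)
    (hP : ∀ r, x ≤ r → ψ r = m) (hQ : ∀ r, x < r → Q r ≤ qq m 0 t0 t1 μ r) :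
    Tail ψ Q μ x Tx := by
  intro g g' B hg hgc hB
  have hm : 0 ≤ m := by
    rw [← hP x le_rfl]; exact hψ0 x hx
  set K := m * (|t0| + |t1|) * B ^ 2 with hK
  have ex : bd m 0 t0 t1 g x = bt ψ g x Tx := by
    unfold bd bt
    rw [hP x le_rfl, hTx]
    simp
  -- bounded version
  have hbdd : ∀ R : ℝ, 1 ≤ R → x ≤ R →
      (∫⁻ r in Ioc x R, ENNReal.ofReal (fL Q g r)) + ENNReal.ofReal (-bt ψ g x Tx) ≤
      (∫⁻ r in Ioi x, ENNReal.ofReal (gR ψ μ g g' r)) + ENNReal.ofReal (bt ψ g x Tx) +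
        ENNReal.ofReal (K / R) := by
    intro R hR1 hR2
    obtain ⟨I, J, a1, a2, a3, a4, a5⟩ := gpiece (g := g) (g' := g') (ψ := ψ) hμ hψ0 m 0 t0 t1 hx
      hR2 hg hgc (fun r hr => by rw [hP r hr.1]; simp) hQ0 (fun r hr => hQ r hr.1)
    have h2 := bd_lower (g := g) (t0 := t0) (t1 := t1) hm hR1 (hB R (by linarith))
    rw [ex] at a5
    set bx := bt ψ g x Tx
    have hK0 : 0 ≤ K / R := by rw [hK]; positivity
    have hRr : ENNReal.ofReal J ≤ ∫⁻ r in Ioi x, ENNReal.ofReal (gR ψ μ g g' r) :=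
      a4.trans (lintegral_mono_set (fun r hr => hr.1))
    have e1 : ∀ z : ℝ, ENNReal.ofReal z = ENNReal.ofReal (max z 0) := by
      intro z
      rcases le_total z 0 with h | h
      · rw [max_eq_right h, ENNReal.ofReal_of_nonpos h, ENNReal.ofReal_zero]
      · rw [max_eq_left h]
    have m2 : max bx 0 - max (-bx) 0 = bx := by
      rcases le_total bx 0 with h | h
      · rw [max_eq_right h, max_eq_left (by linarith)]; ring
      · rw [max_eq_left h, max_eq_right (by linarith)]; ring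
    have hreal : ENNReal.ofReal I + ENNReal.ofReal (-bx) ≤
        ENNReal.ofReal J + ENNReal.ofReal bx + ENNReal.ofReal (K / R) := by
      rw [e1 (-bx), e1 bx,
        ← ENNReal.ofReal_add a2 (le_max_right _ _),
        ← ENNReal.ofReal_add a3 (le_max_right _ _),
        ← ENNReal.ofReal_add (add_nonneg a3 (le_max_right _ _)) hK0]
      apply ENNReal.ofReal_le_ofReal
      rw [hK]
      linarith
    calc (∫⁻ r in Ioc x R, ENNReal.ofReal (fL Q g r)) + ENNReal.ofReal (-bx)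
        ≤ ENNReal.ofReal I + ENNReal.ofReal (-bx) := by gcongr
      _ ≤ ENNReal.ofReal J + ENNReal.ofReal bx + ENNReal.ofReal (K / R) := hreal
      _ ≤ _ := by gcongr
  -- limit
  set f : ℝ → ENNReal := fun r => ENNReal.ofReal (fL Q g r) with hf
  set ν := (volume : Measure ℝ).withDensity f with hν
  have hU : Ioi x = ⋃ n : ℕ, Ioc x (n : ℝ) := by
    ext r
    simp only [mem_Ioi, mem_iUnion, mem_Ioc]
    constructor
    · intro h
      obtain ⟨n, hn⟩ := exists_nat_ge r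
      exact ⟨n, h, hn⟩
    · rintro ⟨n, h, _⟩
      exact h
  have hmono : Monotone (fun n : ℕ => Ioc x (n : ℝ)) := by
    intro n k hnk
    apply Ioc_subset_Ioc_right
    exact_mod_cast hnk
  have h1 : Tendsto (fun n : ℕ => ν (Ioc x (n : ℝ))) atTop (𝓝 (ν (⋃ n : ℕ, Ioc x (n : ℝ)))) :=
    tendsto_measure_iUnion_atTop hmono
  rw [← hU, hν, withDensity_apply _ measurableSet_Ioi] at h1
  have h1' := h1.add_const (ENNReal.ofReal (-bt ψ g x Tx))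
  have h2 : Tendsto (fun n : ℕ => (∫⁻ r in Ioi x, ENNReal.ofReal (gR ψ μ g g' r)) +
      ENNReal.ofReal (bt ψ g x Tx) + ENNReal.ofReal (K / (n:ℝ))) atTop
      (𝓝 ((∫⁻ r in Ioi x, ENNReal.ofReal (gR ψ μ g g' r)) +
      ENNReal.ofReal (bt ψ g x Tx) + ENNReal.ofReal 0)) := by
    apply Tendsto.const_add
    apply ENNReal.tendsto_ofReal
    exact tendsto_const_div_atTop_nhds_zero_nat K
  rw [ENNReal.ofReal_zero, add_zero] at h2
  apply le_of_tendsto_of_tendsto h1' h2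
  obtain ⟨n0, hn0⟩ := exists_nat_ge (max 1 x)
  filter_upwards [eventually_ge_atTop n0] with n hn
  have h3 : max 1 x ≤ (n:ℝ) := hn0.trans (by exact_mod_cast hn)
  rw [withDensity_apply _ measurableSet_Ioc]
  exact hbdd n ((le_max_left _ _).trans h3) ((le_max_right _ _).trans h3)

/-- the one-dimensional inequality -/
theorem oneD_of_tail {x T : ℝ} (hx : 0 ≤ x) (hψx : ψ x = 0) (hQx : ∀ r, 0 < r → r < x → Q r = 0)
    (hT : Tail ψ Q μ x T) {B : ℝ} (hg : ∀ r, 0 < r → HasDerivAt g (g' r) r)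
    (hgc : ContinuousOn g' (Ioi 0)) (hB : ∀ r, 0 < r → ‖g r‖ ≤ B) :
    ∫⁻ r in Ioi (0:ℝ), ENNReal.ofReal (fL Q g r) ≤
      ∫⁻ r in Ioi (0:ℝ), ENNReal.ofReal (gR ψ μ g g' r) := by
  have h1 := hT g g' B hg hgc hB
  have h0 : bt ψ g x T = 0 := by unfold bt; rw [hψx]; simp
  rw [h0, neg_zero, ENNReal.ofReal_zero, add_zero, add_zero] at h1
  have hz : ∫⁻ r in Ioc 0 x, ENNReal.ofReal (fL Q g r) = 0 := by
    rw [← restrict_Ioo_eq_restrict_Ioc]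
    rw [setLIntegral_congr_fun (g := fun _ => 0) measurableSet_Ioo]
    · simp
    intro r hr
    simp only [fL, hQx r hr.1 hr.2, zero_mul, ENNReal.ofReal_zero]
  rw [← Ioc_union_Ioi_eq_Ioi hx]
  refine (lintegral_union_le _ _ _).trans ?_
  rw [hz, zero_add]
  refine h1.trans (lintegral_mono_set ?_)
  exact subset_union_right

end

section
variable {τ ν : ℂ} {u : Pt → ℂ}

/-- the strip inequality for general weights -/
theorem strip_of_tail {ψ Q : ℝ → ℝ} {μ : ℝ} (hμ : 0 ≤ μ) (hψm : Measurable ψ)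
    (hψ0 : ∀ r, 0 < r → 0 ≤ ψ r) (hQm : Measurable Q) (hQ0 : ∀ r, 0 < r → 0 ≤ Q r)
    {x T : ℝ} (hx : 0 ≤ x) (hψx : ψ x = 0) (hQx : ∀ r, 0 < r → r < x → Q r = 0)
    (hT : Tail ψ Q μ x T)
    (hu : ContDiffOn ℝ 1 u UH) {B : ℝ} (hB : ∀ p ∈ UH, ‖u p‖ ≤ B)
    (hW : ∀ r : ℝ, 0 < r → ENNReal.ofReal μ * cellInt τ ν (fun p => ENNReal.ofReal (‖u p‖ ^ 2)) r
      ≤ cellInt τ ν (fun p => ENNReal.ofReal (‖pd e1 u p‖ ^ 2 + ‖pd e2 u p‖ ^ 2)) r) :
    ∫⁻ r in Set.Ioi (0 : ℝ), ENNReal.ofReal (Q r) *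
        cellInt τ ν (fun p => ENNReal.ofReal (‖u p‖ ^ 2)) r * ENNReal.ofReal ((r ^ 3)⁻¹)
      ≤ ∫⁻ r in Set.Ioi (0 : ℝ), ENNReal.ofReal (ψ r) *
        cellInt τ ν (fun p => ENNReal.ofReal (gsq u p)) r * ENNReal.ofReal ((r ^ 3)⁻¹) := by
  have hfd : ContinuousOn (fderiv ℝ u) UH := hu.continuousOn_fderiv_of_isOpen
    Helper47.Ram.isOpen_UH le_rfl
  have hpd : ∀ e : Pt, ContinuousOn (pd e u) UH := fun e =>
    hfd.clm_apply continuousOn_const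
  -- measurable extensions
  set S : Set (ℝ × ℝ × ℝ) := {x | 0 < x.1} with hS
  set A : ℝ × ℝ × ℝ → ℝ := S.indicator (fun x => ‖u (ph τ ν x)‖ ^ 2) with hA
  set D : ℝ × ℝ × ℝ → ℝ := S.indicator (fun x => ‖pd e3 u (ph τ ν x)‖ ^ 2) with hD
  have hAm : Measurable A := meas_ext (f := fun p => ‖u p‖ ^ 2) (hu.continuousOn.norm.pow 2)
  have hDm : Measurable D := meas_ext (f := fun p => ‖pd e3 u p‖ ^ 2) ((hpd e3).norm.pow 2)
  have hw : Measurable (fun r : ℝ => (r ^ 3)⁻¹) := by fun_prop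
  set FL : ℝ × ℝ × ℝ → ENNReal := fun x => ENNReal.ofReal (Q x.1) *
    ENNReal.ofReal ((x.1 ^ 3)⁻¹) * ENNReal.ofReal (A x) with hFL
  set FR : ℝ × ℝ × ℝ → ENNReal := fun x => ENNReal.ofReal (ψ x.1) *
    ENNReal.ofReal ((x.1 ^ 3)⁻¹) * (ENNReal.ofReal (x.1 ^ 2) *
      (ENNReal.ofReal (D x) + ENNReal.ofReal μ * ENNReal.ofReal (A x))) with hFR
  have hFLm : Measurable FL :=
    ((ENNReal.measurable_ofReal.comp (hQm.comp measurable_fst)).mul
      (ENNReal.measurable_ofReal.comp (hw.comp measurable_fst))).mul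
        (ENNReal.measurable_ofReal.comp hAm)
  have hFRm : Measurable FR :=
    ((ENNReal.measurable_ofReal.comp (hψm.comp measurable_fst)).mul
      (ENNReal.measurable_ofReal.comp (hw.comp measurable_fst))).mul
        ((ENNReal.measurable_ofReal.comp ((measurable_fst.pow_const 2))).mul
          ((ENNReal.measurable_ofReal.comp hDm).add
            ((ENNReal.measurable_ofReal.comp hAm).const_mul _)))
  -- left side
  have hL : ∫⁻ r in Set.Ioi (0 : ℝ), ENNReal.ofReal (Q r) *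
        cellInt τ ν (fun p => ENNReal.ofReal (‖u p‖ ^ 2)) r * ENNReal.ofReal ((r ^ 3)⁻¹) =
      ∫⁻ r in Ioi (0:ℝ), ∫⁻ s in Icc (0:ℝ) 1, ∫⁻ t in Icc (0:ℝ) 1, FL (r, s, t) := by
    apply setLIntegral_congr_fun measurableSet_Ioi
    intro r hr
    have hr0 : 0 < r := hr
    have e1 : ∀ s t : ℝ, FL (r, s, t) = (ENNReal.ofReal (Q r) * ENNReal.ofReal ((r ^ 3)⁻¹)) *
        ENNReal.ofReal (‖u (ν * (s + t * τ), r)‖ ^ 2) := by
      intro s t
      have hmem : ((r, s, t) : ℝ × ℝ × ℝ) ∈ S := hr0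
      simp only [hFL, hA, indicator_of_mem hmem, ph]
    simp only [cellInt]
    simp_rw [e1]
    have hne : ENNReal.ofReal (Q r) * ENNReal.ofReal ((r ^ 3)⁻¹) ≠ ⊤ :=
      ENNReal.mul_ne_top ENNReal.ofReal_ne_top ENNReal.ofReal_ne_top
    simp_rw [lintegral_const_mul' _ _ hne]
    ring
  rw [hL, tonelli3 hFLm]
  -- the pointwise inequality
  have hpt : ∀ s t : ℝ, ∫⁻ r in Ioi (0:ℝ), FL (r, s, t) ≤ ∫⁻ r in Ioi (0:ℝ), FR (r, s, t) := by
    intro s t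
    set z : ℂ := ν * (s + t * τ) with hz
    have hg : ∀ r, 0 < r → HasDerivAt (fun r => u (z, r)) (pd e3 u (z, r)) r := by
      intro r hr
      have hd : DifferentiableAt ℝ u (z, r) :=
        (hu.contDiffAt (Helper47.Ram.isOpen_UH.mem_nhds hr)).differentiableAt one_ne_zero
      have h1 : HasDerivAt (fun r : ℝ => ((z, r) : Pt)) ((0 : ℂ), (1 : ℝ)) r :=
        (hasDerivAt_const r z).prodMk (hasDerivAt_id r)
      exact hd.hasFDerivAt.comp_hasDerivAt r h1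
    have hgc : ContinuousOn (fun r => pd e3 u (z, r)) (Ioi 0) :=
      (hpd e3).comp (by fun_prop) (fun r hr => hr)
    have hmain := oneD_of_tail (g := fun r => u (z, r)) (g' := fun r => pd e3 u (z, r)) (B := B)
      hx hψx hQx hT hg hgc (fun r hr => hB _ hr)
    have eL : ∫⁻ r in Ioi (0:ℝ), FL (r, s, t) =
        ∫⁻ r in Ioi (0:ℝ), ENNReal.ofReal (fL Q (fun r => u (z, r)) r) := by
      apply setLIntegral_congr_fun measurableSet_Ioi
      intro r hr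
      have hr0 : 0 < r := hr
      have hmem : ((r, s, t) : ℝ × ℝ × ℝ) ∈ S := hr0
      have h1 := hQ0 r hr0
      simp only [hFL, hA, indicator_of_mem hmem, ph, fL]
      rw [ENNReal.ofReal_mul (by positivity), ENNReal.ofReal_mul h1]
    have eR : ∫⁻ r in Ioi (0:ℝ), FR (r, s, t) =
        ∫⁻ r in Ioi (0:ℝ), ENNReal.ofReal (gR ψ μ (fun r => u (z, r))
          (fun r => pd e3 u (z, r)) r) := by
      apply setLIntegral_congr_fun measurableSet_Ioi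
      intro r hr
      have hr0 : 0 < r := hr
      have hmem : ((r, s, t) : ℝ × ℝ × ℝ) ∈ S := hr0
      have h1 := hψ0 r hr0
      simp only [hFR, hA, hD, indicator_of_mem hmem, ph, gR]
      rw [ENNReal.ofReal_mul (by positivity), ENNReal.ofReal_mul h1,
        ENNReal.ofReal_mul (by positivity), ENNReal.ofReal_add (by positivity) (by positivity),
        ENNReal.ofReal_mul hμ]
    rw [eL, eR]
    exact hmain
  have hmid : ∫⁻ s in Icc (0:ℝ) 1, ∫⁻ t in Icc (0:ℝ) 1, ∫⁻ r in Ioi (0:ℝ), FL (r, s, t) ≤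
      ∫⁻ s in Icc (0:ℝ) 1, ∫⁻ t in Icc (0:ℝ) 1, ∫⁻ r in Ioi (0:ℝ), FR (r, s, t) :=
    lintegral_mono fun s => lintegral_mono fun t => hpt s t
  refine hmid.trans ?_
  rw [← tonelli3 hFRm]
  apply setLIntegral_mono' measurableSet_Ioi
  intro r hr
  have hr0 : 0 < r := hr
  set α := ENNReal.ofReal (ψ r) * ENNReal.ofReal ((r ^ 3)⁻¹) with hα
  have hαne : α ≠ ⊤ := ENNReal.mul_ne_top ENNReal.ofReal_ne_top ENNReal.ofReal_ne_top
  have hAr : ∀ s t : ℝ, A (r, s, t) = ‖u (ν * (s + t * τ), r)‖ ^ 2 := by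
    intro s t
    have hmem : ((r, s, t) : ℝ × ℝ × ℝ) ∈ S := hr0
    simp only [hA, indicator_of_mem hmem, ph]
  have hDr : ∀ s t : ℝ, D (r, s, t) = ‖pd e3 u (ν * (s + t * τ), r)‖ ^ 2 := by
    intro s t
    have hmem : ((r, s, t) : ℝ × ℝ × ℝ) ∈ S := hr0
    simp only [hD, indicator_of_mem hmem, ph]
  have hDm2 : Measurable (fun x : ℝ × ℝ => ENNReal.ofReal (D (r, x.1, x.2))) :=
    ENNReal.measurable_ofReal.comp (hDm.comp (by fun_prop))
  have hDm1 : ∀ s, Measurable (fun t : ℝ => ENNReal.ofReal (D (r, s, t))) := fun s =>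
    ENNReal.measurable_ofReal.comp (hDm.comp (by fun_prop))
  have f1 : ∫⁻ s in Icc (0:ℝ) 1, ∫⁻ t in Icc (0:ℝ) 1, FR (r, s, t) =
      α * (ENNReal.ofReal (r ^ 2) *
        (cellInt τ ν (fun p => ENNReal.ofReal (‖pd e3 u p‖ ^ 2)) r +
          ENNReal.ofReal μ * cellInt τ ν (fun p => ENNReal.ofReal (‖u p‖ ^ 2)) r)) := by
    have h1 : ∀ s, ∫⁻ t in Icc (0:ℝ) 1, FR (r, s, t) = α * (ENNReal.ofReal (r ^ 2) *
        ((∫⁻ t in Icc (0:ℝ) 1, ENNReal.ofReal (D (r, s, t))) +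
          ENNReal.ofReal μ * ∫⁻ t in Icc (0:ℝ) 1, ENNReal.ofReal (A (r, s, t)))) := by
      intro s
      rw [← lintegral_const_mul' _ _ ENNReal.ofReal_ne_top, ← lintegral_add_left (hDm1 s),
        ← lintegral_const_mul' _ _ ENNReal.ofReal_ne_top, ← lintegral_const_mul' _ _ hαne]
    simp_rw [h1]
    rw [lintegral_const_mul' _ _ hαne, lintegral_const_mul' _ _ ENNReal.ofReal_ne_top,
      lintegral_add_left hDm2.lintegral_prod_right', lintegral_const_mul' _ _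
        ENNReal.ofReal_ne_top]
    simp_rw [hAr, hDr]
    rfl
  rw [f1]
  have f2 : ENNReal.ofReal (r ^ 2) *
        (cellInt τ ν (fun p => ENNReal.ofReal (‖pd e3 u p‖ ^ 2)) r +
          ENNReal.ofReal μ * cellInt τ ν (fun p => ENNReal.ofReal (‖u p‖ ^ 2)) r) ≤
      cellInt τ ν (fun p => ENNReal.ofReal (gsq u p)) r := by
    have h1 : ENNReal.ofReal (r ^ 2) *
        (cellInt τ ν (fun p => ENNReal.ofReal (‖pd e3 u p‖ ^ 2)) r +
          ENNReal.ofReal μ * cellInt τ ν (fun p => ENNReal.ofReal (‖u p‖ ^ 2)) r) ≤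
        ENNReal.ofReal (r ^ 2) *
        (cellInt τ ν (fun p => ENNReal.ofReal (‖pd e3 u p‖ ^ 2)) r +
          cellInt τ ν (fun p => ENNReal.ofReal (‖pd e1 u p‖ ^ 2 + ‖pd e2 u p‖ ^ 2)) r) := by
      gcongr
      exact hW r hr0
    refine h1.trans ?_
    unfold cellInt
    refine (mul_le_mul_right (le_lintegral_add _ _) _).trans ?_
    rw [← lintegral_const_mul' _ _ ENNReal.ofReal_ne_top]
    apply lintegral_mono
    intro s
    refine (mul_le_mul_right (le_lintegral_add _ _) _).trans ?_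
    rw [← lintegral_const_mul' _ _ ENNReal.ofReal_ne_top]
    apply lintegral_mono
    intro t
    simp only
    rw [← ENNReal.ofReal_add (by positivity) (by positivity), ← ENNReal.ofReal_mul (by positivity)]
    apply ENNReal.ofReal_le_ofReal
    unfold gsq
    apply le_of_eq
    ring
  calc α * (ENNReal.ofReal (r ^ 2) *
        (cellInt τ ν (fun p => ENNReal.ofReal (‖pd e3 u p‖ ^ 2)) r +
          ENNReal.ofReal μ * cellInt τ ν (fun p => ENNReal.ofReal (‖u p‖ ^ 2)) r))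
      ≤ α * cellInt τ ν (fun p => ENNReal.ofReal (gsq u p)) r := by gcongr
    _ = ENNReal.ofReal (ψ r) * cellInt τ ν (fun p => ENNReal.ofReal (gsq u p)) r *
        ENNReal.ofReal ((r ^ 3)⁻¹) := by rw [hα]; ring

end

/-! ## The weights `psi c m`, `Qf c s R1 M` -/

/-- Bernstein certificate for a cubic on an interval -/
theorem bern3 {x y r A0 A1 A2 A3 : ℝ} (hxy : x < y) (hx : x ≤ r) (hy : r ≤ y)
    (h0 : 0 ≤ A0 + A1 * x + A2 * x ^ 2 + A3 * x ^ 3)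
    (h1 : 0 ≤ 3 * A0 + A1 * (2 * x + y) + A2 * (x ^ 2 + 2 * x * y) + 3 * A3 * x ^ 2 * y)
    (h2 : 0 ≤ 3 * A0 + A1 * (x + 2 * y) + A2 * (y ^ 2 + 2 * x * y) + 3 * A3 * x * y ^ 2)
    (h3 : 0 ≤ A0 + A1 * y + A2 * y ^ 2 + A3 * y ^ 3) :
    0 ≤ A0 + A1 * r + A2 * r ^ 2 + A3 * r ^ 3 := by
  have hd : 0 < y - x := sub_pos.2 hxy
  have hu : 0 ≤ r - x := sub_nonneg.2 hx
  have hv : 0 ≤ y - r := sub_nonneg.2 hy
  have key : (y - x) ^ 3 * (A0 + A1 * r + A2 * r ^ 2 + A3 * r ^ 3) =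
      (A0 + A1 * x + A2 * x ^ 2 + A3 * x ^ 3) * (y - r) ^ 3 +
      (3 * A0 + A1 * (2 * x + y) + A2 * (x ^ 2 + 2 * x * y) + 3 * A3 * x ^ 2 * y) *
        ((r - x) * (y - r) ^ 2) +
      (3 * A0 + A1 * (x + 2 * y) + A2 * (y ^ 2 + 2 * x * y) + 3 * A3 * x * y ^ 2) *
        ((r - x) ^ 2 * (y - r)) +
      (A0 + A1 * y + A2 * y ^ 2 + A3 * y ^ 3) * (r - x) ^ 3 := by ring
  have hpos : 0 < (y - x) ^ 3 := by positivity
  refine nonneg_of_mul_nonneg_right ?_ hpos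
  rw [key]
  positivity

theorem psi_nonneg' (c m : ℝ) (r : ℝ) : 0 ≤ psi c m r := le_max_left _ _

theorem measurable_psi' (c m : ℝ) : Measurable (psi c m) := by
  unfold psi
  fun_prop

theorem measurable_Qf' (c s R1 M : ℝ) : Measurable (Qf c s R1 M) := by
  unfold Qf
  exact Measurable.ite measurableSet_Iio (by fun_prop) measurable_const

theorem Qf_nonneg' {c s R1 M : ℝ} (hM : 0 ≤ M) (r : ℝ) : 0 ≤ Qf c s R1 M r := by
  unfold Qf
  split_ifs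
  · exact le_max_left _ _
  · exact hM

theorem psi_eq_left {c m r : ℝ} (hc : 0 < c) (hr : 1 / c ≤ r) (hcm : m < c)
    (hr2 : r ≤ 1 / (c - m)) : psi c m r = c - 1 / r := by
  have hcm' : 0 < c - m := sub_pos.2 hcm
  have hr0 : 0 < r := lt_of_lt_of_le (by positivity) hr
  have h1 : 1 / r ≤ c := by
    rw [div_le_iff₀ hr0]
    rw [div_le_iff₀ hc] at hr
    linarith
  have h2 : c - m ≤ 1 / r := by
    rw [le_div_iff₀ hr0]
    rw [le_div_iff₀ hcm'] at hr2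
    linarith
  unfold psi
  rw [min_eq_left (by linarith), max_eq_right (by linarith)]

theorem psi_eq_right {c m r : ℝ} (hm : 0 ≤ m) (hcm : m < c) (hr : 1 / (c - m) ≤ r) :
    psi c m r = m := by
  have hcm' : 0 < c - m := sub_pos.2 hcm
  have hr0 : 0 < r := lt_of_lt_of_le (by positivity) hr
  have h2 : 1 / r ≤ c - m := by
    rw [div_le_iff₀ hr0]
    rw [div_le_iff₀ hcm'] at hr
    linarith
  unfold psi
  rw [min_eq_right (by linarith), max_eq_right hm]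

theorem psi_zero {c m : ℝ} (_hc : 0 < c) (hm : 0 ≤ m) : psi c m (1 / c) = 0 := by
  unfold psi
  have : c - 1 / (1 / c) = 0 := by field_simp; ring
  rw [this, min_eq_left hm, max_self]

theorem Qf_zero {c s R1 M r : ℝ} (hc : 0 < c) (hs : 0 ≤ s) (hr : 0 < r) (hrc : r < 1 / c)
    (hR : 1 / c ≤ R1) : Qf c s R1 M r = 0 := by
  unfold Qf
  rw [if_pos (lt_of_lt_of_le hrc hR)]
  have h1 : c ≤ 1 / r := by
    rw [le_div_iff₀ hr]
    rw [lt_div_iff₀ hc] at hrc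
    linarith
  have h2 : s * (c - 1 / r) ≤ 0 := mul_nonpos_of_nonneg_of_nonpos hs (by linarith)
  exact max_eq_left h2

section pieces

variable {c m s R1 M μ : ℝ}

/-- a piece with `1/c ≤ x < y ≤ R1`, `y ≤ 1/(c-m)` -/
theorem tail_a (hμ : 0 ≤ μ) (hM : 0 ≤ M) (hm : 0 ≤ m) (hmc : m < c) (hs : 0 ≤ s)
    {x y Tx Ty : ℝ} (t0 t1 : ℝ) (hx : 1 / c ≤ x) (hxy : x < y) (hy : y ≤ 1 / (c - m))
    (hyR : y ≤ R1) (hTx : Tx = t0 + t1 * x) (hTy : Ty = t0 + t1 * y)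
    (hA : ∀ A0 A1 A2 A3 : ℝ, A0 = s + t0 ^ 2 - 3 * t0 →
      A1 = -(c * s) + 2 * t0 * t1 - 2 * t1 + c * (2 * t0 - t0 ^ 2) →
      A2 = t1 ^ 2 - μ + c * (t1 - 2 * t0 * t1) → A3 = c * (μ - t1 ^ 2) →
      0 ≤ A0 + A1 * x + A2 * x ^ 2 + A3 * x ^ 3 ∧
      0 ≤ 3 * A0 + A1 * (2 * x + y) + A2 * (x ^ 2 + 2 * x * y) + 3 * A3 * x ^ 2 * y ∧
      0 ≤ 3 * A0 + A1 * (x + 2 * y) + A2 * (y ^ 2 + 2 * x * y) + 3 * A3 * x * y ^ 2 ∧
      0 ≤ A0 + A1 * y + A2 * y ^ 2 + A3 * y ^ 3)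
    (hT : Tail (psi c m) (Qf c s R1 M) μ y Ty) : Tail (psi c m) (Qf c s R1 M) μ x Tx := by
  have hc : 0 < c := lt_of_le_of_lt hm hmc
  have hx0 : 0 < x := lt_of_lt_of_le (by positivity) hx
  refine Tail.cons hμ (fun r _ => psi_nonneg' c m r) (fun r _ => Qf_nonneg' hM r) c 1 t0 t1 hx0
    hxy.le hTx hTy (fun r hr => psi_eq_left hc (hx.trans hr.1) hmc (hr.2.trans hy)) ?_ hT
  intro r hr
  have hr0 : 0 < r := hx0.trans hr.1
  obtain ⟨h0, h1, h2, h3⟩ := hA _ _ _ _ rfl rfl rfl rfl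
  have hb := bern3 hxy hr.1.le hr.2.le h0 h1 h2 h3
  have hc1 : 1 / r ≤ c := by
    rw [div_le_iff₀ hr0]
    have h4 := hx.trans hr.1.le
    rw [div_le_iff₀ hc] at h4
    linarith
  unfold Qf
  rw [if_pos (lt_of_lt_of_le hr.2 hyR), max_eq_right (mul_nonneg hs (by linarith))]
  have key : (qq c 1 t0 t1 μ r - s * (c - 1 / r)) * r =
      (s + t0 ^ 2 - 3 * t0) + (-(c * s) + 2 * t0 * t1 - 2 * t1 + c * (2 * t0 - t0 ^ 2)) * r +
      (t1 ^ 2 - μ + c * (t1 - 2 * t0 * t1)) * r ^ 2 + c * (μ - t1 ^ 2) * r ^ 3 := by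
    unfold qq
    field_simp
    ring
  have : 0 ≤ (qq c 1 t0 t1 μ r - s * (c - 1 / r)) * r := by rw [key]; exact hb
  have := nonneg_of_mul_nonneg_left this hr0
  linarith

/-- a piece with `R1 ≤ x < y ≤ 1/(c-m)` -/
theorem tail_b (hμ : 0 ≤ μ) (hM : 0 ≤ M) (hm : 0 ≤ m) (hmc : m < c)
    {x y Tx Ty : ℝ} (t0 t1 : ℝ) (hx : 1 / c ≤ x) (hxy : x < y) (hy : y ≤ 1 / (c - m))
    (hyR : R1 ≤ x) (hTx : Tx = t0 + t1 * x) (hTy : Ty = t0 + t1 * y)
    (hA : ∀ A0 A1 A2 A3 : ℝ, A0 = t0 ^ 2 - 3 * t0 →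
      A1 = -M + 2 * t0 * t1 - 2 * t1 + c * (2 * t0 - t0 ^ 2) →
      A2 = t1 ^ 2 - μ + c * (t1 - 2 * t0 * t1) → A3 = c * (μ - t1 ^ 2) →
      0 ≤ A0 + A1 * x + A2 * x ^ 2 + A3 * x ^ 3 ∧
      0 ≤ 3 * A0 + A1 * (2 * x + y) + A2 * (x ^ 2 + 2 * x * y) + 3 * A3 * x ^ 2 * y ∧
      0 ≤ 3 * A0 + A1 * (x + 2 * y) + A2 * (y ^ 2 + 2 * x * y) + 3 * A3 * x * y ^ 2 ∧
      0 ≤ A0 + A1 * y + A2 * y ^ 2 + A3 * y ^ 3)
    (hT : Tail (psi c m) (Qf c s R1 M) μ y Ty) : Tail (psi c m) (Qf c s R1 M) μ x Tx := by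
  have hc : 0 < c := lt_of_le_of_lt hm hmc
  have hx0 : 0 < x := lt_of_lt_of_le (by positivity) hx
  refine Tail.cons hμ (fun r _ => psi_nonneg' c m r) (fun r _ => Qf_nonneg' hM r) c 1 t0 t1 hx0
    hxy.le hTx hTy (fun r hr => psi_eq_left hc (hx.trans hr.1) hmc (hr.2.trans hy)) ?_ hT
  intro r hr
  have hr0 : 0 < r := hx0.trans hr.1
  obtain ⟨h0, h1, h2, h3⟩ := hA _ _ _ _ rfl rfl rfl rfl
  have hb := bern3 hxy hr.1.le hr.2.le h0 h1 h2 h3
  unfold Qf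
  rw [if_neg (not_lt.2 (hyR.trans hr.1.le))]
  have key : (qq c 1 t0 t1 μ r - M) * r =
      (t0 ^ 2 - 3 * t0) + (-M + 2 * t0 * t1 - 2 * t1 + c * (2 * t0 - t0 ^ 2)) * r +
      (t1 ^ 2 - μ + c * (t1 - 2 * t0 * t1)) * r ^ 2 + c * (μ - t1 ^ 2) * r ^ 3 := by
    unfold qq
    field_simp
    ring
  have : 0 ≤ (qq c 1 t0 t1 μ r - M) * r := by rw [key]; exact hb
  have := nonneg_of_mul_nonneg_left this hr0
  linarith

/-- a piece with `R1 ≤ x < y`, `1/(c-m) ≤ x` -/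
theorem tail_c (hμ : 0 ≤ μ) (hM : 0 ≤ M) (hm : 0 ≤ m) (hmc : m < c)
    {x y Tx Ty : ℝ} (t0 t1 : ℝ) (hxy : x < y) (hx : 1 / (c - m) ≤ x)
    (hyR : R1 ≤ x) (hTx : Tx = t0 + t1 * x) (hTy : Ty = t0 + t1 * y)
    (hA : ∀ A0 A1 A2 : ℝ, A0 = m * (2 * t0 - t0 ^ 2) - M →
      A1 = m * (t1 - 2 * t0 * t1) → A2 = m * (μ - t1 ^ 2) →
      0 ≤ A0 + A1 * x + A2 * x ^ 2 ∧
      0 ≤ 2 * A0 + A1 * (x + y) + 2 * A2 * (x * y) ∧
      0 ≤ A0 + A1 * y + A2 * y ^ 2)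
    (hT : Tail (psi c m) (Qf c s R1 M) μ y Ty) : Tail (psi c m) (Qf c s R1 M) μ x Tx := by
  have hcm : 0 < c - m := sub_pos.2 hmc
  have hx0 : 0 < x := lt_of_lt_of_le (by positivity) hx
  refine Tail.cons hμ (fun r _ => psi_nonneg' c m r) (fun r _ => Qf_nonneg' hM r) m 0 t0 t1 hx0
    hxy.le hTx hTy (fun r hr => by rw [psi_eq_right hm hmc (hx.trans hr.1)]; simp) ?_ hT
  intro r hr
  have hr0 : 0 < r := hx0.trans hr.1
  obtain ⟨h0, h1, h2⟩ := hA _ _ _ rfl rfl rfl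
  have hd : 0 < y - x := sub_pos.2 hxy
  have hu : 0 ≤ r - x := sub_nonneg.2 hr.1.le
  have hv : 0 ≤ y - r := sub_nonneg.2 hr.2.le
  unfold Qf
  rw [if_neg (not_lt.2 (hyR.trans hr.1.le))]
  have key : (y - x) ^ 2 * (qq m 0 t0 t1 μ r - M) =
      (m * (2 * t0 - t0 ^ 2) - M + m * (t1 - 2 * t0 * t1) * x + m * (μ - t1 ^ 2) * x ^ 2) *
        (y - r) ^ 2 +
      (2 * (m * (2 * t0 - t0 ^ 2) - M) + m * (t1 - 2 * t0 * t1) * (x + y) +
        2 * (m * (μ - t1 ^ 2)) * (x * y)) * ((r - x) * (y - r)) +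
      (m * (2 * t0 - t0 ^ 2) - M + m * (t1 - 2 * t0 * t1) * y + m * (μ - t1 ^ 2) * y ^ 2) *
        (r - x) ^ 2 := by
    unfold qq
    ring
  have : 0 ≤ (y - x) ^ 2 * (qq m 0 t0 t1 μ r - M) := by rw [key]; positivity
  have := nonneg_of_mul_nonneg_right this (by positivity)
  linarith

/-- the last piece: `R1 ≤ x`, `1/(c-m) ≤ x` -/
theorem tail_d (hμ : 0 ≤ μ) (hM : 0 ≤ M) (hm : 0 ≤ m) (hmc : m < c)
    {x Tx : ℝ} (t0 t1 : ℝ) (hx : 1 / (c - m) ≤ x)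
    (hyR : R1 ≤ x) (hTx : Tx = t0 + t1 * x)
    (hA : ∀ A0 A1 A2 : ℝ, A0 = m * (2 * t0 - t0 ^ 2) - M →
      A1 = m * (t1 - 2 * t0 * t1) → A2 = m * (μ - t1 ^ 2) →
      0 ≤ A0 + A1 * x + A2 * x ^ 2 ∧ 0 ≤ A1 + 2 * A2 * x ∧ 0 ≤ A2) :
    Tail (psi c m) (Qf c s R1 M) μ x Tx := by
  have hcm : 0 < c - m := sub_pos.2 hmc
  have hx0 : 0 < x := lt_of_lt_of_le (by positivity) hx
  refine Tail.last hμ (fun r _ => psi_nonneg' c m r) (fun r _ => Qf_nonneg' hM r) t0 t1 hx0 hTx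
    (fun r hr => psi_eq_right hm hmc (hx.trans hr)) ?_
  intro r hr
  obtain ⟨h0, h1, h2⟩ := hA _ _ _ rfl rfl rfl
  unfold Qf
  rw [if_neg (not_lt.2 (hyR.trans hr.le))]
  have hu : 0 ≤ r - x := sub_nonneg.2 hr.le
  have key : qq m 0 t0 t1 μ r - M =
      (m * (2 * t0 - t0 ^ 2) - M + m * (t1 - 2 * t0 * t1) * x + m * (μ - t1 ^ 2) * x ^ 2) +
      (m * (t1 - 2 * t0 * t1) + 2 * (m * (μ - t1 ^ 2)) * x) * (r - x) +
      m * (μ - t1 ^ 2) * (r - x) ^ 2 := by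
    unfold qq
    ring
  have : 0 ≤ qq m 0 t0 t1 μ r - M := by rw [key]; positivity
  linarith

/-- the strip inequality for the weights `psi c m`, `Qf c s R1 M` -/
theorem strip_psi (hμ : 0 ≤ μ) (hM : 0 ≤ M) (hm : 0 ≤ m) (hmc : m < c) (hs : 0 ≤ s)
    (hR : 1 / c ≤ R1) {T : ℝ} (hT : Tail (psi c m) (Qf c s R1 M) μ (1 / c) T)
    {τ ν : ℂ} {u : Pt → ℂ} {B : ℝ} (hu : ContDiffOn ℝ 1 u UH) (hB : ∀ p ∈ UH, ‖u p‖ ≤ B)
    (hW : ∀ r : ℝ, 0 < r → ENNReal.ofReal μ * cellInt τ ν (fun p => ENNReal.ofReal (‖u p‖ ^ 2)) r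
      ≤ cellInt τ ν (fun p => ENNReal.ofReal (‖pd e1 u p‖ ^ 2 + ‖pd e2 u p‖ ^ 2)) r) :
    ∫⁻ r in Set.Ioi (0 : ℝ), ENNReal.ofReal (Qf c s R1 M r) *
        cellInt τ ν (fun p => ENNReal.ofReal (‖u p‖ ^ 2)) r * ENNReal.ofReal ((r ^ 3)⁻¹)
      ≤ ∫⁻ r in Set.Ioi (0 : ℝ), ENNReal.ofReal (psi c m r) *
        cellInt τ ν (fun p => ENNReal.ofReal (gsq u p)) r * ENNReal.ofReal ((r ^ 3)⁻¹) := by
  have hc : 0 < c := lt_of_le_of_lt hm hmc
  exact strip_of_tail hμ (measurable_psi' c m) (fun r _ => psi_nonneg' c m r)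
    (measurable_Qf' c s R1 M) (fun r _ => Qf_nonneg' hM r) (by positivity) (psi_zero hc hm)
    (fun r h1 h2 => Qf_zero hc hs h1 h2 hR) hT hu hB hW

end pieces

end Pool.Agent.Helper80.Ram
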