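import Pool.Agent.Helper80.Ram.Quad
import Pool.Agent.Helper80.Ram.Strip

set_option autoImplicit false

/-!
# The generic lower bound
-/

namespace Pool.Agent.Helper80.Ram

open Complex MeasureTheory Topology
open Pool.Agent.Helper10.Ram Pool.Agent.Helper99.Ram

theorem QT.conj {P : Par} {τ : ℂ} (h : QT P τ) : (starRingEnd ℂ) τ = P.u - τ := by
  apply Complex.ext
  · simp [h.re_eq]
    ring
  · simp

theorem QT.conj_mem {P : Par} {τ : ℂ} (h : QT P τ) {y : ℂ} (hy : y ∈ intRing τ) :
    (starRingEnd ℂ) y ∈ intRing τ := by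
  obtain ⟨a, b, rfl⟩ := (h.mem y).1 hy
  rw [map_add, map_mul, map_intCast, map_intCast, h.conj]
  refine (h.mem _).2 ⟨a + b * P.u, -b, ?_⟩
  push_cast
  ring

/-- `z` is closest to `0` among the translates -/
def Close (τ z : ℂ) : Prop := ∀ y ∈ intRing τ, ‖z‖ ≤ ‖z - y‖

theorem Close.conj {P : Par} {τ z : ℂ} (h : QT P τ) (hz : Close τ z) :
    Close τ ((starRingEnd ℂ) z) := by
  intro y hy
  have := hz _ (h.conj_mem hy)
  have e : (starRingEnd ℂ) z - y = (starRingEnd ℂ) (z - (starRingEnd ℂ) y) := by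
    rw [map_sub, Complex.conj_conj]
  rw [e, Complex.norm_conj, Complex.norm_conj]
  exact this

theorem Close.neg {τ z : ℂ} (hz : Close τ z) : Close τ (-z) := by
  intro y hy
  have := hz _ ((intRing τ).neg_mem hy)
  have e : -z - y = -(z - -y) := by ring
  rw [e, norm_neg, norm_neg]
  exact this

/-- the linear inequalities coming from closeness -/
theorem Close.ineq {P : Par} {τ : ℂ} (h : QT P τ) {X Y : ℝ} (hz : Close τ (X + Y * τ))
    (a b : ℤ) : 2 * X * a + P.u * (X * b + Y * a) - 2 * P.w * Y * b ≤ nfR P a b := by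
  have h1 := hz _ (h.int_mem a b)
  have h2 := pow_le_pow_left₀ (norm_nonneg _) h1 2
  have e : (X : ℂ) + Y * τ - (a + b * τ) = ((X - a : ℝ) : ℂ) + ((Y - b : ℝ) : ℂ) * τ := by
    push_cast; ring
  rw [e, h.norm_sq, h.norm_sq] at h2
  unfold nfR at h2 ⊢
  linarith

theorem rv_kcj (P : Par) (k : Key) (X Y r : ℝ) :
    rv P (kcj P k) X Y r = rv P k (X + P.u * Y) (-Y) r := by
  unfold rv kB k1 k2 k0 kcj nfZ nfR
  push_cast
  ring

theorem rv_kng (P : Par) (k : Key) (X Y r : ℝ) :
    rv P (kng k) X Y r = rv P k (-X) (-Y) r := by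
  unfold rv kB k1 k2 k0 kng nfZ nfR
  push_cast
  ring

theorem ofReal_list_sum {f : Key → ℝ} {g : Key → ENNReal} (hfg : ∀ k, ENNReal.ofReal (f k) ≤ g k) :
    ∀ L : List Key, ENNReal.ofReal ((L.map f).sum) ≤ (L.map g).sum
  | [] => by simp
  | k :: L => by
    simp only [List.map_cons, List.sum_cons]
    exact ENNReal.ofReal_add_le.trans (add_le_add (hfg k) (ofReal_list_sum hfg L))

theorem valid_single (P : Par) : Valid P [(0, 0, 1, 0)] := by
  refine ⟨?_, ?_⟩
  · intro k hk
    rw [List.mem_singleton] at hk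
    subst hk
    exact ⟨1, 0, 0, 0, by simp, by simp⟩
  · simp [kneg]

/-- the generic lower bound -/
theorem lower_gen {P : Par} {τ : ℂ} (h : QT P τ) (hR : NiceRing (intRing τ))
    {L : List Key} (hL : Valid P L) {c K s R1 M : ℝ} (hs : 0 ≤ s)
    (hK : M ≤ s * K)
    (hpt : ∀ X Y r : ℝ, 0 < r → 0 ≤ Y → 0 ≤ 2 * X + P.u * Y → 2 * X + P.u * Y ≤ 1 →
      P.u * X - 2 * P.w * Y ≤ -P.w → 1 ≤ nfR P X Y + r * r → r ≤ R1 →
      K ≤ (L.map fun k => max 0 (c - rv P k X Y r / r)).sum)
    {p : Pt} (hp : p ∈ UH) :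
    ENNReal.ofReal (2 * M) ≤
      ∑' v : Prim (intRing τ), ENNReal.ofReal (Qf c s R1 M (1 / uval v p)) := by
  obtain ⟨γ, hγ, g1, g2⟩ := reduce hR hp
  rw [← tsum_act hγ hp (fun u => ENNReal.ofReal (Qf c s R1 M (1 / u)))]
  set q := act γ p with hq
  have hqU : q ∈ UH := act_mem' γ hp
  have hq2 : 0 < q.2 := hqU
  have two : ENNReal.ofReal (2 * M) = 2 * ENNReal.ofReal M := by
    rw [ENNReal.ofReal_mul (by norm_num)]
    simp
  rw [two]
  rcases lt_or_ge q.2 R1 with hlt | hge
  · -- the interesting case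
    obtain ⟨z, r⟩ := q
    simp only at g1 g2 hq2 hlt
    have hout := outside hqU g2 (intRing τ).zero_mem
    rw [sub_zero] at hout
    simp only at hout
    obtain ⟨X, Y, rfl⟩ := h.coord z
    have hcl : Close τ (X + Y * τ) := g1
    rw [h.norm_sq] at hout
    -- the core
    have core : ∀ f : Key → Key, Valid P (L.map f) → ∀ X' Y' : ℝ,
        (∀ k, rv P (f k) X Y r = rv P k X' Y' r) → 0 ≤ Y' → 0 ≤ 2 * X' + P.u * Y' →
        2 * X' + P.u * Y' ≤ 1 → P.u * X' - 2 * P.w * Y' ≤ -P.w →
        1 ≤ nfR P X' Y' + r * r →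
        2 * ENNReal.ofReal M ≤ ∑' v : Prim (intRing τ),
          ENNReal.ofReal (Qf c s R1 M (1 / uval v ((X : ℂ) + Y * τ, r))) := by
      intro f hf X' Y' hrv h1 h2 h3 h4 h5
      refine le_trans ?_ (valid_le h hf (fun u => ENNReal.ofReal (Qf c s R1 M (1 / u)))
        ((X : ℂ) + Y * τ, r))
      refine mul_le_mul_right ?_ _
      have h6 := hpt X' Y' r hq2 h1 h2 h3 h4 h5 hlt.le
      have h7 : M ≤ (L.map fun k => max 0 (s * (c - rv P k X' Y' r / r))).sum := by
        refine hK.trans ((mul_le_mul_of_nonneg_left h6 hs).trans (le_of_eq ?_))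
        rw [← List.sum_map_mul_left]
        congr 1
        apply List.map_congr_left
        intro k _
        rw [mul_max_of_nonneg _ _ hs, mul_zero]
      refine (ENNReal.ofReal_le_ofReal h7).trans ?_
      rw [List.map_map]
      have h8 : ∀ k ∈ L, ENNReal.ofReal (max 0 (s * (c - rv P k X' Y' r / r))) =
          ENNReal.ofReal (Qf c s R1 M (1 / uval (tv τ (f k)) ((X : ℂ) + Y * τ, r))) := by
        intro k hk
        have hmem : tv τ (f k) ∈ Prim (intRing τ) :=
          tv_prim h (hf.1 _ (List.mem_map_of_mem hk))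
        have h9 := g2 _ hmem
        have h10 : 0 < uval (tv τ (f k)) ((X : ℂ) + Y * τ, r) :=
          lt_of_lt_of_le (by positivity) h9
        have h11 : 1 / uval (tv τ (f k)) ((X : ℂ) + Y * τ, r) < R1 := by
          refine lt_of_le_of_lt ?_ hlt
          rw [div_le_iff₀ h10]
          rw [div_le_iff₀ hq2] at h9
          linarith
        unfold Qf
        rw [if_pos h11, one_div_one_div, uval_tv h, hrv]
      have h12 : (L.map ((fun k => ENNReal.ofReal (Qf c s R1 M
          (1 / uval (tv τ k) ((X : ℂ) + Y * τ, r)))) ∘ f)) =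
          L.map fun k => ENNReal.ofReal (max 0 (s * (c - rv P k X' Y' r / r))) := by
        apply List.map_congr_left
        intro k hk
        simp only [Function.comp]
        exact (h8 k hk).symm
      rw [h12]
      exact ofReal_list_sum (fun k => le_rfl) L
    have cj : (starRingEnd ℂ) ((X : ℂ) + Y * τ) = ((X + P.u * Y : ℝ) : ℂ) + ((-Y : ℝ) : ℂ) * τ := by
      rw [map_add, map_mul, Complex.conj_ofReal, Complex.conj_ofReal, h.conj]
      push_cast
      ring
    have ng : -((X : ℂ) + Y * τ) = ((-X : ℝ) : ℂ) + ((-Y : ℝ) : ℂ) * τ := by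
      push_cast
      ring
    have ngcj : -(starRingEnd ℂ) ((X : ℂ) + Y * τ) =
        ((-(X + P.u * Y) : ℝ) : ℂ) + ((Y : ℝ) : ℂ) * τ := by
      rw [cj]
      push_cast
      ring
    -- the two inequalities
    have two_ineq : ∀ X' Y' : ℝ, Close τ (X' + Y' * τ) →
        2 * X' + P.u * Y' ≤ 1 ∧ P.u * X' - 2 * P.w * Y' ≤ -P.w := by
      intro X' Y' hc
      have i1 := hc.ineq h 1 0
      have i2 := hc.ineq h 0 1
      unfold nfR at i1 i2
      push_cast at i1 i2
      constructor <;> linarith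
    have out' : 1 ≤ nfR P X Y + r * r := by rw [← pow_two r]; exact hout
    have nf1 : nfR P (X + P.u * Y) (-Y) = nfR P X Y := by unfold nfR; ring
    have nf2 : nfR P (-X) (-Y) = nfR P X Y := by unfold nfR; ring
    have nf3 : nfR P (-(X + P.u * Y)) Y = nfR P X Y := by unfold nfR; ring
    rcases le_total 0 (2 * X + P.u * Y) with hs1 | hs1
    · rcases le_total 0 Y with hy | hy
      · have hv : Valid P (L.map id) := by rw [List.map_id]; exact hL
        obtain ⟨i1, i2⟩ := two_ineq X Y hcl
        exact core id hv X Y (fun k => rfl) hy hs1 i1 i2 out'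
      · have hc' := Close.conj h hcl
        rw [cj] at hc'
        obtain ⟨i1, i2⟩ := two_ineq _ _ hc'
        exact core (kcj P) (hL.map (kcj_inj P) (fun k hk => primZ_kcj hk) (kneg_kcj P))
          (X + P.u * Y) (-Y) (fun k => rv_kcj P k X Y r) (by linarith) (by linarith) i1 i2
          (by rw [nf1]; exact out')
    · rcases le_total 0 Y with hy | hy
      · have hc' := (Close.conj h hcl).neg
        rw [ngcj] at hc'
        obtain ⟨i1, i2⟩ := two_ineq _ _ hc'
        have hv : Valid P (L.map (kcj P ∘ kng)) :=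
          hL.map ((kcj_inj P).comp kng_inj) (fun k hk => primZ_kcj (primZ_kng hk)) (fun k => by
            simp only [Function.comp]
            rw [kneg_kcj, kneg_kng])
        exact core (kcj P ∘ kng) hv (-(X + P.u * Y)) Y (fun k => by
          simp only [Function.comp]
          rw [rv_kcj, rv_kng, neg_neg]) hy (by linarith) i1 i2 (by rw [nf3]; exact out')
      · have hc' := hcl.neg
        rw [ng] at hc'
        obtain ⟨i1, i2⟩ := two_ineq _ _ hc'
        exact core kng (hL.map kng_inj (fun k hk => primZ_kng hk) kneg_kng)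
          (-X) (-Y) (fun k => rv_kng P k X Y r) (by linarith) (by linarith) i1 i2
          (by rw [nf2]; exact out')
  · refine le_trans ?_ (valid_le h (valid_single P)
      (fun u => ENNReal.ofReal (Qf c s R1 M (1 / u))) q)
    refine mul_le_mul_right ?_ _
    simp only [List.map_cons, List.map_nil, List.sum_cons, List.sum_nil, add_zero]
    have e : uval (tv τ (0, 0, 1, 0)) q = 1 / q.2 := by
      unfold uval tv
      simp
    rw [e, one_div_one_div]
    unfold Qf
    rw [if_neg (not_lt.2 hge)]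

end Pool.Agent.Helper80.Ram
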