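import Pool.Agent.Helper80.Ram.Nice

set_option autoImplicit false

/-!
# Lower bounds for `ℚ(√-7)` and `ℚ(√-2)`
-/

namespace Pool.Agent.Helper80.Ram

open Complex MeasureTheory Topology
open Pool.Agent.Helper10.Ram Pool.Agent.Helper99.Ram

/-- `(1 + √-7)/2` -/
noncomputable def tau7 : ℂ := (1 + Real.sqrt 7 * I) / 2

/-- `√-2` -/
noncomputable def tau8 : ℂ := Real.sqrt 2 * I

/-- parameters for `ℚ(√-7)` -/
def P7 : Par := ⟨1, -2, 1800, 1113, 1000, 4480⟩

/-- parameters for `ℚ(√-2)` -/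
def P8 : Par := ⟨0, -2, 2250, 2393, 1000, 1280⟩

theorem qt7 : QT P7 tau7 := by
  have h7 : Real.sqrt 7 * Real.sqrt 7 = 7 := Real.mul_self_sqrt (by norm_num)
  have hre : tau7.re = 1 / 2 := by simp [tau7]
  have him : tau7.im = Real.sqrt 7 / 2 := by simp [tau7]
  refine ⟨by rw [him]; positivity, by rw [hre]; simp [P7], ?_⟩
  rw [him]
  simp only [P7]
  push_cast
  linear_combination (1 / 4) * h7

theorem qt8 : QT P8 tau8 := by
  have h7 : Real.sqrt 2 * Real.sqrt 2 = 2 := Real.mul_self_sqrt (by norm_num)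
  have hre : tau8.re = 0 := by simp [tau8]
  have him : tau8.im = Real.sqrt 2 := by simp [tau8]
  refine ⟨by rw [him]; positivity, by rw [hre]; simp [P8], ?_⟩
  rw [him]
  simp only [P8]
  push_cast
  linear_combination h7

theorem isLat_seven : IsLat (intRing tau7) tau7 := qt7.isLat
theorem isLat_eight : IsLat (intRing tau8) tau8 := qt8.isLat
theorem niceRing_seven : NiceRing (intRing tau7) := qt7.nice
theorem niceRing_eight : NiceRing (intRing tau8) := qt8.nice

theorem covers_seven : Covers (intRing tau7) 1 (6 / 10) := by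
  apply qt7.covers
  intro X Y h1 h2 h3 h4
  unfold nfR
  simp only [P7] at *
  push_cast at *
  have e : 4 * (X * X + 1 * X * Y - -2 * Y * Y) = (2 * X + 1 * Y) ^ 2 + 7 * Y ^ 2 := by ring
  have h5 : 7 * Y ≤ 4 - (2 * X + 1 * Y) := by linarith
  set s := 2 * X + 1 * Y with hs
  have h6 : 7 * (7 * Y ^ 2) ≤ (4 - s) ^ 2 := by
    have := pow_le_pow_left₀ (by positivity : (0:ℝ) ≤ 7 * Y) h5 2
    nlinarith
  nlinarith [mul_nonneg h2 (sub_nonneg.2 h3)]

theorem covers_eight : Covers (intRing tau8) 1 (1 / 2) := by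
  apply qt8.covers
  intro X Y h1 h2 h3 h4
  unfold nfR
  simp only [P8] at *
  push_cast at *
  have hX : 0 ≤ X := by linarith
  have hX2 : X ≤ 1 / 2 := by linarith
  have hY2 : Y ≤ 1 / 2 := by linarith
  nlinarith [mul_nonneg hX (sub_nonneg.2 hX2), mul_nonneg h1 (sub_nonneg.2 hY2)]

/-- the rows -/
def rows7 : List Key :=
  [(0, 0, 1, 0), (1, 0, 0, -1), (1, 0, 1, -1), (1, 0, -1, 0), (1, 0, 0, 0), (-1, 1, 1, 0), (0, 1, 1, 0)]

/-- decision tree -/
def tree70 : Tr :=
  Tr.t1 (Tr.leaf [true, false, false, true, true, false, false] 4480 3879 3993) (Tr.t1 (Tr.leaf [true, false, false, false, true, false, false] 4480 3993 3647) (Tr.t2 (Tr.leaf [true, false, false, false, true, false, false] 4480 3647 4147) (Tr.t2 (Tr.leaf [true, false, false, false, true, false, false] 4147 3647 3690) (Tr.rad 3920 (Tr.rad 3584 (Tr.leaf [true, true, false, false, true, true, true] 3584 3584 2932) (Tr.leaf [true, true, false, false, true, false, false] 3584 3584 3584)) (Tr.leaf [true, true,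 false, false, true, false, false] 3920 3920 3920)))))

/-- decision tree -/
def tree71 : Tr :=
  Tr.t2 (Tr.t0 (Tr.leaf [true, false, false, true, true, false, false] 3879 3666 3993) (Tr.t0 (Tr.leaf [true, false, false, true, true, false, false] 3666 3379 3993) (Tr.rad 3920 (Tr.leaf [true, true, false, true, true, true, false] 3379 2932 3920) (Tr.leaf [true, false, false, true, true, false, false] 3920 3920 3920)))) (Tr.rad 4368 (Tr.rad 3696 (Tr.t1 (Tr.leaf [true, true, false, true, true, true, false] 3696 2932 3167) (Tr.t2 (Tr.leaf [true, true, false, false, true, false, false] 3696 3167 3647) (Tr.leaf [true, true, true, false, true, true, false] 3647 3167 2932))) (Tr.leaf [true, true, false, false, true, false, false] 3696 3696 3696)) (Tr.leaf [true, true, false, false, true, false, false] 4368 4368 4368))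

/-- the rows -/
def rows8 : List Key :=
  [(0, 0, 1, 0), (1, 0, -1, -1), (1, 0, 0, -1), (1, 0, -1, 0), (1, 0, 0, 0), (2, 0, -1, -1), (-1, 1, 1, 0), (0, 1, 1, -1), (0, 1, 1, 0), (1, 1, 0, -1)]

/-- decision tree -/
def tree80 : Tr :=
  Tr.t1 (Tr.leaf [true, false, false, true, true, false, false, false, false, false] 1280 1108 1153) (Tr.t2 (Tr.leaf [true, false, false, true, true, false, false, false, false, false] 1280 1153 1197) (Tr.t1 (Tr.leaf [true, false, true, true, true, false, false, false, false, false] 1197 1153 1073) (Tr.leaf [true, false, true, false, true, false, false, false, false, false] 1197 1073 905)))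

/-- decision tree -/
def tree81 : Tr :=
  Tr.t0 (Tr.t2 (Tr.leaf [true, false, false, true, true, false, false, false, false, false] 1108 1011 1153) (Tr.rad 1184 (Tr.leaf [true, false, true, true, true, false, false, false, true, false] 1153 1011 905) (Tr.leaf [true, false, true, true, true, false, false, false, false, false] 1184 1184 1184))) (Tr.t1 (Tr.rad 992 (Tr.t0 (Tr.t2 (Tr.leaf [true, true, false, true, true, false, false, false, false, false] 992 876 973) (Tr.leaf [true, true, true, true, true, false, true, false, true, false] 973 876 846)) (Tr.t1 (Tr.t1 (Tr.rad 768 (Tr.leaf [true, true, true, true, true, true, true, true, true, true] 768 640 711) (Tr.leaf [true, true, true, true, true, false, true, true, true, false] 768 768 768)) (Tr.leaf [true, true, true, true, true, false, true, false, true, false] 876 711 767)) (Tr.leaf [true, true, true, true, true, false, true, false, true, false] 876 767 846))) (Tr.leaf [true, false, true, true, true, false, false,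 false, false, false] 992 992 992)) (Tr.rad 1248 (Tr.leaf [true, false, true, true, true, false, false, false, true, false] 1011 846 905) (Tr.leaf [true, false, true, true, true, false, false, false, false, false] 1248 1248 1248)))

theorem valid7 : Valid P7 rows7 := by
  refine ⟨?_, by decide +kernel⟩
  intro k hk
  simp only [rows7, List.mem_cons, List.not_mem_nil, or_false] at hk
  rcases hk with rfl | rfl | rfl | rfl | rfl | rfl | rfl
  · exact ⟨1, 0, 0, 0, by simp [P7], by simp [P7]⟩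
  · exact ⟨0, 0, -1, 0, by simp [P7], by simp [P7]⟩
  · exact ⟨0, 0, -1, 0, by simp [P7], by simp [P7]⟩
  · exact ⟨-1, 0, 0, 0, by simp [P7], by simp [P7]⟩
  · exact ⟨0, 0, -1, 0, by simp [P7], by simp [P7]⟩
  · exact ⟨1, 0, 0, 0, by simp [P7], by simp [P7]⟩
  · exact ⟨1, 0, 0, 0, by simp [P7], by simp [P7]⟩

theorem valid8 : Valid P8 rows8 := by
  refine ⟨?_, by decide +kernel⟩
  intro k hk
  simp only [rows8, List.mem_cons, List.not_mem_nil, or_false] at hk
  rcases hk with rfl | rfl | rfl | rfl | rfl | rfl | rfl | rfl | rfl | rfl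
  · exact ⟨1, 0, 0, 0, by simp [P8], by simp [P8]⟩
  · exact ⟨0, 0, -1, 0, by simp [P8], by simp [P8]⟩
  · exact ⟨0, 0, -1, 0, by simp [P8], by simp [P8]⟩
  · exact ⟨-1, 0, 0, 0, by simp [P8], by simp [P8]⟩
  · exact ⟨0, 0, -1, 0, by simp [P8], by simp [P8]⟩
  · exact ⟨-1, 1, 1, 0, by simp [P8], by simp [P8]⟩
  · exact ⟨1, 0, 0, 0, by simp [P8], by simp [P8]⟩
  · exact ⟨1, 0, -1, 0, by simp [P8], by simp [P8]⟩
  · exact ⟨1, 0, 0, 0, by simp [P8], by simp [P8]⟩
  · exact ⟨1, 0, -1, 0, by simp [P8], by simp [P8]⟩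

theorem chk70 : chk P7 rows7 tree70 (0, 0) (2240, 0) (-1280, 2560) none 5824 = true := by
  decide +kernel

theorem chk71 : chk P7 rows7 tree71 (2240, 0) (1280, 1920) (-1280, 2560) none 5824 = true := by
  decide +kernel

theorem chk80 : chk P8 rows8 tree80 (0, 0) (640, 0) (0, 640) none 1664 = true := by
  decide +kernel

theorem chk81 : chk P8 rows8 tree81 (640, 0) (640, 640) (0, 640) none 1664 = true := by
  decide +kernel


theorem pt7 (X Y r : ℝ) (hr : 0 < r) (h1 : 0 ≤ Y) (h2 : 0 ≤ 2 * X + P7.u * Y)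
    (h3 : 2 * X + P7.u * Y ≤ 1) (h4 : P7.u * X - 2 * P7.w * Y ≤ -P7.w)
    (h5 : 1 ≤ nfR P7 X Y + r * r) (h6 : r ≤ 13 / 10) :
    (1113 / 1000 : ℝ) ≤ (rows7.map fun k => max 0 (9 / 5 - rv P7 k X Y r / r)).sum := by
  have eK : ((P7.kn : ℤ) : ℝ) / ((P7.dn : ℤ) : ℝ) = 1113 / 1000 := by norm_num [P7]
  have ec : ((P7.cn : ℤ) : ℝ) / ((P7.dn : ℤ) : ℝ) = 9 / 5 := by norm_num [P7]
  have eN : ((P7.N : ℤ) : ℝ) = 4480 := by norm_num [P7]
  have eu : ((P7.u : ℤ) : ℝ) = 1 := by norm_num [P7]
  have ew : ((P7.w : ℤ) : ℝ) = -2 := by norm_num [P7]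
  rw [← eK, ← ec]
  rw [eu] at h2 h3 h4
  rw [ew] at h4
  have htop : ∀ t : ℤ, (t : ℝ) = 5824 → (P7.N : ℝ) * r ≤ t := by
    intro t ht
    rw [ht, eN]; linarith
  rcases le_total (2 * X + 11 / 4 * Y) 1 with hc | hc
  · refine pt_of_chk qt7.hP (by decide) (by decide) chk70 hr ?_ h5 (htop _ (by norm_num))
    refine ⟨1 - 2 * X - 11 / 4 * Y, 2 * X + Y, 7 / 4 * Y, by linarith, by linarith, by linarith,
      by ring, ?_, ?_⟩
    · rw [eN]; push_cast; ring
    · rw [eN]; push_cast; ring
  · refine pt_of_chk qt7.hP (by decide) (by decide) chk71 hr ?_ h5 (htop _ (by norm_num))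
    refine ⟨2 / 3 * (2 - X - 4 * Y), 4 / 3 * (2 * X + 11 / 4 * Y - 1), 1 - (2 * X + Y),
      by linarith, by linarith, by linarith, by ring, ?_, ?_⟩
    · rw [eN]; push_cast; ring
    · rw [eN]; push_cast; ring

theorem pt8 (X Y r : ℝ) (hr : 0 < r) (h1 : 0 ≤ Y) (h2 : 0 ≤ 2 * X + P8.u * Y)
    (h3 : 2 * X + P8.u * Y ≤ 1) (h4 : P8.u * X - 2 * P8.w * Y ≤ -P8.w)
    (h5 : 1 ≤ nfR P8 X Y + r * r) (h6 : r ≤ 13 / 10) :
    (2393 / 1000 : ℝ) ≤ (rows8.map fun k => max 0 (9 / 4 - rv P8 k X Y r / r)).sum := by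
  have eK : ((P8.kn : ℤ) : ℝ) / ((P8.dn : ℤ) : ℝ) = 2393 / 1000 := by norm_num [P8]
  have ec : ((P8.cn : ℤ) : ℝ) / ((P8.dn : ℤ) : ℝ) = 9 / 4 := by norm_num [P8]
  have eN : ((P8.N : ℤ) : ℝ) = 1280 := by norm_num [P8]
  have eu : ((P8.u : ℤ) : ℝ) = 0 := by norm_num [P8]
  have ew : ((P8.w : ℤ) : ℝ) = -2 := by norm_num [P8]
  rw [← eK, ← ec]
  rw [eu] at h2 h3 h4
  rw [ew] at h4
  have htop : ∀ t : ℤ, (t : ℝ) = 1664 → (P8.N : ℝ) * r ≤ t := by
    intro t ht
    rw [ht, eN]; linarith
  rcases le_total (2 * X + 2 * Y) 1 with hc | hc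
  · refine pt_of_chk qt8.hP (by decide) (by decide) chk80 hr ?_ h5 (htop _ (by norm_num))
    refine ⟨1 - 2 * X - 2 * Y, 2 * X, 2 * Y, by linarith, by linarith, by linarith,
      by ring, ?_, ?_⟩
    · rw [eN]; push_cast; ring
    · rw [eN]; push_cast; ring
  · refine pt_of_chk qt8.hP (by decide) (by decide) chk81 hr ?_ h5 (htop _ (by norm_num))
    refine ⟨1 - 2 * Y, 2 * X + 2 * Y - 1, 1 - 2 * X, by linarith, by linarith, by linarith,
      by ring, ?_, ?_⟩
    · rw [eN]; push_cast; ring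
    · rw [eN]; push_cast; ring

theorem lower_seven {p : Pt} (hp : p ∈ UH) :
    ENNReal.ofReal (2 * (242 / 125)) ≤
      ∑' v : Prim (intRing tau7),
        ENNReal.ofReal (Qf (9 / 5) (87 / 50) (13 / 10) (242 / 125) (1 / uval v p)) :=
  lower_gen qt7 niceRing_seven valid7 (K := 1113 / 1000) (by norm_num) (by norm_num) pt7 hp

theorem lower_eight {p : Pt} (hp : p ∈ UH) :
    ENNReal.ofReal (2 * (67 / 20)) ≤
      ∑' v : Prim (intRing tau8),
        ENNReal.ofReal (Qf (9 / 4) (7 / 5) (13 / 10) (67 / 20) (1 / uval v p)) :=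
  lower_gen qt8 niceRing_eight valid8 (K := 2393 / 1000) (by norm_num) (by norm_num) pt8 hp

end Pool.Agent.Helper80.Ram
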