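import Pool.Agent.Helper80.Ram.Strip

set_option autoImplicit false

/-!
# The piecewise linear test functions for `ℚ(√-7)` and `ℚ(√-2)`
-/

namespace Pool.Agent.Helper80.Ram

open Pool.Agent.Helper10.Ram

theorem tail7 : Tail (psi (9 / 5) (8 / 5)) (Qf (9 / 5) (87 / 50) (13 / 10) (242 / 125)) (3133 / 2500) (1 / (9 / 5)) (-7 / 90000) := by
  have h7 : Tail (psi (9 / 5) (8 / 5)) (Qf (9 / 5) (87 / 50) (13 / 10) (242 / 125)) (3133 / 2500) 5 (-201233 / 40000) := by
    refine tail_d (by norm_num) (by norm_num) (by norm_num) (by norm_num) (8807 / 40000) (-5251 / 5000) (by norm_num)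
      (by norm_num) (by norm_num) ?_
    rintro _ _ _ rfl rfl rfl; norm_num
  have h6 : Tail (psi (9 / 5) (8 / 5)) (Qf (9 / 5) (87 / 50) (13 / 10) (242 / 125)) (3133 / 2500) (5 / 2) (-91713 / 40000) := by
    refine tail_b (y := 5) (Ty := (-201233 / 40000)) (by norm_num) (by norm_num) (by norm_num) (by norm_num) (17807 / 40000) (-1369 / 1250)
      (by norm_num) (by norm_num) (by norm_num) (by norm_num) (by norm_num) (by norm_num) ?_ h7
    rintro _ _ _ _ rfl rfl rfl rfl; norm_num
  have h5 : Tail (psi (9 / 5) (8 / 5)) (Qf (9 / 5) (87 / 50) (13 / 10) (242 / 125)) (3133 / 2500) (19 / 10) (-64497 / 40000) := by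
    refine tail_b (y := (5 / 2)) (Ty := (-91713 / 40000)) (by norm_num) (by norm_num) (by norm_num) (by norm_num) (21687 / 40000) (-567 / 500)
      (by norm_num) (by norm_num) (by norm_num) (by norm_num) (by norm_num) (by norm_num) ?_ h6
    rintro _ _ _ _ rfl rfl rfl rfl; norm_num
  have h4 : Tail (psi (9 / 5) (8 / 5)) (Qf (9 / 5) (87 / 50) (13 / 10) (242 / 125)) (3133 / 2500) (3 / 2) (-227301 / 200000) := by
    refine tail_b (y := (19 / 10)) (Ty := (-64497 / 40000)) (by norm_num) (by norm_num) (by norm_num) (by norm_num) (129639 / 200000) (-5949 / 5000)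
      (by norm_num) (by norm_num) (by norm_num) (by norm_num) (by norm_num) (by norm_num) ?_ h5
    rintro _ _ _ _ rfl rfl rfl rfl; norm_num
  have h3 : Tail (psi (9 / 5) (8 / 5)) (Qf (9 / 5) (87 / 50) (13 / 10) (242 / 125)) (3133 / 2500) (13 / 10) (-176613 / 200000) := by
    refine tail_b (y := (3 / 2)) (Ty := (-227301 / 200000)) (by norm_num) (by norm_num) (by norm_num) (by norm_num) (152859 / 200000) (-792 / 625)
      (by norm_num) (by norm_num) (by norm_num) (by norm_num) (by norm_num) (by norm_num) ?_ h4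
    rintro _ _ _ _ rfl rfl rfl rfl; norm_num
  have h2 : Tail (psi (9 / 5) (8 / 5)) (Qf (9 / 5) (87 / 50) (13 / 10) (242 / 125)) (3133 / 2500) (19 / 20) (-47311 / 100000) := by
    refine tail_a (y := (13 / 10)) (Ty := (-176613 / 200000)) (by norm_num) (by norm_num) (by norm_num) (by norm_num)
      (by norm_num) (5117 / 8000) (-11713 / 10000) (by norm_num) (by norm_num) (by norm_num) (by norm_num) (by norm_num)
      (by norm_num) ?_ h3
    rintro _ _ _ _ rfl rfl rfl rfl; norm_num
  have h1 : Tail (psi (9 / 5) (8 / 5)) (Qf (9 / 5) (87 / 50) (13 / 10) (242 / 125)) (3133 / 2500) (7 / 10) (-17591 / 100000) := by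
    refine tail_a (y := (19 / 20)) (Ty := (-47311 / 100000)) (by norm_num) (by norm_num) (by norm_num) (by norm_num)
      (by norm_num) (21 / 32) (-743 / 625) (by norm_num) (by norm_num) (by norm_num) (by norm_num) (by norm_num)
      (by norm_num) ?_ h2
    rintro _ _ _ _ rfl rfl rfl rfl; norm_num
  have h0 : Tail (psi (9 / 5) (8 / 5)) (Qf (9 / 5) (87 / 50) (13 / 10) (242 / 125)) (3133 / 2500) (1 / (9 / 5)) (-7 / 90000) := by
    refine tail_a (y := (7 / 10)) (Ty := (-17591 / 100000)) (by norm_num) (by norm_num) (by norm_num) (by norm_num)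
      (by norm_num) (3381 / 5000) (-12173 / 10000) (by norm_num) (by norm_num) (by norm_num) (by norm_num) (by norm_num)
      (by norm_num) ?_ h1
    rintro _ _ _ _ rfl rfl rfl rfl; norm_num
  exact h0

theorem tail8 : Tail (psi (9 / 4) (23 / 12)) (Qf (9 / 4) (7 / 5) (13 / 10) (67 / 20)) (16449 / 10000) (1 / (9 / 4)) (-1 / 18000) := by
  have h4 : Tail (psi (9 / 4) (23 / 12)) (Qf (9 / 4) (7 / 5) (13 / 10) (67 / 20)) (16449 / 10000) 3 (-316039 / 100000) := by
    refine tail_d (by norm_num) (by norm_num) (by norm_num) (by norm_num) (9221 / 100000) (-5421 / 5000) (by norm_num)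
      (by norm_num) (by norm_num) ?_
    rintro _ _ _ rfl rfl rfl; norm_num
  have h3 : Tail (psi (9 / 4) (23 / 12)) (Qf (9 / 4) (7 / 5) (13 / 10) (67 / 20)) (16449 / 10000) (8 / 5) (-138911 / 100000) := by
    refine tail_b (y := 3) (Ty := (-316039 / 100000)) (by norm_num) (by norm_num) (by norm_num) (by norm_num) (63521 / 100000) (-3163 / 2500)
      (by norm_num) (by norm_num) (by norm_num) (by norm_num) (by norm_num) (by norm_num) ?_ h4
    rintro _ _ _ _ rfl rfl rfl rfl; norm_num
  have h2 : Tail (psi (9 / 4) (23 / 12)) (Qf (9 / 4) (7 / 5) (13 / 10) (67 / 20)) (16449 / 10000) (13 / 10) (-2411 / 2500) := by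
    refine tail_b (y := (8 / 5)) (Ty := (-138911 / 100000)) (by norm_num) (by norm_num) (by norm_num) (by norm_num) (87601 / 100000) (-14157 / 10000)
      (by norm_num) (by norm_num) (by norm_num) (by norm_num) (by norm_num) (by norm_num) ?_ h3
    rintro _ _ _ _ rfl rfl rfl rfl; norm_num
  have h1 : Tail (psi (9 / 4) (23 / 12)) (Qf (9 / 4) (7 / 5) (13 / 10) (67 / 20)) (16449 / 10000) (4 / 5) (-4301 / 10000) := by
    refine tail_a (y := (13 / 10)) (Ty := (-2411 / 2500)) (by norm_num) (by norm_num) (by norm_num) (by norm_num)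
      (by norm_num) (21239 / 50000) (-5343 / 5000) (by norm_num) (by norm_num) (by norm_num) (by norm_num) (by norm_num)
      (by norm_num) ?_ h2
    rintro _ _ _ _ rfl rfl rfl rfl; norm_num
  have h0 : Tail (psi (9 / 4) (23 / 12)) (Qf (9 / 4) (7 / 5) (13 / 10) (67 / 20)) (16449 / 10000) (1 / (9 / 4)) (-1 / 18000) := by
    refine tail_a (y := (4 / 5)) (Ty := (-4301 / 10000)) (by norm_num) (by norm_num) (by norm_num) (by norm_num)
      (by norm_num) (43 / 80) (-2419 / 2000) (by norm_num) (by norm_num) (by norm_num) (by norm_num) (by norm_num)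
      (by norm_num) ?_ h1
    rintro _ _ _ _ rfl rfl rfl rfl; norm_num
  exact h0

end Pool.Agent.Helper80.Ram
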