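import Pool.Agent.Helper80.Ram.Low78
import Pool.Agent.Helper34.Ram.AUp

set_option autoImplicit false

/-!
# Upper bounds for `ℚ(√-7)` and `ℚ(√-2)`
-/

namespace Pool.Agent.Helper80.Ram

open Complex MeasureTheory Topology
open Pool.Agent.Helper10.Ram Pool.Agent.Helper99.Ram
open Pool.Agent.Helper34.Ram (dt dt_mem dt_comm generic final_step prim_spec)

/-! ### counting classes -/

section count

variable {α C : Type} [DecidableEq C]

/-- number of ordered pairs in the same class -/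
noncomputable def EE (T : Finset α) (cls : α → C) : ℝ :=
  ∑ v ∈ T, ∑ w ∈ T, if cls w = cls v then (1 : ℝ) else 0

theorem EE_eq (T : Finset α) (cls : α → C) (S : Finset C) (hmap : ∀ v ∈ T, cls v ∈ S) :
    EE T cls = ∑ k ∈ S, ((T.filter (fun w => cls w = k)).card : ℝ) ^ 2 := by
  unfold EE
  rw [← Finset.sum_fiberwise_of_maps_to (g := cls) (t := S) hmap]
  apply Finset.sum_congr rfl
  intro k _
  rw [Finset.sum_congr rfl (g := fun _ => ((T.filter (fun w => cls w = k)).card : ℝ))]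
  · rw [Finset.sum_const, nsmul_eq_mul, pow_two]
  · intro v hv
    rw [Finset.mem_filter] at hv
    rw [hv.2, Finset.sum_boole]

theorem card_eq_fib (T : Finset α) (cls : α → C) (S : Finset C) (hmap : ∀ v ∈ T, cls v ∈ S) :
    (T.card : ℝ) = ∑ k ∈ S, ((T.filter (fun w => cls w = k)).card : ℝ) := by
  have := Finset.card_eq_sum_card_fiberwise (f := cls) (s := T) (t := S) hmap
  exact_mod_cast this

theorem EE_cs (T : Finset α) (cls : α → C) (S : Finset C) (hmap : ∀ v ∈ T, cls v ∈ S) :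
    (T.card : ℝ) ^ 2 ≤ S.card * EE T cls := by
  rw [EE_eq T cls S hmap, card_eq_fib T cls S hmap]
  exact sq_sum_le_card_mul_sum_sq

theorem EE_t (T : Finset α) (cls : α → C) (S : Finset C) (hmap : ∀ v ∈ T, cls v ∈ S) (t : ℕ) :
    (2 * t + 1) * (T.card : ℝ) - t * (t + 1) * S.card ≤ EE T cls := by
  rw [EE_eq T cls S hmap, card_eq_fib T cls S hmap]
  have h1 : ∀ n : ℕ, (2 * t + 1) * (n : ℝ) - t * (t + 1) ≤ (n : ℝ) ^ 2 := by
    intro n
    have h2 : (0 : ℤ) ≤ ((n : ℤ) - t) * ((n : ℤ) - t - 1) := by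
      rcases le_or_gt (n : ℤ) t with h | h
      · exact mul_nonneg_of_nonpos_of_nonpos (by linarith) (by linarith)
      · exact mul_nonneg (by linarith) (by linarith)
    have h3 : (0 : ℝ) ≤ ((n : ℝ) - t) * ((n : ℝ) - t - 1) := by exact_mod_cast h2
    nlinarith
  have h2 := Finset.sum_le_sum (s := S) (fun k _ => h1 (T.filter (fun w => cls w = k)).card)
  rw [Finset.sum_sub_distrib, ← Finset.mul_sum, Finset.sum_const, nsmul_eq_mul] at h2
  linarith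

end count

theorem sum_diag {α : Type} [DecidableEq α] (T : Finset α) :
    ∑ v ∈ T, ∑ w ∈ T, (if v = w then (1 : ℝ) else 0) = T.card := by
  rw [Finset.sum_congr rfl (g := fun _ => (1 : ℝ))]
  · simp
  · intro v hv
    rw [Finset.sum_ite_eq, if_pos hv]

theorem sum_all {α : Type} (T : Finset α) :
    ∑ _v ∈ T, ∑ _w ∈ T, (1 : ℝ) = (T.card : ℝ) ^ 2 := by
  simp [pow_two]

/-! ### keys of vectors -/

open Classical in
/-- the key of a vector -/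
noncomputable def ky (τ : ℂ) (v : ℂ × ℂ) : Key :=
  if h : ∃ k : Key, v = tv τ k then h.choose else (0, 0, 0, 0)

theorem ky_spec {P : Par} {τ : ℂ} (h : QT P τ) {v : ℂ × ℂ} (hv : v ∈ Prim (intRing τ)) :
    v = tv τ (ky τ v) ∧ PrimZ P (ky τ v) := by
  obtain ⟨h1, h2, a, ha, b, hb, hab⟩ := prim_spec hv
  obtain ⟨c0, c1, e1⟩ := (h.mem _).1 h1
  obtain ⟨d0, d1, e2⟩ := (h.mem _).1 h2
  obtain ⟨a0, a1, rfl⟩ := (h.mem _).1 ha
  obtain ⟨b0, b1, rfl⟩ := (h.mem _).1 hb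
  have hex : ∃ k : Key, v = tv τ k := ⟨(c0, c1, d0, d1), Prod.ext e1 e2⟩
  have hk : v = tv τ (ky τ v) := by
    unfold ky
    rw [dif_pos hex]
    exact hex.choose_spec
  refine ⟨hk, ?_⟩
  set k := ky τ v
  refine ⟨a0, a1, b0, b1, ?_⟩
  have e3 : v.1 = k.1 + k.2.1 * τ := congrArg Prod.fst hk
  have e4 : v.2 = k.2.2.1 + k.2.2.2 * τ := congrArg Prod.snd hk
  rw [e3, e4] at hab
  have e5 : ((a0 * k.2.2.1 + P.w * a1 * k.2.2.2 - (b0 * k.1 + P.w * b1 * k.2.1) : ℤ) : ℂ) +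
      ((a0 * k.2.2.2 + a1 * k.2.2.1 + P.u * a1 * k.2.2.2
      - (b0 * k.2.1 + b1 * k.1 + P.u * b1 * k.2.1) : ℤ) : ℂ) * τ = ((1 : ℤ) : ℂ) + ((0 : ℤ) : ℂ) * τ := by
    push_cast
    linear_combination hab - ((a1 : ℂ) * k.2.2.2 - b1 * k.2.1) * h.sq
  exact h.inj e5

/-- first coordinate of the determinant -/
def dA (P : Par) (k l : Key) : ℤ :=
  k.1 * l.2.2.1 + P.w * k.2.1 * l.2.2.2 - (k.2.2.1 * l.1 + P.w * k.2.2.2 * l.2.1)
/-- second coordinate of the determinant -/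
def dB (P : Par) (k l : Key) : ℤ :=
  k.1 * l.2.2.2 + k.2.1 * l.2.2.1 + P.u * k.2.1 * l.2.2.2
    - (k.2.2.1 * l.2.1 + k.2.2.2 * l.1 + P.u * k.2.2.2 * l.2.1)

theorem dt_tv {P : Par} {τ : ℂ} (h : QT P τ) (k l : Key) :
    dt (tv τ k) (tv τ l) = dA P k l + dB P k l * τ := by
  unfold dt tv dA dB
  simp only
  push_cast
  linear_combination ((k.2.1 : ℂ) * l.2.2.2 - k.2.2.2 * l.2.1) * h.sq

theorem dt_norm {P : Par} {τ : ℂ} (h : QT P τ) {v w : ℂ × ℂ} (hv : v ∈ Prim (intRing τ))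
    (hw : w ∈ Prim (intRing τ)) :
    ‖dt v w‖ ^ 2 = ((nfZ P (dA P (ky τ v) (ky τ w)) (dB P (ky τ v) (ky τ w)) : ℤ) : ℝ) := by
  conv_lhs => rw [(ky_spec h hv).1, (ky_spec h hw).1]
  rw [dt_tv h, h.norm_sq_int]

theorem dt_ne {P : Par} {τ : ℂ} (h : QT P τ) {v w : ℂ × ℂ} (hv : v ∈ Prim (intRing τ))
    (hw : w ∈ Prim (intRing τ)) (h0 : dt v w ≠ 0) :
    ¬ (dA P (ky τ v) (ky τ w) = 0 ∧ dB P (ky τ v) (ky τ w) = 0) := by
  rintro ⟨h1, h2⟩
  apply h0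
  rw [(ky_spec h hv).1, (ky_spec h hw).1, dt_tv h, h1, h2]
  simp

theorem dt_self (v : ℂ × ℂ) : dt v v = 0 := by unfold dt; ring

/-- units -/
theorem units_gen {P : Par} {τ : ℂ} (h : QT P τ) (hP : ∀ a b : ℤ, nfZ P a b = 1 →
    (a = 1 ∨ a = -1) ∧ b = 0) : ∀ x ∈ intRing τ, ‖x‖ = 1 → x ∈ ({1, -1} : Finset ℂ) := by
  intro x hx h1
  obtain ⟨a, b, rfl⟩ := (h.mem x).1 hx
  have h2 := h.norm_sq_int a b
  rw [h1] at h2
  have h3 : nfZ P a b = 1 := by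
    have : ((nfZ P a b : ℤ) : ℝ) = ((1 : ℤ) : ℝ) := by rw [← h2]; norm_num
    exact_mod_cast this
  obtain ⟨ha, hb⟩ := hP a b h3
  subst hb
  rcases ha with rfl | rfl <;> simp

theorem units7 : ∀ a b : ℤ, nfZ P7 a b = 1 → (a = 1 ∨ a = -1) ∧ b = 0 := by
  intro a b h
  have h' : a * a + a * b + 2 * b * b = 1 := by
    have : nfZ P7 a b = a * a + a * b + 2 * b * b := by unfold nfZ P7; ring
    rw [← this, h]
  have hb1 : b ≤ 0 := by nlinarith [sq_nonneg (2 * a + b)]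
  have hb2 : 0 ≤ b := by nlinarith [sq_nonneg (2 * a + b)]
  have hb : b = 0 := le_antisymm hb1 hb2
  subst hb
  refine ⟨?_, rfl⟩
  have : (a - 1) * (a + 1) = 0 := by linarith
  rcases mul_eq_zero.1 this with h1 | h1
  · left; linarith
  · right; linarith

theorem units8 : ∀ a b : ℤ, nfZ P8 a b = 1 → (a = 1 ∨ a = -1) ∧ b = 0 := by
  intro a b h
  have h' : a * a + 2 * b * b = 1 := by
    have : nfZ P8 a b = a * a + 2 * b * b := by unfold nfZ P8; ring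
    rw [← this, h]
  have hb1 : b ≤ 0 := by nlinarith [sq_nonneg a]
  have hb2 : 0 ≤ b := by nlinarith [sq_nonneg a]
  have hb : b = 0 := le_antisymm hb1 hb2
  subst hb
  refine ⟨?_, rfl⟩
  have : (a - 1) * (a + 1) = 0 := by linarith
  rcases mul_eq_zero.1 this with h1 | h1
  · left; linarith
  · right; linarith

/-! ### classes for `ℚ(√-7)` -/

/-- nonzero vectors over `𝔽₂` -/
def S2 : Finset (ZMod 2 × ZMod 2) := Finset.univ.erase (0, 0)

theorem S2_card : S2.card = 3 := by decide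

/-- class modulo the first prime above `2` -/
def c7a (k : Key) : ZMod 2 × ZMod 2 := ((k.1 : ZMod 2), (k.2.2.1 : ZMod 2))
/-- class modulo the second prime above `2` -/
def c7b (k : Key) : ZMod 2 × ZMod 2 := ((k.1 + k.2.1 : ℤ), (k.2.2.1 + k.2.2.2 : ℤ))

theorem two_zero : (2 : ZMod 2) = 0 := by decide

theorem c7a_mem {k : Key} (h : PrimZ P7 k) : c7a k ∈ S2 := by
  obtain ⟨a0, a1, b0, b1, h1, h2⟩ := h
  unfold S2
  rw [Finset.mem_erase]
  refine ⟨?_, Finset.mem_univ _⟩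
  intro hc
  have e1 : (k.1 : ZMod 2) = 0 := congrArg Prod.fst hc
  have e2 : (k.2.2.1 : ZMod 2) = 0 := congrArg Prod.snd hc
  have h3 := congrArg (fun n : ℤ => (n : ZMod 2)) h1
  simp only [P7] at h3
  push_cast at h3
  rw [e1, e2, two_zero] at h3
  simp at h3

theorem c7b_mem {k : Key} (h : PrimZ P7 k) : c7b k ∈ S2 := by
  obtain ⟨a0, a1, b0, b1, h1, h2⟩ := h
  unfold S2
  rw [Finset.mem_erase]
  refine ⟨?_, Finset.mem_univ _⟩
  intro hc
  have e1 : ((k.1 + k.2.1 : ℤ) : ZMod 2) = 0 := congrArg Prod.fst hc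
  have e2 : ((k.2.2.1 + k.2.2.2 : ℤ) : ZMod 2) = 0 := congrArg Prod.snd hc
  have h3 := congrArg (fun n : ℤ => (n : ZMod 2)) h1
  have h4 := congrArg (fun n : ℤ => (n : ZMod 2)) h2
  simp only [P7] at h3 h4
  push_cast at h3 h4 e1 e2
  have h5 : (1 : ZMod 2) = 0 := by
    linear_combination -h3 - h4 + ((a0 : ZMod 2) + a1) * e2 - ((b0 : ZMod 2) + b1) * e1 +
      (-(a1 : ZMod 2) * k.2.2.2 + b1 * k.2.1) * two_zero
  exact absurd h5 (by decide)

theorem c7a_dt {k l : Key} (h : c7a k = c7a l) : (2 : ℤ) ∣ dA P7 k l := by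
  have e1 : (k.1 : ZMod 2) = l.1 := congrArg Prod.fst h
  have e2 : (k.2.2.1 : ZMod 2) = l.2.2.1 := congrArg Prod.snd h
  have h3 : ((2 : ℕ) : ℤ) ∣ dA P7 k l := by
    rw [← ZMod.intCast_zmod_eq_zero_iff_dvd]
    unfold dA P7
    push_cast
    linear_combination (l.2.2.1 : ZMod 2) * e1 - (l.1 : ZMod 2) * e2 +
      (-(k.2.1 : ZMod 2) * l.2.2.2 + k.2.2.2 * l.2.1) * two_zero
  exact h3

theorem c7b_dt {k l : Key} (h : c7b k = c7b l) : (2 : ℤ) ∣ dA P7 k l + dB P7 k l := by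
  have e1 : ((k.1 + k.2.1 : ℤ) : ZMod 2) = ((l.1 + l.2.1 : ℤ) : ZMod 2) := congrArg Prod.fst h
  have e2 : ((k.2.2.1 + k.2.2.2 : ℤ) : ZMod 2) = ((l.2.2.1 + l.2.2.2 : ℤ) : ZMod 2) :=
    congrArg Prod.snd h
  have h3 : ((2 : ℕ) : ℤ) ∣ dA P7 k l + dB P7 k l := by
    rw [← ZMod.intCast_zmod_eq_zero_iff_dvd]
    unfold dA dB P7
    push_cast at e1 e2 ⊢
    linear_combination ((l.2.2.1 : ZMod 2) + l.2.2.2) * e1 - ((l.1 : ZMod 2) + l.2.1) * e2 +
      (-(k.2.1 : ZMod 2) * l.2.2.2 + k.2.2.2 * l.2.1) * two_zero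
  exact h3

theorem nf7_ge {A B : ℤ} (h : ¬ (A = 0 ∧ B = 0)) :
    1 + (if (2 : ℤ) ∣ A then 1 else 0) + (if (2 : ℤ) ∣ A + B then 1 else 0) ≤ nfZ P7 A B := by
  have h1 : 1 ≤ nfZ P7 A B := nfZ_pos (by decide) h
  have e : nfZ P7 A B = A * A + A * B + 2 * B * B := by unfold nfZ P7; ring
  by_cases ha : (2 : ℤ) ∣ A
  · obtain ⟨m, rfl⟩ := ha
    by_cases hb : (2 : ℤ) ∣ 2 * m + B
    · have hb' : (2 : ℤ) ∣ B := by omega
      obtain ⟨n, rfl⟩ := hb'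
      have h2 : 1 ≤ nfZ P7 m n := by
        apply nfZ_pos (by decide)
        rintro ⟨rfl, rfl⟩
        exact h ⟨by simp, by simp⟩
      have e2 : nfZ P7 (2 * m) (2 * n) = 4 * nfZ P7 m n := by unfold nfZ; ring
      rw [e2]
      split_ifs <;> omega
    · rw [if_pos ⟨m, rfl⟩, if_neg hb]
      have e2 : nfZ P7 (2 * m) B = 2 * (2 * m * m + m * B + B * B) := by rw [e]; ring
      omega
  · rw [if_neg ha]
    by_cases hb : (2 : ℤ) ∣ A + B
    · obtain ⟨m, hm⟩ := hb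
      rw [if_pos ⟨m, hm⟩]
      have e2 : nfZ P7 A B = 2 * (A * m + B * B) := by
        rw [e]
        linear_combination A * hm
      omega
    · rw [if_neg hb]
      omega

theorem sum7 (T : Finset (ℂ × ℂ)) (hT : ∀ v ∈ T, v ∈ Prim (intRing tau7))
    (hTd : ∀ v ∈ T, ∀ w ∈ T, v ≠ w → dt v w ≠ 0) :
    5 / 3 * (T.card : ℝ) ^ 2 - 3 * T.card ≤ ∑ v ∈ T, ∑ w ∈ T, ‖dt v w‖ ^ 2 := by
  classical
  have m1 : ∀ v ∈ T, (c7a ∘ ky tau7) v ∈ S2 := fun v hv => c7a_mem (ky_spec qt7 (hT v hv)).2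
  have m2 : ∀ v ∈ T, (c7b ∘ ky tau7) v ∈ S2 := fun v hv => c7b_mem (ky_spec qt7 (hT v hv)).2
  have g1 := EE_cs T (c7a ∘ ky tau7) S2 m1
  have g2 := EE_cs T (c7b ∘ ky tau7) S2 m2
  rw [S2_card] at g1 g2
  have key : ∑ v ∈ T, ∑ w ∈ T, ((1 : ℝ) +
      (if (c7a ∘ ky tau7) w = (c7a ∘ ky tau7) v then (1 : ℝ) else 0) +
      (if (c7b ∘ ky tau7) w = (c7b ∘ ky tau7) v then (1 : ℝ) else 0) -
      3 * (if v = w then (1 : ℝ) else 0)) ≤ ∑ v ∈ T, ∑ w ∈ T, ‖dt v w‖ ^ 2 := by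
    apply Finset.sum_le_sum
    intro v hv
    apply Finset.sum_le_sum
    intro w hw
    by_cases hvw : v = w
    · subst hvw
      rw [dt_self]
      simp
      norm_num
    · rw [if_neg hvw, mul_zero, sub_zero, dt_norm qt7 (hT v hv) (hT w hw)]
      have hn := nf7_ge (dt_ne qt7 (hT v hv) (hT w hw) (hTd v hv w hw hvw))
      have hn' : (1 : ℝ) + (if (2 : ℤ) ∣ dA P7 (ky tau7 v) (ky tau7 w) then 1 else 0) +
          (if (2 : ℤ) ∣ dA P7 (ky tau7 v) (ky tau7 w) + dB P7 (ky tau7 v) (ky tau7 w)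
            then 1 else 0) ≤
          ((nfZ P7 (dA P7 (ky tau7 v) (ky tau7 w)) (dB P7 (ky tau7 v) (ky tau7 w)) : ℤ) : ℝ) := by
        exact_mod_cast hn
      refine le_trans ?_ hn'
      refine add_le_add (add_le_add le_rfl ?_) ?_
      · by_cases hc : (c7a ∘ ky tau7) w = (c7a ∘ ky tau7) v
        · rw [if_pos hc, if_pos (c7a_dt hc.symm)]
        · rw [if_neg hc]; split_ifs <;> norm_num
      · by_cases hc : (c7b ∘ ky tau7) w = (c7b ∘ ky tau7) v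
        · rw [if_pos hc, if_pos (c7b_dt hc.symm)]
        · rw [if_neg hc]; split_ifs <;> norm_num
  simp only [Finset.sum_sub_distrib, Finset.sum_add_distrib, ← Finset.mul_sum] at key
  rw [sum_all, sum_diag] at key
  change (T.card : ℝ) ^ 2 + EE T (c7a ∘ ky tau7) + EE T (c7b ∘ ky tau7) - 3 * T.card ≤ _ at key
  push_cast at g1 g2
  linarith

theorem sum_one (T : Finset (ℂ × ℂ)) {P : Par} {τ : ℂ} (h : QT P τ)
    (hT : ∀ v ∈ T, v ∈ Prim (intRing τ))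
    (hTd : ∀ v ∈ T, ∀ w ∈ T, v ≠ w → dt v w ≠ 0) :
    (T.card : ℝ) ^ 2 - T.card ≤ ∑ v ∈ T, ∑ w ∈ T, ‖dt v w‖ ^ 2 :=
  Pool.Agent.Helper34.Ram.sum_one_le T (fun v hv w hw hvw => h.disc _
      (dt_mem (hT v hv) (hT w hw)) (hTd v hv w hw hvw))

theorem upper_seven {m : ℝ} (hm : m ≤ 242 / 125) {p : Pt} (hp : p ∈ UH) :
    ∑' v : Prim (intRing tau7), ENNReal.ofReal (psi (9 / 5) m (1 / uval v p))
      ≤ ENNReal.ofReal (2 * (242 / 125)) := by
  refine (generic qt7.disc {1, -1} (units_gen qt7 units7) (9 / 5) m (242 / 125) p ?_).trans ?_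
  · intro T hT hTd
    apply final_step hp T hm (by norm_num)
    intro T' hT' hk
    have h1 := sum_one T' qt7 (fun v hv => hT v (hT' hv))
      (fun v hv w hw hvw => hTd v (hT' hv) w (hT' hw) hvw)
    have h2 := sum7 T' (fun v hv => hT v (hT' hv))
      (fun v hv w hw hvw => hTd v (hT' hv) w (hT' hw) hvw)
    rcases Nat.lt_or_ge T'.card 3 with h3 | h3
    · have h4 : T'.card = 2 := by omega
      rw [h4] at h1 ⊢
      push_cast at h1 ⊢
      nlinarith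
    · have h4 : (3 : ℝ) ≤ T'.card := by exact_mod_cast h3
      nlinarith
  · apply ENNReal.ofReal_le_ofReal
    have : ((({1, -1} : Finset ℂ)).card : ℝ) ≤ 2 := by exact_mod_cast Finset.card_le_two
    nlinarith

/-! ### classes for `ℚ(√-2)` -/

/-- points of the projective line over `𝔽₃` -/
def S3 : Finset (ZMod 3 × ZMod 3) := {(0, 1), (1, 0), (1, 1), (1, 2)}

theorem S3_card : S3.card = 4 := by decide

/-- normal form of a vector over `𝔽₃` up to sign -/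
def n3 (x y : ZMod 3) : ZMod 3 × ZMod 3 := if x = 0 then (0, 1) else (1, y * x)

theorem n3_mem : ∀ x y : ZMod 3, n3 x y ∈ S3 := by decide

theorem n3_eq : ∀ x y x' y' : ZMod 3, n3 x y = n3 x' y' →
    x * y' - y * x' = 0 := by decide

/-- points of the projective line over `ℤ[√-2]/2` -/
def S4 : Finset (ZMod 2 × ZMod 2 × ZMod 2 × ZMod 2) :=
  {(1, 0, 0, 0), (1, 0, 0, 1), (1, 0, 1, 0), (1, 0, 1, 1), (0, 0, 1, 0), (0, 1, 1, 0)}

theorem S4_card : S4.card = 6 := by decide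

/-- normal form of a vector over `ℤ[√-2]/2` up to units -/
def n4 (x0 x1 y0 y1 : ZMod 2) : ZMod 2 × ZMod 2 × ZMod 2 × ZMod 2 :=
  if x0 = 1 then (1, 0, y0, y1 + x1 * y0) else (0, x1, 1, 0)

theorem n4_mem : ∀ x0 x1 y0 y1 : ZMod 2, n4 x0 x1 y0 y1 ∈ S4 := by decide

theorem n4_eq : ∀ x0 x1 y0 y1 x0' x1' y0' y1' : ZMod 2, ¬ (x0 = 0 ∧ y0 = 0) →
    ¬ (x0' = 0 ∧ y0' = 0) → n4 x0 x1 y0 y1 = n4 x0' x1' y0' y1' →
    x0 * y0' - y0 * x0' = 0 ∧ x0 * y1' + x1 * y0' - (y0 * x1' + y1 * x0') = 0 := by decide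

/-- class modulo `√-2` -/
def c8a (k : Key) : ZMod 2 × ZMod 2 := ((k.1 : ZMod 2), (k.2.2.1 : ZMod 2))
/-- class modulo `1 + √-2` (where `√-2 = 1 mod 3`) -/
def c8b (k : Key) : ZMod 3 × ZMod 3 :=
  n3 ((k.1 + k.2.1 : ℤ) : ZMod 3) ((k.2.2.1 + k.2.2.2 : ℤ) : ZMod 3)
/-- class modulo `1 - √-2` -/
def c8c (k : Key) : ZMod 3 × ZMod 3 :=
  n3 ((k.1 - k.2.1 : ℤ) : ZMod 3) ((k.2.2.1 - k.2.2.2 : ℤ) : ZMod 3)
/-- class modulo `2` -/
def c8d (k : Key) : ZMod 2 × ZMod 2 × ZMod 2 × ZMod 2 :=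
  n4 (k.1 : ZMod 2) (k.2.1 : ZMod 2) (k.2.2.1 : ZMod 2) (k.2.2.2 : ZMod 2)

theorem prim8_ne {k : Key} (h : PrimZ P8 k) :
    ¬ ((k.1 : ZMod 2) = 0 ∧ (k.2.2.1 : ZMod 2) = 0) := by
  obtain ⟨a0, a1, b0, b1, h1, h2⟩ := h
  rintro ⟨e1, e2⟩
  have h3 := congrArg (fun n : ℤ => (n : ZMod 2)) h1
  simp only [P8] at h3
  push_cast at h3
  rw [e1, e2, two_zero] at h3
  simp at h3

theorem c8a_mem {k : Key} (h : PrimZ P8 k) : c8a k ∈ S2 := by
  unfold S2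
  rw [Finset.mem_erase]
  refine ⟨?_, Finset.mem_univ _⟩
  intro hc
  exact prim8_ne h ⟨congrArg Prod.fst hc, congrArg Prod.snd hc⟩

theorem c8a_dt {k l : Key} (h : c8a k = c8a l) : (2 : ℤ) ∣ dA P8 k l := by
  have e1 : (k.1 : ZMod 2) = l.1 := congrArg Prod.fst h
  have e2 : (k.2.2.1 : ZMod 2) = l.2.2.1 := congrArg Prod.snd h
  have h3 : ((2 : ℕ) : ℤ) ∣ dA P8 k l := by
    rw [← ZMod.intCast_zmod_eq_zero_iff_dvd]
    unfold dA P8
    push_cast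
    linear_combination (l.2.2.1 : ZMod 2) * e1 - (l.1 : ZMod 2) * e2 +
      (-(k.2.1 : ZMod 2) * l.2.2.2 + k.2.2.2 * l.2.1) * two_zero
  exact h3

theorem three_zero : (3 : ZMod 3) = 0 := by decide

theorem c8b_dt {k l : Key} (h : c8b k = c8b l) : (3 : ℤ) ∣ dA P8 k l + dB P8 k l := by
  have e := n3_eq _ _ _ _ h
  have h3 : ((3 : ℕ) : ℤ) ∣ dA P8 k l + dB P8 k l := by
    rw [← ZMod.intCast_zmod_eq_zero_iff_dvd]
    unfold dA dB P8
    push_cast at e ⊢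
    linear_combination e + (-(k.2.1 : ZMod 3) * l.2.2.2 + k.2.2.2 * l.2.1) * three_zero
  exact h3

theorem c8c_dt {k l : Key} (h : c8c k = c8c l) : (3 : ℤ) ∣ dA P8 k l - dB P8 k l := by
  have e := n3_eq _ _ _ _ h
  have h3 : ((3 : ℕ) : ℤ) ∣ dA P8 k l - dB P8 k l := by
    rw [← ZMod.intCast_zmod_eq_zero_iff_dvd]
    unfold dA dB P8
    push_cast at e ⊢
    linear_combination e + (-(k.2.1 : ZMod 3) * l.2.2.2 + k.2.2.2 * l.2.1) * three_zero
  exact h3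

theorem c8d_dt {k l : Key} (hk : PrimZ P8 k) (hl : PrimZ P8 l) (h : c8d k = c8d l) :
    (2 : ℤ) ∣ dA P8 k l ∧ (2 : ℤ) ∣ dB P8 k l := by
  obtain ⟨e1, e2⟩ := n4_eq _ _ _ _ _ _ _ _ (prim8_ne hk) (prim8_ne hl) h
  have h3 : ((2 : ℕ) : ℤ) ∣ dA P8 k l := by
    rw [← ZMod.intCast_zmod_eq_zero_iff_dvd]
    unfold dA P8
    push_cast
    linear_combination e1 + (-(k.2.1 : ZMod 2) * l.2.2.2 + k.2.2.2 * l.2.1) * two_zero
  have h4 : ((2 : ℕ) : ℤ) ∣ dB P8 k l := by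
    rw [← ZMod.intCast_zmod_eq_zero_iff_dvd]
    unfold dB P8
    push_cast
    linear_combination e2
  exact ⟨h3, h4⟩

theorem nf8_ge {A B : ℤ} (h : ¬ (A = 0 ∧ B = 0)) :
    1 + (if (2 : ℤ) ∣ A then 1 else 0) + 2 * (if (3 : ℤ) ∣ A + B then 1 else 0) +
      2 * (if (3 : ℤ) ∣ A - B then 1 else 0) + 2 * (if (2 : ℤ) ∣ A ∧ (2 : ℤ) ∣ B then 1 else 0)
      ≤ nfZ P8 A B := by
  have e : nfZ P8 A B = A * A + 2 * (B * B) := by unfold nfZ P8; ring
  rw [e]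
  by_cases h8 : 8 ≤ A * A + 2 * (B * B)
  · split_ifs <;> omega
  · have hA1 : A ≤ 2 := by nlinarith [mul_self_nonneg B]
    have hA2 : -2 ≤ A := by nlinarith [mul_self_nonneg B]
    have hB1 : B ≤ 1 := by nlinarith [mul_self_nonneg A]
    have hB2 : -1 ≤ B := by nlinarith [mul_self_nonneg A]
    interval_cases A <;> interval_cases B <;> first | (exfalso; exact h ⟨rfl, rfl⟩) | decide

theorem sum8 (T : Finset (ℂ × ℂ)) (hT : ∀ v ∈ T, v ∈ Prim (intRing tau8))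
    (hTd : ∀ v ∈ T, ∀ w ∈ T, v ≠ w → dt v w ≠ 0) :
    (T.card : ℝ) ^ 2 + EE T (c8a ∘ ky tau8) + 2 * EE T (c8b ∘ ky tau8) +
      2 * EE T (c8c ∘ ky tau8) + 2 * EE T (c8d ∘ ky tau8) - 8 * T.card
      ≤ ∑ v ∈ T, ∑ w ∈ T, ‖dt v w‖ ^ 2 := by
  classical
  have key : ∑ v ∈ T, ∑ w ∈ T, ((1 : ℝ) +
      (if (c8a ∘ ky tau8) w = (c8a ∘ ky tau8) v then (1 : ℝ) else 0) +
      2 * (if (c8b ∘ ky tau8) w = (c8b ∘ ky tau8) v then (1 : ℝ) else 0) +
      2 * (if (c8c ∘ ky tau8) w = (c8c ∘ ky tau8) v then (1 : ℝ) else 0) +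
      2 * (if (c8d ∘ ky tau8) w = (c8d ∘ ky tau8) v then (1 : ℝ) else 0) -
      8 * (if v = w then (1 : ℝ) else 0)) ≤ ∑ v ∈ T, ∑ w ∈ T, ‖dt v w‖ ^ 2 := by
    apply Finset.sum_le_sum
    intro v hv
    apply Finset.sum_le_sum
    intro w hw
    by_cases hvw : v = w
    · subst hvw
      rw [dt_self]
      simp
      norm_num
    · rw [if_neg hvw, mul_zero, sub_zero, dt_norm qt8 (hT v hv) (hT w hw)]
      set A := dA P8 (ky tau8 v) (ky tau8 w) with hA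
      set B := dB P8 (ky tau8 v) (ky tau8 w) with hB
      have hn := nf8_ge (dt_ne qt8 (hT v hv) (hT w hw) (hTd v hv w hw hvw))
      rw [← hA, ← hB] at hn
      have hn' : (1 : ℝ) + (if (2 : ℤ) ∣ A then 1 else 0) +
          2 * (if (3 : ℤ) ∣ A + B then 1 else 0) + 2 * (if (3 : ℤ) ∣ A - B then 1 else 0) +
          2 * (if (2 : ℤ) ∣ A ∧ (2 : ℤ) ∣ B then 1 else 0) ≤ ((nfZ P8 A B : ℤ) : ℝ) := by
        exact_mod_cast hn
      refine le_trans ?_ hn'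
      have b1 : (if (c8a ∘ ky tau8) w = (c8a ∘ ky tau8) v then (1 : ℝ) else 0) ≤
          (if (2 : ℤ) ∣ A then 1 else 0) := by
        by_cases hc : (c8a ∘ ky tau8) w = (c8a ∘ ky tau8) v
        · rw [if_pos hc, if_pos (c8a_dt hc.symm)]
        · rw [if_neg hc]; split_ifs <;> norm_num
      have b2 : (if (c8b ∘ ky tau8) w = (c8b ∘ ky tau8) v then (1 : ℝ) else 0) ≤
          (if (3 : ℤ) ∣ A + B then 1 else 0) := by
        by_cases hc : (c8b ∘ ky tau8) w = (c8b ∘ ky tau8) v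
        · rw [if_pos hc, if_pos (c8b_dt hc.symm)]
        · rw [if_neg hc]; split_ifs <;> norm_num
      have b3 : (if (c8c ∘ ky tau8) w = (c8c ∘ ky tau8) v then (1 : ℝ) else 0) ≤
          (if (3 : ℤ) ∣ A - B then 1 else 0) := by
        by_cases hc : (c8c ∘ ky tau8) w = (c8c ∘ ky tau8) v
        · rw [if_pos hc, if_pos (c8c_dt hc.symm)]
        · rw [if_neg hc]; split_ifs <;> norm_num
      have b4 : (if (c8d ∘ ky tau8) w = (c8d ∘ ky tau8) v then (1 : ℝ) else 0) ≤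
          (if (2 : ℤ) ∣ A ∧ (2 : ℤ) ∣ B then 1 else 0) := by
        by_cases hc : (c8d ∘ ky tau8) w = (c8d ∘ ky tau8) v
        · rw [if_pos hc, if_pos (c8d_dt (ky_spec qt8 (hT v hv)).2 (ky_spec qt8 (hT w hw)).2
            hc.symm)]
        · rw [if_neg hc]; split_ifs <;> norm_num
      linarith
  simp only [Finset.sum_sub_distrib, Finset.sum_add_distrib, ← Finset.mul_sum] at key
  rw [sum_all, sum_diag] at key
  exact key

/-- three elements with sum zero -/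
theorem three_aux {x y z : ℂ} (hy : y ∈ intRing tau8) (hz : z ∈ intRing tau8)
    (h0 : x ≠ 0) (hs : x + y + z = 0) (h1 : ‖y‖ ^ 2 = 1) (h2 : ‖z‖ ^ 2 = 1)
    (h3 : ‖x‖ ^ 2 ≤ 2) : False := by
  have n1 : ∀ t : ℂ, ‖t‖ ^ 2 = 1 → ‖t‖ = 1 := fun t ht =>
    (pow_eq_one_iff_of_nonneg (norm_nonneg _) two_ne_zero).1 ht
  have u1 := units_gen qt8 units8 y hy (n1 y h1)
  have u2 := units_gen qt8 units8 z hz (n1 z h2)
  simp only [Finset.mem_insert, Finset.mem_singleton] at u1 u2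
  have hx : x = -y - z := by linear_combination hs
  rcases u1 with rfl | rfl <;> rcases u2 with rfl | rfl
  · rw [hx] at h3; norm_num at h3
  · apply h0; rw [hx]; ring
  · apply h0; rw [hx]; ring
  · rw [hx] at h3; norm_num at h3

theorem dt_norm_int {v w : ℂ × ℂ} (hv : v ∈ Prim (intRing tau8))
    (hw : w ∈ Prim (intRing tau8)) (h0 : dt v w ≠ 0) :
    ∃ n : ℕ, 1 ≤ n ∧ ‖dt v w‖ ^ 2 = n := by
  have h1 := dt_norm qt8 hv hw
  have h2 := nfZ_pos (P := P8) (by decide) (dt_ne qt8 hv hw h0)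
  refine ⟨(nfZ P8 (dA P8 (ky tau8 v) (ky tau8 w)) (dB P8 (ky tau8 v) (ky tau8 w))).toNat,
    by omega, ?_⟩
  rw [h1]
  have h3 : (((nfZ P8 (dA P8 (ky tau8 v) (ky tau8 w)) (dB P8 (ky tau8 v) (ky tau8 w))).toNat : ℤ))
      = nfZ P8 (dA P8 (ky tau8 v) (ky tau8 w)) (dB P8 (ky tau8 v) (ky tau8 w)) :=
    Int.toNat_of_nonneg (by linarith)
  exact_mod_cast h3.symm

/-- four rows -/
theorem four_rows (T : Finset (ℂ × ℂ)) (hT : ∀ v ∈ T, v ∈ Prim (intRing tau8))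
    (hTd : ∀ v ∈ T, ∀ w ∈ T, v ≠ w → dt v w ≠ 0) (hc : T.card = 4) :
    16 ≤ ∑ v ∈ T, ∑ w ∈ T, ‖dt v w‖ ^ 2 := by
  classical
  obtain ⟨a, T', ha, rfl, hc'⟩ := Finset.card_eq_succ.1 hc
  obtain ⟨b, c, d, hbc, hbd, hcd, rfl⟩ := Finset.card_eq_three.1 hc'
  simp only [Finset.mem_insert, Finset.mem_singleton, not_or] at ha
  obtain ⟨hab, hac, had⟩ := ha
  have ma : a ∈ insert a ({b, c, d} : Finset (ℂ × ℂ)) := by simp
  have mb : b ∈ insert a ({b, c, d} : Finset (ℂ × ℂ)) := by simp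
  have mc : c ∈ insert a ({b, c, d} : Finset (ℂ × ℂ)) := by simp
  have md : d ∈ insert a ({b, c, d} : Finset (ℂ × ℂ)) := by simp
  obtain ⟨n1, p1, e1⟩ := dt_norm_int (hT a ma) (hT b mb) (hTd a ma b mb hab)
  obtain ⟨n2, p2, e2⟩ := dt_norm_int (hT c mc) (hT d md) (hTd c mc d md hcd)
  obtain ⟨n3, p3, e3⟩ := dt_norm_int (hT a ma) (hT c mc) (hTd a ma c mc hac)
  obtain ⟨n4, p4, e4⟩ := dt_norm_int (hT b mb) (hT d md) (hTd b mb d md hbd)
  obtain ⟨n5, p5, e5⟩ := dt_norm_int (hT a ma) (hT d md) (hTd a ma d md had)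
  obtain ⟨n6, p6, e6⟩ := dt_norm_int (hT b mb) (hT c mc) (hTd b mb c mc hbc)
  have sw : ∀ v w : ℂ × ℂ, ‖dt v w‖ ^ 2 = ‖dt w v‖ ^ 2 := by
    intro v w
    rw [dt_comm, norm_neg]
  have hsum : ∑ v ∈ insert a ({b, c, d} : Finset (ℂ × ℂ)),
      ∑ w ∈ insert a ({b, c, d} : Finset (ℂ × ℂ)), ‖dt v w‖ ^ 2 =
      2 * (n1 + n2 + n3 + n4 + n5 + n6) := by
    have k1 : a ∉ ({b, c, d} : Finset (ℂ × ℂ)) := by
      simp only [Finset.mem_insert, Finset.mem_singleton, not_or]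
      exact ⟨hab, hac, had⟩
    have k2 : b ∉ ({c, d} : Finset (ℂ × ℂ)) := by
      simp only [Finset.mem_insert, Finset.mem_singleton, not_or]
      exact ⟨hbc, hbd⟩
    have k3 : c ∉ ({d} : Finset (ℂ × ℂ)) := by
      simp only [Finset.mem_singleton]
      exact hcd
    simp only [Finset.sum_insert k1, Finset.sum_insert k2, Finset.sum_insert k3,
      Finset.sum_singleton, dt_self, norm_zero]
    rw [sw b a, sw c a, sw d a, sw c b, sw d b, sw d c, e1, e2, e3, e4, e5, e6]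
    ring
  rw [hsum]
  by_contra hcon
  have hlt : n1 + n2 + n3 + n4 + n5 + n6 ≤ 7 := by
    have : (2 * (n1 + n2 + n3 + n4 + n5 + n6) : ℝ) < 16 := not_le.1 hcon
    have h2 : 2 * (n1 + n2 + n3 + n4 + n5 + n6) < 16 := by exact_mod_cast this
    omega
  -- Plücker
  have pl : dt a b * dt c d - dt a c * dt b d + dt a d * dt b c = 0 := by
    unfold dt; ring
  have mm : ∀ v ∈ insert a ({b, c, d} : Finset (ℂ × ℂ)),
      ∀ w ∈ insert a ({b, c, d} : Finset (ℂ × ℂ)), dt v w ∈ intRing tau8 :=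
    fun v hv w hw => dt_mem (hT v hv) (hT w hw)
  have q1 : ‖dt a b * dt c d‖ ^ 2 = (n1 * n2 : ℕ) := by
    rw [norm_mul, mul_pow, e1, e2]; push_cast; ring
  have q2 : ‖-(dt a c * dt b d)‖ ^ 2 = (n3 * n4 : ℕ) := by
    rw [norm_neg, norm_mul, mul_pow, e3, e4]; push_cast; ring
  have q3 : ‖dt a d * dt b c‖ ^ 2 = (n5 * n6 : ℕ) := by
    rw [norm_mul, mul_pow, e5, e6]; push_cast; ring
  have z1 : dt a b * dt c d ≠ 0 := mul_ne_zero (hTd a ma b mb hab) (hTd c mc d md hcd)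
  have z2 : -(dt a c * dt b d) ≠ 0 :=
    neg_ne_zero.2 (mul_ne_zero (hTd a ma c mc hac) (hTd b mb d md hbd))
  have z3 : dt a d * dt b c ≠ 0 := mul_ne_zero (hTd a ma d md had) (hTd b mb c mc hbc)
  have i1 : dt a b * dt c d ∈ intRing tau8 := mul_mem (mm a ma b mb) (mm c mc d md)
  have i2 : -(dt a c * dt b d) ∈ intRing tau8 := neg_mem (mul_mem (mm a ma c mc) (mm b mb d md))
  have i3 : dt a d * dt b c ∈ intRing tau8 := mul_mem (mm a ma d md) (mm b mb c mc)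
  have hcases : (n3 = 1 ∧ n4 = 1 ∧ n5 = 1 ∧ n6 = 1 ∧ n1 + n2 ≤ 3) ∨
      (n1 = 1 ∧ n2 = 1 ∧ n5 = 1 ∧ n6 = 1 ∧ n3 + n4 ≤ 3) ∨
      (n1 = 1 ∧ n2 = 1 ∧ n3 = 1 ∧ n4 = 1 ∧ n5 + n6 ≤ 3) := by omega
  have small : ∀ x y : ℕ, 1 ≤ x → 1 ≤ y → x + y ≤ 3 → x * y ≤ 2 := by
    intro x y hx hy hxy
    have hx2 : x ≤ 2 := by omega
    have hy2 : y ≤ 2 := by omega
    interval_cases x <;> interval_cases y <;> omega
  rcases hcases with ⟨r1, r2, r3, r4, r5⟩ | ⟨r1, r2, r3, r4, r5⟩ | ⟨r1, r2, r3, r4, r5⟩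
  · refine three_aux (x := dt a b * dt c d) i2 i3 z1 (by linear_combination pl) ?_ ?_ ?_
    · rw [q2, r1, r2]; norm_num
    · rw [q3, r3, r4]; norm_num
    · rw [q1]; exact_mod_cast small n1 n2 p1 p2 r5
  · refine three_aux (x := -(dt a c * dt b d)) i1 i3 z2 (by linear_combination pl) ?_ ?_ ?_
    · rw [q1, r1, r2]; norm_num
    · rw [q3, r3, r4]; norm_num
    · rw [q2]; exact_mod_cast small n3 n4 p3 p4 r5
  · refine three_aux (x := dt a d * dt b c) i1 i2 z3 (by linear_combination pl) ?_ ?_ ?_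
    · rw [q1, r1, r2]; norm_num
    · rw [q2, r3, r4]; norm_num
    · rw [q3]; exact_mod_cast small n5 n6 p5 p6 r5

theorem upper_eight {m : ℝ} (hm : m ≤ 67 / 20) {p : Pt} (hp : p ∈ UH) :
    ∑' v : Prim (intRing tau8), ENNReal.ofReal (psi (9 / 4) m (1 / uval v p))
      ≤ ENNReal.ofReal (2 * (67 / 20)) := by
  refine (generic qt8.disc {1, -1} (units_gen qt8 units8) (9 / 4) m (67 / 20) p ?_).trans ?_
  · intro T hT hTd
    apply final_step hp T hm (by norm_num)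
    intro T' hT' hk
    have hT2 : ∀ v ∈ T', v ∈ Prim (intRing tau8) := fun v hv => hT v (hT' hv)
    have hTd2 : ∀ v ∈ T', ∀ w ∈ T', v ≠ w → dt v w ≠ 0 :=
      fun v hv w hw hvw => hTd v (hT' hv) w (hT' hw) hvw
    have h1 := sum_one T' qt8 hT2 hTd2
    have h2 := sum8 T' hT2 hTd2
    have ma : ∀ v ∈ T', (c8a ∘ ky tau8) v ∈ S2 := fun v hv => c8a_mem (ky_spec qt8 (hT2 v hv)).2
    have mb : ∀ v ∈ T', (c8b ∘ ky tau8) v ∈ S3 := fun v _ => n3_mem _ _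
    have mc : ∀ v ∈ T', (c8c ∘ ky tau8) v ∈ S3 := fun v _ => n3_mem _ _
    have md : ∀ v ∈ T', (c8d ∘ ky tau8) v ∈ S4 := fun v _ => n4_mem _ _ _ _
    rcases Nat.lt_or_ge T'.card 9 with h9 | h9
    · have ta := fun t => EE_t T' (c8a ∘ ky tau8) S2 ma t
      have tb := fun t => EE_t T' (c8b ∘ ky tau8) S3 mb t
      have tc := fun t => EE_t T' (c8c ∘ ky tau8) S3 mc t
      have td := fun t => EE_t T' (c8d ∘ ky tau8) S4 md t
      simp only [S2_card, S3_card, S4_card] at ta tb tc td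
      have hcases : T'.card = 2 ∨ T'.card = 3 ∨ T'.card = 4 ∨ T'.card = 5 ∨ T'.card = 6 ∨
          T'.card = 7 ∨ T'.card = 8 := by omega
      have h4 := four_rows T' hT2 hTd2
      rcases hcases with hk | hk | hk | hk | hk | hk | hk
      · rw [hk] at h1 ⊢
        push_cast at h1 ⊢
        nlinarith
      · rw [hk] at h1 ⊢
        push_cast at h1 ⊢
        nlinarith
      · have h5 := h4 hk
        rw [hk]
        push_cast
        nlinarith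
      · have a1 := ta 1
        have b1 := tb 1
        have c1 := tc 1
        have d1 := td 0
        rw [hk] at h2 a1 b1 c1 d1 ⊢
        push_cast at h2 a1 b1 c1 d1 ⊢
        nlinarith
      · have a1 := ta 1
        have b1 := tb 1
        have c1 := tc 1
        have d1 := td 0
        rw [hk] at h2 a1 b1 c1 d1 ⊢
        push_cast at h2 a1 b1 c1 d1 ⊢
        nlinarith
      · have a1 := ta 2
        have b1 := tb 1
        have c1 := tc 1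
        have d1 := td 1
        rw [hk] at h2 a1 b1 c1 d1 ⊢
        push_cast at h2 a1 b1 c1 d1 ⊢
        nlinarith
      · have a1 := ta 2
        have b1 := tb 1
        have c1 := tc 1
        have d1 := td 1
        rw [hk] at h2 a1 b1 c1 d1 ⊢
        push_cast at h2 a1 b1 c1 d1 ⊢
        nlinarith
    · have g1 := EE_cs T' (c8a ∘ ky tau8) S2 ma
      have g2 := EE_cs T' (c8b ∘ ky tau8) S3 mb
      have g3 := EE_cs T' (c8c ∘ ky tau8) S3 mc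
      have g4 := EE_cs T' (c8d ∘ ky tau8) S4 md
      rw [S2_card] at g1
      rw [S3_card] at g2 g3
      rw [S4_card] at g4
      push_cast at g1 g2 g3 g4
      have h10 : (9 : ℝ) ≤ T'.card := by exact_mod_cast h9
      set k : ℝ := (T'.card : ℝ)
      have h11 : 8 / 3 * k ^ 2 - 8 * k ≤ ∑ v ∈ T', ∑ w ∈ T', ‖dt v w‖ ^ 2 := by linarith
      nlinarith
  · apply ENNReal.ofReal_le_ofReal
    have : ((({1, -1} : Finset ℂ)).card : ℝ) ≤ 2 := by exact_mod_cast Finset.card_le_two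
    nlinarith

end Pool.Agent.Helper80.Ram
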