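import Pool.Agent.Helper44.RamW

set_option autoImplicit false

/-!
# Wirtinger inequality on flat tori `ℂ / ν (ℤ + ℤ τ)` with `1 ≤ (Im τ)²`
-/

namespace Pool.Agent.Helper80.Ram

open Pool.Agent.Helper10.Ram Pool.Agent.Helper44.Ram
open Complex MeasureTheory Topology

/-- differentiation under the integral sign -/
theorem hasDerivAt_mean {G Gt : ℝ → ℝ → ℂ} (hG : Continuous (Function.uncurry G))
    (hGt : Continuous (Function.uncurry Gt))
    (ht : ∀ s t, HasDerivAt (fun t => G s t) (Gt s t) t) (t : ℝ) :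
    HasDerivAt (fun t => ∫ s, G s t ∂mu) (∫ s, Gt s t ∂mu) t := by
  obtain ⟨C, hC⟩ := ((isCompact_Icc (a := (0:ℝ)) (b := 1)).prod
    (isCompact_Icc (a := t - 1) (b := t + 1))).exists_bound_of_continuousOn
      (f := Function.uncurry Gt) hGt.continuousOn
  have h := hasDerivAt_integral_of_dominated_loc_of_deriv_le (μ := mu) (𝕜 := ℝ)
    (F := fun t s => G s t) (F' := fun t s => Gt s t) (x₀ := t) (bound := fun _ => C)
    (s := Metric.ball t 1) (Metric.ball_mem_nhds t one_pos)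
    (Filter.Eventually.of_forall fun y => (cfix2 hG y).aestronglyMeasurable)
    (ic (cfix2 hG t)) (cfix2 hGt t).aestronglyMeasurable ?_ (ic continuous_const) ?_
  · exact h.2
  · filter_upwards [ae_restrict_mem measurableSet_Icc] with s hs
    intro y hy
    rw [Real.ball_eq_Ioo] at hy
    exact hC (s, y) ⟨hs, hy.1.le, hy.2.le⟩
  · filter_upwards with s
    intro y _
    exact ht s y

theorem norm_mean_sq_le {h : ℝ → ℂ} (hh : Continuous h) :
    ‖∫ y, h y ∂mu‖ ^ 2 ≤ ∫ x, ‖h x‖ ^ 2 ∂mu := by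
  rw [var1 hh]
  have : 0 ≤ ∫ x, ‖h x - ∫ y, h y ∂mu‖ ^ 2 ∂mu := integral_nonneg fun s => by positivity
  linarith

/-- torus inequality -/
theorem torusR {G Gs Gt Gn : ℝ → ℝ → ℂ} (hG : Continuous (Function.uncurry G))
    (hGs : Continuous (Function.uncurry Gs)) (hGt : Continuous (Function.uncurry Gt))
    (hGn : Continuous (Function.uncurry Gn))
    (hs : ∀ s t, HasDerivAt (fun s => G s t) (Gs s t) s)
    (ht : ∀ s t, HasDerivAt (fun t => G s t) (Gt s t) t)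
    (hp1 : ∀ s t, G (s + 1) t = G s t) (hp2 : ∀ s t, G s (t + 1) = G s t)
    (hm : ∫ s, ∫ t, G s t ∂mu ∂mu = 0) {α β : ℝ} (hβ : 1 ≤ β ^ 2)
    (hdec : ∀ s t, Gt s t = α * Gs s t + β * Gn s t) :
    4 * Real.pi ^ 2 * ∫ s, ∫ t, ‖G s t‖ ^ 2 ∂mu ∂mu ≤
      β ^ 2 * (∫ s, ∫ t, ‖Gs s t‖ ^ 2 ∂mu ∂mu + ∫ s, ∫ t, ‖Gn s t‖ ^ 2 ∂mu ∂mu) := by
  have h2 := wirt2 (cflip hG) (cflip hGs) (fun t s => hs s t) (fun x => by simpa using hp1 0 x)
  have h4 := swap (cnorm hG)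
  have h5 := swap (cnorm hGs)
  have h6 := swap (cnorm hGn)
  rw [← h4, ← h5] at h2
  set A : ℝ → ℂ := fun t => ∫ s, G s t ∂mu with hA
  have hAd : ∀ t, HasDerivAt A (∫ s, Gt s t ∂mu) t := fun t => hasDerivAt_mean hG hGt ht t
  have hAc : Continuous (fun t => ∫ s, Gt s t ∂mu) := cpar (cflip hGt)
  have h3 := wirt1 hAd hAc (by
    simp only [hA]
    congr 1
    funext s
    simpa using hp2 s 0)
  have hA0 : ∫ t, A t ∂mu = 0 := by
    have := swap hG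
    rw [hm] at this
    exact this.symm
  rw [hA0, norm_zero] at h3
  have hGs0 : ∀ t, ∫ s, Gs s t ∂mu = 0 := by
    intro t
    rw [int_mu, intervalIntegral.integral_eq_sub_of_hasDerivAt (fun s _ => hs s t)
      ((cfix2 hGs t).intervalIntegrable 0 1)]
    have := hp1 0 t
    rw [zero_add] at this
    rw [this, sub_self]
  have h7 : ∀ t, ‖∫ s, Gt s t ∂mu‖ ^ 2 ≤ β ^ 2 * ∫ s, ‖Gn s t‖ ^ 2 ∂mu := by
    intro t
    have e : ∫ s, Gt s t ∂mu = β * ∫ s, Gn s t ∂mu := by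
      simp_rw [hdec]
      have i1 : Integrable (fun s => (α : ℂ) * Gs s t) mu :=
        ic (continuous_const.mul (cfix2 hGs t))
      have i2 : Integrable (fun s => (β : ℂ) * Gn s t) mu :=
        ic (continuous_const.mul (cfix2 hGn t))
      have e5 : ∫ s, ((α : ℂ) * Gs s t + (β : ℂ) * Gn s t) ∂mu =
          ∫ s, (α : ℂ) * Gs s t ∂mu + ∫ s, (β : ℂ) * Gn s t ∂mu := integral_add i1 i2
      rw [e5, integral_const_mul, integral_const_mul, hGs0, mul_zero, zero_add]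
    rw [e, norm_mul, mul_pow, Complex.norm_real, Real.norm_eq_abs, sq_abs]
    exact mul_le_mul_of_nonneg_left (norm_mean_sq_le (cfix2 hGn t)) (by positivity)
  have h8 : ∫ t, ‖∫ s, Gt s t ∂mu‖ ^ 2 ∂mu ≤ β ^ 2 * ∫ s, ∫ t, ‖Gn s t‖ ^ 2 ∂mu ∂mu := by
    rw [h6, ← integral_const_mul]
    exact integral_mono (ic (by fun_prop)) (ic (continuous_const.mul (cpar (cnorm (cflip hGn)))))
      h7
  have h9 : 0 ≤ ∫ s, ∫ t, ‖Gs s t‖ ^ 2 ∂mu ∂mu :=
    integral_nonneg fun s => integral_nonneg fun t => by positivity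
  nlinarith

/-- the Wirtinger inequality for `ν (ℤ + ℤ τ)` -/
theorem wirtinger_gen {τ : ℂ} (hτ : 1 ≤ τ.im ^ 2) {ν : ℂ} (hν0 : ν ≠ 0) {u : Pt → ℂ}
    (hu : ContDiffOn ℝ 1 u UH)
    (hper : ∀ x ∈ intRing τ, ∀ p ∈ UH, u (p.1 + ν * x, p.2) = u p) {r : ℝ} (hr : 0 < r)
    (hmean : ∫ s in (0 : ℝ)..1, ∫ t in (0 : ℝ)..1, u (ν * (s + t * τ), r) = 0) :
    ENNReal.ofReal (4 * Real.pi ^ 2 / (τ.im ^ 2 * ‖ν‖ ^ 2)) *
        cellInt τ ν (fun p => ENNReal.ofReal (‖u p‖ ^ 2)) r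
      ≤ cellInt τ ν (fun p => ENNReal.ofReal (‖pd e1 u p‖ ^ 2 + ‖pd e2 u p‖ ^ 2)) r := by
  have hν : 0 < ‖ν‖ ^ 2 := by positivity
  have hτ0 : 0 < τ.im ^ 2 := by linarith
  have c0 := u_cont hu hr (ν := ν) (τ := τ)
  have c1 := du_cont hu hr (ν := ν) (τ := τ) (ν, 0)
  have c2 := du_cont hu hr (ν := ν) (τ := τ) (ν * τ, 0)
  have cn := du_cont hu hr (ν := ν) (τ := τ) (ν * I, 0)
  have ce1 := du_cont hu hr (ν := ν) (τ := τ) e1
  have ce2 := du_cont hu hr (ν := ν) (τ := τ) e2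
  have c3 : Continuous (Function.uncurry fun s t : ℝ =>
      ‖pd e1 u (cp ν τ r s t)‖ ^ 2 + ‖pd e2 u (cp ν τ r s t)‖ ^ 2) :=
    (cnorm ce1).add (cnorm ce2)
  have hm : ∫ s, ∫ t, u (cp ν τ r s t) ∂mu ∂mu = 0 := by
    simp only [int_mu]
    exact hmean
  have key := torusR (α := τ.re) c0 c1 c2 cn (fun s t => du_s hu hr s t)
    (fun s t => du_t hu hr s t)
    (fun s t => per_s hper hr s t) (fun s t => per_t hper hr s t) hm hτ (fun s t => by
      rw [du_dir, du_dir, du_dir]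
      simp only [Complex.mul_re, Complex.mul_im, Complex.I_re, Complex.I_im]
      push_cast
      ring)
  have e : ∫ s, ∫ t, ‖fderiv ℝ u (cp ν τ r s t) (ν, 0)‖ ^ 2 ∂mu ∂mu
      + ∫ s, ∫ t, ‖fderiv ℝ u (cp ν τ r s t) (ν * I, 0)‖ ^ 2 ∂mu ∂mu
      = ‖ν‖ ^ 2 * ∫ s, ∫ t, (‖pd e1 u (cp ν τ r s t)‖ ^ 2 + ‖pd e2 u (cp ν τ r s t)‖ ^ 2)
        ∂mu ∂mu := by
    rw [← integral_add (ic (cpar (cnorm c1))) (ic (cpar (cnorm cn))), ← integral_const_mul]
    congr 1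
    funext s
    rw [← integral_add (ic (cfix (cnorm c1) s)) (ic (cfix (cnorm cn) s)), ← integral_const_mul]
    congr 1
    funext t
    rw [du_dir, du_dir]
    simp only [← Complex.normSq_eq_norm_sq, Complex.normSq_apply, Complex.add_re, Complex.add_im,
      Complex.mul_re, Complex.mul_im, Complex.ofReal_re, Complex.ofReal_im, Complex.I_re,
      Complex.I_im]
    ring
  rw [e] at key
  rw [cellInt_ofReal (φ := fun p => ‖u p‖ ^ 2) (fun p => by positivity) (cnorm c0),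
    cellInt_ofReal (φ := fun p => ‖pd e1 u p‖ ^ 2 + ‖pd e2 u p‖ ^ 2) (fun p => by positivity) c3,
    ← ENNReal.ofReal_mul (by positivity)]
  apply ENNReal.ofReal_le_ofReal
  rw [div_mul_eq_mul_div, div_le_iff₀ (by positivity)]
  calc _ ≤ _ := key
    _ = _ := by
      rw [mul_comm (∫ s : ℝ, _ ∂mu) _]
      rw [← mul_assoc]
      rfl

end Pool.Agent.Helper80.Ram
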