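import Pool.Agent.Helper10.Ram.Final
import Pool.Agent.Helper80.Ram.Upp
import Pool.Agent.Helper80.Ram.Tails
import Pool.Agent.Helper80.Ram.Wirt

set_option autoImplicit false

/-!
# Assembly for `ℚ(√-7)` and `ℚ(√-2)`
-/

namespace Pool.Agent.Helper80.Ram

open Complex MeasureTheory Topology
open Pool.Agent.Helper10.Ram

theorem tau7_im_sq : tau7.im ^ 2 = 7 / 4 := by
  have h7 : Real.sqrt 7 * Real.sqrt 7 = 7 := Real.mul_self_sqrt (by norm_num)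
  have him : tau7.im = Real.sqrt 7 / 2 := by simp [tau7]
  rw [him]
  linear_combination (1 / 4) * h7

theorem tau8_im_sq : tau8.im ^ 2 = 2 := by
  have h7 : Real.sqrt 2 * Real.sqrt 2 = 2 := Real.mul_self_sqrt (by norm_num)
  have him : tau8.im = Real.sqrt 2 := by simp [tau8]
  rw [him]
  linear_combination h7

theorem norm7_le {ν : ℂ} (hν : ν ∈ intRing tau7) (h : ‖ν‖ ^ 2 ≤ 21) : ‖ν‖ ^ 2 ≤ 18 := by
  obtain ⟨a, b, rfl⟩ := (qt7.mem ν).1 hν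
  rw [qt7.norm_sq_int] at h ⊢
  have h1 : nfZ P7 a b ≤ 21 := by exact_mod_cast h
  have h2 : nfZ P7 a b ≤ 18 := by
    have e : nfZ P7 a b = a * a + a * b + 2 * (b * b) := by unfold nfZ P7; ring
    rw [e] at h1 ⊢
    have hb1 : b ≤ 3 := by nlinarith [mul_self_nonneg (2 * a + b)]
    have hb2 : -3 ≤ b := by nlinarith [mul_self_nonneg (2 * a + b)]
    have ha1 : a ≤ 4 := by nlinarith [mul_self_nonneg (a + 4 * b)]
    have ha2 : -4 ≤ a := by nlinarith [mul_self_nonneg (a + 4 * b)]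
    interval_cases a <;> interval_cases b <;> omega
  exact_mod_cast h2

theorem norm8_le {ν : ℂ} (hν : ν ∈ intRing tau8) (h : ‖ν‖ ^ 2 ≤ 15) : ‖ν‖ ^ 2 ≤ 12 := by
  obtain ⟨a, b, rfl⟩ := (qt8.mem ν).1 hν
  rw [qt8.norm_sq_int] at h ⊢
  have h1 : nfZ P8 a b ≤ 15 := by exact_mod_cast h
  have h2 : nfZ P8 a b ≤ 12 := by
    have e : nfZ P8 a b = a * a + 2 * (b * b) := by unfold nfZ P8; ring
    rw [e] at h1 ⊢
    have hb1 : b ≤ 2 := by nlinarith [mul_self_nonneg a]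
    have hb2 : -2 ≤ b := by nlinarith [mul_self_nonneg a]
    have ha1 : a ≤ 3 := by nlinarith [mul_self_nonneg b]
    have ha2 : -3 ≤ a := by nlinarith [mul_self_nonneg b]
    interval_cases a <;> interval_cases b <;> omega
  exact_mod_cast h2

theorem aw7 (ν : ℂ) : AWeights (intRing tau7) tau7 ν (psi (9 / 5) (8 / 5))
    (Qf (9 / 5) (87 / 50) (13 / 10) (242 / 125)) (3133 / 2500) (2 * (242 / 125)) where
  hψ := measurable_psi' _ _
  hQ := measurable_Qf' _ _ _ _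
  hnuM := by norm_num
  up := fun p hp => upper_seven (by norm_num) hp
  low := fun p hp => lower_seven hp
  strip := fun _ _ hu hB hW => strip_psi (by norm_num) (by norm_num) (by norm_num) (by norm_num)
    (by norm_num) (by norm_num) tail7 hu hB hW

theorem aw8 (ν : ℂ) : AWeights (intRing tau8) tau8 ν (psi (9 / 4) (23 / 12))
    (Qf (9 / 4) (7 / 5) (13 / 10) (67 / 20)) (16449 / 10000) (2 * (67 / 20)) where
  hψ := measurable_psi' _ _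
  hQ := measurable_Qf' _ _ _ _
  hnuM := by norm_num
  up := fun p hp => upper_eight (by norm_num) hp
  low := fun p hp => lower_eight hp
  strip := fun _ _ hu hB hW => strip_psi (by norm_num) (by norm_num) (by norm_num) (by norm_num)
    (by norm_num) (by norm_num) tail8 hu hB hW

theorem main_seven {ν : ℂ} (hν : ν ∈ intRing tau7) (hν0 : ν ≠ 0) (hνN : ‖ν‖ ^ 2 ≤ 21)
    (Δ : Subgroup SL2C) (hfi : Δ.relIndex (Gam (intRing tau7)) ≠ 0)
    (hlev : ∀ γ ∈ Gam (intRing tau7), ∀ x ∈ intRing tau7, γ * trans (ν * x) * γ⁻¹ ∈ Δ)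
    (f : Pt → ℂ) (hf : ContDiffOn ℝ 2 f UH) (hinv : ∀ γ ∈ Δ, ∀ p ∈ UH, f (act γ p) = f p)
    (hbdd : ∃ B : ℝ, ∀ p ∈ UH, ‖f p‖ ≤ B)
    (lam : ℂ) (heig : ∀ p ∈ UH, lap f p = -lam * f p)
    (hcusp : ∀ γ ∈ Gam (intRing tau7), ∀ r : ℝ, 0 < r →
      ∫ s in (0 : ℝ)..1, ∫ t in (0 : ℝ)..1, f (act γ (ν * (s + t * tau7), r)) = 0)
    (hne : ∃ p ∈ UH, f p ≠ 0) : ∃ l : ℝ, 1 ≤ l ∧ lam = l := by
  have h18 := norm7_le hν hνN
  have hpos : 0 < ‖ν‖ ^ 2 := by positivity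
  have hμ : (3133 / 2500 : ℝ) ≤ 4 * Real.pi ^ 2 / (tau7.im ^ 2 * ‖ν‖ ^ 2) := by
    rw [tau7_im_sq, le_div_iff₀ (by positivity)]
    have := Real.pi_gt_d6
    nlinarith
  refine main niceRing_seven isLat_seven (by norm_num) covers_seven hν hν0 (aw7 ν) ?_
    Δ hfi hlev f hf hinv hbdd lam heig hcusp hne
  intro u hu hp r hr hm
  refine le_trans ?_ (wirtinger_gen (by rw [tau7_im_sq]; norm_num) hν0 hu hp hr hm)
  gcongr

theorem main_eight {ν : ℂ} (hν : ν ∈ intRing tau8) (hν0 : ν ≠ 0) (hνN : ‖ν‖ ^ 2 ≤ 15)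
    (Δ : Subgroup SL2C) (hfi : Δ.relIndex (Gam (intRing tau8)) ≠ 0)
    (hlev : ∀ γ ∈ Gam (intRing tau8), ∀ x ∈ intRing tau8, γ * trans (ν * x) * γ⁻¹ ∈ Δ)
    (f : Pt → ℂ) (hf : ContDiffOn ℝ 2 f UH) (hinv : ∀ γ ∈ Δ, ∀ p ∈ UH, f (act γ p) = f p)
    (hbdd : ∃ B : ℝ, ∀ p ∈ UH, ‖f p‖ ≤ B)
    (lam : ℂ) (heig : ∀ p ∈ UH, lap f p = -lam * f p)
    (hcusp : ∀ γ ∈ Gam (intRing tau8), ∀ r : ℝ, 0 < r →
      ∫ s in (0 : ℝ)..1, ∫ t in (0 : ℝ)..1, f (act γ (ν * (s + t * tau8), r)) = 0)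
    (hne : ∃ p ∈ UH, f p ≠ 0) : ∃ l : ℝ, 1 ≤ l ∧ lam = l := by
  have h12 := norm8_le hν hνN
  have hpos : 0 < ‖ν‖ ^ 2 := by positivity
  have hμ : (16449 / 10000 : ℝ) ≤ 4 * Real.pi ^ 2 / (tau8.im ^ 2 * ‖ν‖ ^ 2) := by
    rw [tau8_im_sq, le_div_iff₀ (by positivity)]
    have := Real.pi_gt_d6
    nlinarith
  refine main niceRing_eight isLat_eight (by norm_num) covers_eight hν hν0 (aw8 ν) ?_
    Δ hfi hlev f hf hinv hbdd lam heig hcusp hne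
  intro u hu hp r hr hm
  refine le_trans ?_ (wirtinger_gen (by rw [tau8_im_sq]; norm_num) hν0 hu hp hr hm)
  gcongr

end Pool.Agent.Helper80.Ram
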