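import Pool.Agent.Helper80.Ram.Low

set_option autoImplicit false

/-!
# Discreteness and covering for `ℤ + ℤ τ`
-/

namespace Pool.Agent.Helper80.Ram

open Complex MeasureTheory Topology
open Pool.Agent.Helper10.Ram Pool.Agent.Helper99.Ram

theorem QT.disc_neg {P : Par} {τ : ℂ} (h : QT P τ) : P.u * P.u + 4 * P.w < 0 := by
  have h1 := h.im_sq
  have h2 : 0 < τ.im * τ.im := mul_pos h.im_pos h.im_pos
  have h3 : (P.u : ℝ) * P.u + 4 * P.w < 0 := by linarith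
  exact_mod_cast h3

theorem nfZ_pos {P : Par} (hd : P.u * P.u + 4 * P.w < 0) {a b : ℤ} (h : ¬ (a = 0 ∧ b = 0)) :
    1 ≤ nfZ P a b := by
  have e : 4 * nfZ P a b = (2 * a + P.u * b) ^ 2 + -(P.u * P.u + 4 * P.w) * b ^ 2 := by
    unfold nfZ; ring
  have : 0 < 4 * nfZ P a b := by
    rw [e]
    by_cases hb : b = 0
    · subst hb
      have ha : a ≠ 0 := fun ha => h ⟨ha, rfl⟩
      have : 0 < (2 * a + P.u * 0) ^ 2 := by
        rw [mul_zero, add_zero]; positivity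
      nlinarith
    · have h1 : 0 < b ^ 2 := by positivity
      have h2 : 0 < -(P.u * P.u + 4 * P.w) * b ^ 2 := mul_pos (by linarith) h1
      have h3 : 0 ≤ (2 * a + P.u * b) ^ 2 := sq_nonneg _
      linarith
  omega

theorem QT.disc {P : Par} {τ : ℂ} (h : QT P τ) : ∀ x ∈ intRing τ, x ≠ 0 → 1 ≤ ‖x‖ := by
  intro x hx h0
  obtain ⟨a, b, rfl⟩ := (h.mem x).1 hx
  apply one_le_of_sq
  rw [h.norm_sq_int]
  have : ¬ (a = 0 ∧ b = 0) := by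
    rintro ⟨rfl, rfl⟩
    simp at h0
  exact_mod_cast nfZ_pos h.disc_neg this

theorem int_le_sq (a : ℤ) : |a| ≤ a ^ 2 := by
  rcases eq_or_ne a 0 with h | h
  · rw [h]; simp
  · have h1 : 1 ≤ |a| := Int.one_le_abs h
    have h2 : |a| * |a| = a ^ 2 := by rw [abs_mul_abs_self, pow_two]
    nlinarith

theorem QT.nice {P : Par} {τ : ℂ} (h : QT P τ) : NiceRing (intRing τ) := by
  refine ⟨h.disc, ?_⟩
  intro C
  have hd := h.disc_neg
  have hw : P.w < 0 := by nlinarith [mul_self_nonneg P.u]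
  set T : ℝ := (4 * (-P.w : ℝ) + 4) * C ^ 2 with hT
  have hf : (Set.Icc (-⌈T⌉) ⌈T⌉ ×ˢ Set.Icc (-⌈T⌉) ⌈T⌉ : Set (ℤ × ℤ)).Finite :=
    (Set.finite_Icc _ _).prod (Set.finite_Icc _ _)
  refine (hf.image fun p : ℤ × ℤ => ((p.1 : ℂ) + p.2 * τ)).subset ?_
  rintro x ⟨hx, hxC⟩
  obtain ⟨a, b, rfl⟩ := (h.mem x).1 hx
  have h1 := h.norm_sq_int a b
  have h2 := norm_nonneg (a + b * τ : ℂ)
  have h3 : ((nfZ P a b : ℤ) : ℝ) ≤ C ^ 2 := by
    rw [← h1]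
    exact pow_le_pow_left₀ h2 hxC 2
  have hd' : (P.u : ℝ) * P.u + 4 * P.w ≤ -1 := by
    have : P.u * P.u + 4 * P.w ≤ -1 := by linarith
    exact_mod_cast this
  have hw' : (P.w : ℝ) ≤ -1 := by
    have : P.w ≤ -1 := by linarith
    exact_mod_cast this
  have e1 : 4 * ((nfZ P a b : ℤ) : ℝ) = (2 * a + P.u * b) ^ 2 +
      -((P.u : ℝ) * P.u + 4 * P.w) * (b : ℝ) ^ 2 := by
    unfold nfZ; push_cast; ring
  have e2 : 4 * (-P.w : ℝ) * ((nfZ P a b : ℤ) : ℝ) = (P.u * a - 2 * P.w * b) ^ 2 +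
      -((P.u : ℝ) * P.u + 4 * P.w) * (a : ℝ) ^ 2 := by
    unfold nfZ; push_cast; ring
  have hb : (b : ℝ) ^ 2 ≤ T := by
    have : (b : ℝ) ^ 2 ≤ -((P.u : ℝ) * P.u + 4 * P.w) * (b : ℝ) ^ 2 := by
      nlinarith [sq_nonneg (b : ℝ)]
    have h4 : (b : ℝ) ^ 2 ≤ 4 * C ^ 2 := by
      nlinarith [sq_nonneg (2 * (a : ℝ) + P.u * b)]
    rw [hT]
    nlinarith [sq_nonneg C]
  have ha : (a : ℝ) ^ 2 ≤ T := by
    have : (a : ℝ) ^ 2 ≤ -((P.u : ℝ) * P.u + 4 * P.w) * (a : ℝ) ^ 2 := by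
      nlinarith [sq_nonneg (a : ℝ)]
    have h4 : (a : ℝ) ^ 2 ≤ 4 * (-P.w : ℝ) * C ^ 2 := by
      have h5 : 4 * (-P.w : ℝ) * ((nfZ P a b : ℤ) : ℝ) ≤ 4 * (-P.w : ℝ) * C ^ 2 :=
        mul_le_mul_of_nonneg_left h3 (by linarith)
      nlinarith [sq_nonneg ((P.u : ℝ) * a - 2 * P.w * b)]
    rw [hT]
    nlinarith [sq_nonneg C]
  have bound : ∀ n : ℤ, (n : ℝ) ^ 2 ≤ T → -⌈T⌉ ≤ n ∧ n ≤ ⌈T⌉ := by
    intro n hn
    have h5 : (|n| : ℤ) ≤ ⌈T⌉ := by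
      have h6 := int_le_sq n
      have h7 : ((|n| : ℤ) : ℝ) ≤ (n : ℝ) ^ 2 := by exact_mod_cast h6
      have h8 : ((|n| : ℤ) : ℝ) ≤ ((⌈T⌉ : ℤ) : ℝ) := (h7.trans hn).trans (Int.le_ceil T)
      exact_mod_cast h8
    exact abs_le.1 h5
  obtain ⟨a1, a2⟩ := bound a ha
  obtain ⟨b1, b2⟩ := bound b hb
  exact ⟨(a, b), ⟨⟨a1, a2⟩, ⟨b1, b2⟩⟩, rfl⟩

/-- normal form of a closest point -/
theorem QT.normal {P : Par} {τ : ℂ} (h : QT P τ) {z : ℂ} (hz : Close τ z) :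
    ∃ X Y : ℝ, 0 ≤ Y ∧ 0 ≤ 2 * X + P.u * Y ∧ 2 * X + P.u * Y ≤ 1 ∧
      P.u * X - 2 * P.w * Y ≤ -P.w ∧ nfR P X Y = ‖z‖ ^ 2 := by
  have two_ineq : ∀ X' Y' : ℝ, Close τ (X' + Y' * τ) →
      2 * X' + P.u * Y' ≤ 1 ∧ P.u * X' - 2 * P.w * Y' ≤ -P.w := by
    intro X' Y' hc
    have i1 := hc.ineq h 1 0
    have i2 := hc.ineq h 0 1
    unfold nfR at i1 i2
    push_cast at i1 i2
    constructor <;> linarith
  obtain ⟨X, Y, rfl⟩ := h.coord z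
  have cj : (starRingEnd ℂ) ((X : ℂ) + Y * τ) = ((X + P.u * Y : ℝ) : ℂ) + ((-Y : ℝ) : ℂ) * τ := by
    rw [map_add, map_mul, Complex.conj_ofReal, Complex.conj_ofReal, h.conj]
    push_cast
    ring
  have ng : -((X : ℂ) + Y * τ) = ((-X : ℝ) : ℂ) + ((-Y : ℝ) : ℂ) * τ := by
    push_cast
    ring
  have ngcj : -(starRingEnd ℂ) ((X : ℂ) + Y * τ) =
      ((-(X + P.u * Y) : ℝ) : ℂ) + ((Y : ℝ) : ℂ) * τ := by
    rw [cj]
    push_cast
    ring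
  rw [h.norm_sq]
  rcases le_total 0 (2 * X + P.u * Y) with hs1 | hs1
  · rcases le_total 0 Y with hy | hy
    · obtain ⟨i1, i2⟩ := two_ineq X Y hz
      exact ⟨X, Y, hy, hs1, i1, i2, rfl⟩
    · have hc' := Close.conj h hz
      rw [cj] at hc'
      obtain ⟨i1, i2⟩ := two_ineq _ _ hc'
      exact ⟨_, _, by linarith, by linarith, i1, i2, by unfold nfR; ring⟩
  · rcases le_total 0 Y with hy | hy
    · have hc' := (Close.conj h hz).neg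
      rw [ngcj] at hc'
      obtain ⟨i1, i2⟩ := two_ineq _ _ hc'
      exact ⟨_, _, hy, by linarith, i1, i2, by unfold nfR; ring⟩
    · have hc' := hz.neg
      rw [ng] at hc'
      obtain ⟨i1, i2⟩ := two_ineq _ _ hc'
      exact ⟨_, _, by linarith, by linarith, i1, i2, by unfold nfR; ring⟩

/-- covering -/
theorem QT.covers {P : Par} {τ : ℂ} (h : QT P τ) {a : ℝ}
    (hreg : ∀ X Y : ℝ, 0 ≤ Y → 0 ≤ 2 * X + P.u * Y → 2 * X + P.u * Y ≤ 1 →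
      P.u * X - 2 * P.w * Y ≤ -P.w → nfR P X Y ≤ 1 - a ^ 2) :
    Covers (intRing τ) 1 a := by
  intro p hp
  obtain ⟨γ, hγ, h1, h2⟩ := reduce h.nice hp
  refine ⟨γ, hγ, ?_⟩
  set q := act γ p with hq
  have hqU : q ∈ UH := act_mem' γ hp
  have hq2 : 0 < q.2 := hqU
  obtain ⟨X, Y, i1, i2, i3, i4, i5⟩ := h.normal (z := q.1) h1
  have h3 := outside hqU h2 (intRing τ).zero_mem
  rw [sub_zero] at h3
  have h4 := hreg X Y i1 i2 i3 i4
  rw [i5] at h4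
  have ha2 : 0 ≤ a ^ 2 := sq_nonneg a
  constructor
  · have : ‖q.1‖ ^ 2 ≤ 1 ^ 2 := by linarith
    exact le_of_abs_le (abs_le_of_sq_le_sq this zero_le_one)
  · have : a ^ 2 ≤ q.2 ^ 2 := by linarith
    exact le_of_abs_le (abs_le_of_sq_le_sq this hq2.le)

/-- from the checker to the pointwise bound -/
theorem pt_of_chk {P : Par} (hP : P.u * P.u + 4 * P.w ≤ 0) (hN : 0 < P.N) (hd : 0 < P.dn)
    {rows : List Key} {t : Tr} {A B C : ℤ × ℤ} {top : ℤ}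
    (hc : chk P rows t A B C none top = true) {X Y r : ℝ} (hr : 0 < r)
    (htri : inTri A B C (P.N * X) (P.N * Y)) (hout : 1 ≤ nfR P X Y + r * r)
    (htop : P.N * r ≤ top) :
    (P.kn : ℝ) / P.dn ≤ (rows.map fun k => max 0 ((P.cn : ℝ) / P.dn - rv P k X Y r / r)).sum := by
  have hN' : (0 : ℝ) < P.N := by exact_mod_cast hN
  obtain ⟨m, hm⟩ := chk_sound P hP hd.le rows t A B C none top hc (P.N * X) (P.N * Y) (P.N * r)
    htri (by
      change (P.N : ℝ) * P.N ≤ nfR P (P.N * X) (P.N * Y) + P.N * r * (P.N * r)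
      have e : nfR P (P.N * X) (P.N * Y) + P.N * r * (P.N * r) =
          (P.N * P.N) * (nfR P X Y + r * r) := by
        unfold nfR; ring
      rw [e]
      have := mul_le_mul_of_nonneg_left hout (mul_pos hN' hN').le
      linarith) (by positivity) htop
  exact cert_bound hN hd hr hm

end Pool.Agent.Helper80.Ram
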