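import Mathlib
import Pool.Agent.Helper80.Ram.Main78

set_option autoImplicit false

open Pool.Agent.Helper10.Ram Pool.Agent.Helper80.Ram

namespace Pool.Agent.Helper80.Ram.ParkedTwo

/-- `K = ℚ(√-2)`, level `ν` of norm at most `15`: every cusp form on hyperbolic 3-space for a
subgroup `Δ` containing the `SL₂(𝒪)`-conjugates of the translations by `ν 𝒪` (with
`Δ ∩ SL₂(𝒪)` of finite index in `SL₂(𝒪)`) has Laplace eigenvalue `≥ 1`. -/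
theorem sqrtMinusTwoLevels {ν : ℂ} (hν : ν ∈ intRing tau8) (hν0 : ν ≠ 0) (hνN : ‖ν‖ ^ 2 ≤ 15)
    (Δ : Subgroup SL2C) (hfi : Δ.relIndex (Gam (intRing tau8)) ≠ 0)
    (hlev : ∀ γ ∈ Gam (intRing tau8), ∀ x ∈ intRing tau8, γ * trans (ν * x) * γ⁻¹ ∈ Δ)
    (f : Pt → ℂ) (hf : ContDiffOn ℝ 2 f UH) (hinv : ∀ γ ∈ Δ, ∀ p ∈ UH, f (act γ p) = f p)
    (hbdd : ∃ B : ℝ, ∀ p ∈ UH, ‖f p‖ ≤ B)
    (lam : ℂ) (heig : ∀ p ∈ UH, lap f p = -lam * f p)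
    (hcusp : ∀ γ ∈ Gam (intRing tau8), ∀ r : ℝ, 0 < r →
      ∫ s in (0 : ℝ)..1, ∫ t in (0 : ℝ)..1, f (act γ (ν * (s + t * tau8), r)) = 0)
    (hne : ∃ p ∈ UH, f p ≠ 0) : ∃ l : ℝ, 1 ≤ l ∧ lam = l :=
  main_eight hν hν0 hνN Δ hfi hlev f hf hinv hbdd lam heig hcusp hne

end Pool.Agent.Helper80.Ram.ParkedTwo
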