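import Pool.Agent.Helper80.Ram.Tree
import Pool.Agent.Helper99.Ram.Reduce

set_option autoImplicit false

/-!
# Imaginary quadratic orders `ℤ + ℤ τ`, `τ² = u τ + w`: rows and lower bounds
-/

namespace Pool.Agent.Helper80.Ram

open Complex MeasureTheory Topology
open Pool.Agent.Helper10.Ram Pool.Agent.Helper99.Ram

/-- `τ` is a root of `τ² = u τ + w` in the upper half-plane -/
structure QT (P : Par) (τ : ℂ) : Prop where
  im_pos : 0 < τ.im
  re_eq : τ.re = P.u / 2
  im_sq : τ.im * τ.im = -P.w - P.u * P.u / 4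

theorem QT.sq {P : Par} {τ : ℂ} (h : QT P τ) : τ * τ = P.u * τ + P.w := by
  apply Complex.ext
  · rw [Complex.mul_re, h.re_eq, h.im_sq]
    simp only [Complex.add_re, Complex.mul_re, Complex.intCast_re, Complex.intCast_im, h.re_eq]
    ring
  · rw [Complex.mul_im, h.re_eq]
    simp only [Complex.add_im, Complex.mul_im, Complex.intCast_re, Complex.intCast_im, h.re_eq]
    ring

theorem QT.mem {P : Par} {τ : ℂ} (h : QT P τ) (x : ℂ) :
    x ∈ intRing τ ↔ ∃ a b : ℤ, x = a + b * τ := intRing_mem h.sq x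

theorem QT.isLat {P : Par} {τ : ℂ} (h : QT P τ) : IsLat (intRing τ) τ := ⟨h.im_pos, h.mem⟩

theorem QT.hP {P : Par} {τ : ℂ} (h : QT P τ) : P.u * P.u + 4 * P.w ≤ 0 := by
  have h1 := h.im_sq
  have h2 : 0 < τ.im * τ.im := mul_pos h.im_pos h.im_pos
  have h3 : (P.u : ℝ) * P.u + 4 * P.w ≤ 0 := by linarith
  exact_mod_cast h3

/-- the norm of a real combination -/
theorem QT.norm_sq {P : Par} {τ : ℂ} (h : QT P τ) (a b : ℝ) :
    ‖(a + b * τ : ℂ)‖ ^ 2 = nfR P a b := by
  rw [← Complex.normSq_eq_norm_sq, Complex.normSq_apply]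
  simp only [Complex.add_re, Complex.mul_re, Complex.ofReal_re, Complex.ofReal_im, Complex.add_im,
    Complex.mul_im, h.re_eq]
  unfold nfR
  have := h.im_sq
  linear_combination (b * b) * this

theorem QT.norm_sq_int {P : Par} {τ : ℂ} (h : QT P τ) (a b : ℤ) :
    ‖(a + b * τ : ℂ)‖ ^ 2 = ((nfZ P a b : ℤ) : ℝ) := by
  have := h.norm_sq a b
  rw [nf_cast, ← this]
  push_cast
  rfl

/-- coordinates of a complex number -/
theorem QT.coord {P : Par} {τ : ℂ} (h : QT P τ) (z : ℂ) :
    ∃ X Y : ℝ, z = X + Y * τ := by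
  refine ⟨z.re - z.im / τ.im * τ.re, z.im / τ.im, ?_⟩
  have := h.im_pos.ne'
  apply Complex.ext
  · simp
  · simp
    field_simp

theorem QT.inj {P : Par} {τ : ℂ} (h : QT P τ) {a b a' b' : ℤ}
    (e : (a + b * τ : ℂ) = a' + b' * τ) : a = a' ∧ b = b' := by
  have h1 := congrArg Complex.im e
  have h2 := congrArg Complex.re e
  simp only [Complex.add_re, Complex.mul_re, Complex.intCast_re, Complex.intCast_im,
    Complex.add_im, Complex.mul_im] at h1 h2
  have h3 : (b : ℝ) = b' := by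
    have : ((b : ℝ) - b') * τ.im = 0 := by linarith
    rcases mul_eq_zero.1 this with h | h'
    · linarith
    · exact absurd h' h.im_pos.ne'
  have h4 : (a : ℝ) = a' := by
    rw [h3] at h2
    linarith
  exact ⟨by exact_mod_cast h4, by exact_mod_cast h3⟩

/-- the row of a key -/
noncomputable def tv (τ : ℂ) (k : Key) : ℂ × ℂ := (k.1 + k.2.1 * τ, k.2.2.1 + k.2.2.2 * τ)

theorem tv_inj {P : Par} {τ : ℂ} (h : QT P τ) : Function.Injective (tv τ) := by
  rintro ⟨a, b, c, d⟩ ⟨a', b', c', d'⟩ e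
  obtain ⟨h1, h2⟩ := h.inj (congrArg Prod.fst e)
  obtain ⟨h3, h4⟩ := h.inj (congrArg Prod.snd e)
  simp only at h1 h2 h3 h4
  rw [h1, h2, h3, h4]

/-- the quadratic function of a key -/
noncomputable def rv (P : Par) (k : Key) (X Y r : ℝ) : ℝ :=
  kB P k * (nfR P X Y + r * r) + k1 P k * X + k2 P k * Y + k0 P k

theorem uval_tv {P : Par} {τ : ℂ} (h : QT P τ) (k : Key) (X Y r : ℝ) :
    uval (tv τ k) ((X : ℂ) + Y * τ, r) = rv P k X Y r / r := by
  obtain ⟨c0, c1, d0, d1⟩ := k
  unfold uval tv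
  simp only
  congr 1
  have e1 : ((c0 : ℂ) + c1 * τ) * (X + Y * τ) + (d0 + d1 * τ) =
      ((c0 * X + P.w * c1 * Y + d0 : ℝ) : ℂ) + ((c0 * Y + c1 * X + P.u * c1 * Y + d1 : ℝ) : ℂ) * τ := by
    push_cast
    linear_combination (c1 * Y : ℂ) * h.sq
  have e2 : ((c0 : ℂ) + c1 * τ) = ((c0 : ℝ) : ℂ) + ((c1 : ℝ) : ℂ) * τ := by push_cast; ring
  rw [e1, h.norm_sq, e2, h.norm_sq]
  unfold rv kB k1 k2 k0 nfZ nfR
  push_cast
  ring

/-- primitivity of a key -/
def PrimZ (P : Par) (k : Key) : Prop :=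
  ∃ a0 a1 b0 b1 : ℤ,
    a0 * k.2.2.1 + P.w * a1 * k.2.2.2 - (b0 * k.1 + P.w * b1 * k.2.1) = 1 ∧
    a0 * k.2.2.2 + a1 * k.2.2.1 + P.u * a1 * k.2.2.2
      - (b0 * k.2.1 + b1 * k.1 + P.u * b1 * k.2.1) = 0

theorem QT.int_mem {P : Par} {τ : ℂ} (h : QT P τ) (a b : ℤ) : (a + b * τ : ℂ) ∈ intRing τ :=
  (h.mem _).2 ⟨a, b, rfl⟩

theorem tv_prim {P : Par} {τ : ℂ} (h : QT P τ) {k : Key} (hk : PrimZ P k) :
    tv τ k ∈ Prim (intRing τ) := by
  obtain ⟨c0, c1, d0, d1⟩ := k
  obtain ⟨a0, a1, b0, b1, h1, h2⟩ := hk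
  simp only at h1 h2
  refine prim_of (h.int_mem a0 a1) (h.int_mem b0 b1) (h.int_mem c0 c1) (h.int_mem d0 d1) ?_
  have h1' : (a0 : ℂ) * d0 + P.w * a1 * d1 - (b0 * c0 + P.w * b1 * c1) = 1 := by
    exact_mod_cast h1
  have h2' : (a0 : ℂ) * d1 + a1 * d0 + P.u * a1 * d1 - (b0 * c1 + b1 * c0 + P.u * b1 * c1) = 0 := by
    exact_mod_cast h2
  linear_combination h1' + τ * h2' + ((a1 : ℂ) * d1 - b1 * c1) * h.sq

/-- negation of a key -/
def kneg (k : Key) : Key := (-k.1, -k.2.1, -k.2.2.1, -k.2.2.2)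

/-- action of complex conjugation -/
def kcj (P : Par) (k : Key) : Key :=
  (k.1 + P.u * k.2.1, -k.2.1, k.2.2.1 + P.u * k.2.2.2, -k.2.2.2)

/-- action of `z ↦ -z` -/
def kng (k : Key) : Key := (k.1, k.2.1, -k.2.2.1, -k.2.2.2)

/-- a list of primitive rows, pairwise distinct up to sign -/
def Valid (P : Par) (L : List Key) : Prop :=
  (∀ k ∈ L, PrimZ P k) ∧ (L ++ L.map kneg).Nodup

theorem primZ_kneg {P : Par} {k : Key} (h : PrimZ P k) : PrimZ P (kneg k) := by
  obtain ⟨a0, a1, b0, b1, h1, h2⟩ := h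
  refine ⟨-a0, -a1, -b0, -b1, ?_, ?_⟩
  · unfold kneg; simp only; linear_combination h1
  · unfold kneg; simp only; linear_combination h2

theorem primZ_kcj {P : Par} {k : Key} (h : PrimZ P k) : PrimZ P (kcj P k) := by
  obtain ⟨a0, a1, b0, b1, h1, h2⟩ := h
  refine ⟨a0 + P.u * a1, -a1, b0 + P.u * b1, -b1, ?_, ?_⟩
  · unfold kcj; simp only; linear_combination h1 + P.u * h2
  · unfold kcj; simp only; linear_combination -h2

theorem primZ_kng {P : Par} {k : Key} (h : PrimZ P k) : PrimZ P (kng k) := by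
  obtain ⟨a0, a1, b0, b1, h1, h2⟩ := h
  refine ⟨-a0, -a1, b0, b1, ?_, ?_⟩
  · unfold kng; simp only; linear_combination h1
  · unfold kng; simp only; linear_combination h2

theorem kcj_inj (P : Par) : Function.Injective (kcj P) := by
  rintro ⟨a, b, c, d⟩ ⟨a', b', c', d'⟩ e
  simp only [kcj, Prod.mk.injEq] at e
  obtain ⟨h1, h2, h3, h4⟩ := e
  have h2' : b = b' := by linarith
  have h4' : d = d' := by linarith
  subst h2' h4'
  have h1' : a = a' := by linarith
  have h3' : c = c' := by linarith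
  rw [h1', h3']

theorem kng_inj : Function.Injective kng := by
  rintro ⟨a, b, c, d⟩ ⟨a', b', c', d'⟩ e
  simp only [kng, Prod.mk.injEq] at e
  obtain ⟨h1, h2, h3, h4⟩ := e
  rw [h1, h2, neg_injective h3, neg_injective h4]

theorem kneg_kcj (P : Par) (k : Key) : kneg (kcj P k) = kcj P (kneg k) := by
  unfold kneg kcj
  simp only [Prod.mk.injEq]
  refine ⟨by ring, trivial, by ring, trivial⟩

theorem kneg_kng (k : Key) : kneg (kng k) = kng (kneg k) := by
  unfold kneg kng
  rfl

theorem Valid.map {P : Par} {L : List Key} (hL : Valid P L) {f : Key → Key}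
    (hf : Function.Injective f) (hp : ∀ k, PrimZ P k → PrimZ P (f k))
    (hn : ∀ k, kneg (f k) = f (kneg k)) : Valid P (L.map f) := by
  refine ⟨?_, ?_⟩
  · intro k hk
    rw [List.mem_map] at hk
    obtain ⟨k', hk', rfl⟩ := hk
    exact hp _ (hL.1 _ hk')
  · have : L.map f ++ (L.map f).map kneg = (L ++ L.map kneg).map f := by
      rw [List.map_append, List.map_map, List.map_map]
      congr 1
      apply List.map_congr_left
      intro k _
      exact hn k
    rw [this]
    exact hL.2.map hf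

theorem list_le_tsum {R : Subring ℂ} {M : List (ℂ × ℂ)} (hM : M.Nodup)
    (hp : ∀ v ∈ M, v ∈ Prim R) (F : ℂ × ℂ → ENNReal) :
    (M.map F).sum ≤ ∑' v : Prim R, F v := by
  classical
  rw [← List.sum_toFinset F hM]
  have h1 : ∑ v ∈ M.toFinset, F v = ∑ v ∈ M.toFinset.subtype (· ∈ Prim R), F v := by
    rw [Finset.sum_subtype_of_mem F (p := (· ∈ Prim R))]
    intro v hv
    exact hp v (List.mem_toFinset.1 hv)
  rw [h1]
  exact ENNReal.sum_le_tsum _

theorem uval_kneg {P : Par} {τ : ℂ} (_h : QT P τ) (k : Key) (q : Pt) :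
    uval (tv τ (kneg k)) q = uval (tv τ k) q := by
  have e : tv τ (kneg k) = (-(tv τ k).1, -(tv τ k).2) := by
    unfold tv kneg
    simp only [Prod.mk.injEq]
    constructor <;> push_cast <;> ring
  rw [e]
  unfold uval
  simp only
  have e2 : -(tv τ k).1 * q.1 + -(tv τ k).2 = -((tv τ k).1 * q.1 + (tv τ k).2) := by ring
  rw [e2, norm_neg, norm_neg]

/-- the generic lower bound for sums over rows -/
theorem valid_le {P : Par} {τ : ℂ} (h : QT P τ) {L : List Key} (hL : Valid P L)
    (F : ℝ → ENNReal) (q : Pt) :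
    2 * (L.map fun k => F (uval (tv τ k) q)).sum ≤
      ∑' v : Prim (intRing τ), F (uval v q) := by
  have h1 : ((L ++ L.map kneg).map (tv τ)).Nodup := hL.2.map (tv_inj h)
  have h2 := list_le_tsum (R := intRing τ) h1 (by
    intro v hv
    rw [List.mem_map] at hv
    obtain ⟨k, hk, rfl⟩ := hv
    rw [List.mem_append] at hk
    rcases hk with hk | hk
    · exact tv_prim h (hL.1 k hk)
    · rw [List.mem_map] at hk
      obtain ⟨k', hk', rfl⟩ := hk
      exact tv_prim h (primZ_kneg (hL.1 k' hk'))) (fun v => F (uval v q))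
  refine le_trans (le_of_eq ?_) h2
  rw [List.map_map, List.map_append, List.sum_append, List.map_map, two_mul]
  congr 1
  congr 1
  apply List.map_congr_left
  intro k _
  simp only [Function.comp]
  rw [uval_kneg h]

/-- selected rows contribute at most the total -/
theorem select_le (f : Key → ℝ) : ∀ (L : List Key) (m : List Bool),
    ((select L m).map f).sum ≤ (L.map fun k => max 0 (f k)).sum
  | [], m => by simp [select]
  | k :: L, [] => by
    simp only [select, List.map_nil, List.sum_nil, List.map_cons, List.sum_cons]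
    have h2 := select_le f L []
    have h3 : ((select L []).map f).sum = 0 := by
      cases L <;> simp [select]
    rw [h3] at h2
    have := le_max_left 0 (f k)
    linarith
  | k :: L, true :: m => by
    simp only [select, List.map_cons, List.sum_cons]
    exact add_le_add (le_max_right _ _) (select_le f L m)
  | k :: L, false :: m => by
    simp only [select, List.map_cons, List.sum_cons]
    have := select_le f L m
    have h2 := le_max_left 0 (f k)
    linarith

theorem isum_cast (f : Key → ℤ) (g : Key → ℝ) (hfg : ∀ k, ((f k : ℤ) : ℝ) = g k) :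
    ∀ L : List Key, ((isum (L.map f) : ℤ) : ℝ) = (L.map g).sum
  | [] => by simp [isum]
  | k :: L => by
    simp only [isum, List.map_cons, List.sum_cons]
    push_cast
    rw [hfg, isum_cast f g hfg L]

/-- meaning of the checked value -/
theorem val_meaning {P : Par} (D : List Key) (hN : P.N ≠ 0) (x y r : ℝ) :
    valR P (agg P D) x y r = (P.N * P.N : ℝ) *
      ((D.map fun k => (P.cn : ℝ) * (r / P.N) - P.dn * rv P k (x / P.N) (y / P.N) (r / P.N)).sum
        - P.kn * (r / P.N)) := by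
  have hN' : (P.N : ℝ) ≠ 0 := by exact_mod_cast hN
  have key : (D.map fun k => (P.cn : ℝ) * (r / P.N)
      - P.dn * rv P k (x / P.N) (y / P.N) (r / P.N)).sum =
      ((isum (D.map fun _ => P.cn) : ℤ) : ℝ) * (r / P.N) - P.dn *
        (((isum (D.map (kB P)) : ℤ) : ℝ) * (nfR P (x / P.N) (y / P.N) + r / P.N * (r / P.N)) +
        ((isum (D.map (k1 P)) : ℤ) : ℝ) * (x / P.N) + ((isum (D.map (k2 P)) : ℤ) : ℝ) * (y / P.N) +
        ((isum (D.map (k0 P)) : ℤ) : ℝ)) := by
    induction D with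
    | nil => simp [isum]
    | cons k D ih =>
      simp only [List.map_cons, List.sum_cons, isum]
      rw [ih]
      unfold rv
      push_cast
      ring
  rw [key]
  unfold valR agg nfR
  simp only
  push_cast
  field_simp
  ring

/-- from a certificate to the bound -/
theorem cert_bound {P : Par} (hN : 0 < P.N) (hd : 0 < P.dn) {rows : List Key} {m : List Bool}
    {X Y r : ℝ} (hr : 0 < r)
    (h : 0 ≤ valR P (agg P (select rows m)) (P.N * X) (P.N * Y) (P.N * r)) :
    (P.kn : ℝ) / P.dn ≤ (rows.map fun k => max 0 ((P.cn : ℝ) / P.dn - rv P k X Y r / r)).sum := by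
  have hN' : (0 : ℝ) < P.N := by exact_mod_cast hN
  have hd' : (0 : ℝ) < P.dn := by exact_mod_cast hd
  rw [val_meaning _ hN.ne'] at h
  have h1 := nonneg_of_mul_nonneg_right h (mul_pos hN' hN')
  have e1 : (P.N : ℝ) * X / P.N = X := by field_simp
  have e2 : (P.N : ℝ) * Y / P.N = Y := by field_simp
  have e3 : (P.N : ℝ) * r / P.N = r := by field_simp
  rw [e1, e2, e3] at h1
  have h2 := select_le (fun k => (P.cn : ℝ) / P.dn - rv P k X Y r / r) rows m
  refine le_trans ?_ h2
  have h3 : ((select rows m).map fun k => (P.cn : ℝ) * r - P.dn * rv P k X Y r).sum =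
      (P.dn * r) * ((select rows m).map fun k => (P.cn : ℝ) / P.dn - rv P k X Y r / r).sum := by
    rw [← List.sum_map_mul_left]
    congr 1
    apply List.map_congr_left
    intro k _
    field_simp
  rw [h3] at h1
  rw [div_le_iff₀ hd']
  have h4 : r * (P.kn : ℝ) ≤ r * (((select rows m).map fun k =>
      (P.cn : ℝ) / P.dn - rv P k X Y r / r).sum * P.dn) := by linarith
  exact le_of_mul_le_mul_left h4 hr

end Pool.Agent.Helper80.Ram
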