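import Mathlib

set_option autoImplicit false

/-!
# A certificate checker for the lower bound

We verify that on a region of the reduced domain some sub-sum of `c - u_v` over a given list of
rows is at least `K`. All coordinates are scaled by the integer `N`.
-/

namespace Pool.Agent.Helper80.Ram

/-- integer coordinates `(c0, c1, d0, d1)` of the row `(c0 + c1 τ, d0 + d1 τ)` -/
abbrev Key := ℤ × ℤ × ℤ × ℤ

/-- parameters: `τ² = u τ + w`, the threshold `c = cn / dn`, the target `K = kn / dn`, the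
scale `N` -/
structure Par where
  u : ℤ
  w : ℤ
  cn : ℤ
  kn : ℤ
  dn : ℤ
  N : ℤ

/-- norm form over `ℤ` -/
def nfZ (P : Par) (a b : ℤ) : ℤ := a * a + P.u * a * b - P.w * b * b

/-- norm form over `ℝ` -/
noncomputable def nfR (P : Par) (a b : ℝ) : ℝ := a * a + P.u * a * b - P.w * b * b

/-- coefficient of `‖z‖² + r²` -/
def kB (P : Par) (k : Key) : ℤ := nfZ P k.1 k.2.1
/-- coefficient of the first lattice coordinate -/
def k1 (P : Par) (k : Key) : ℤ :=
  2 * k.1 * k.2.2.1 + P.u * (k.1 * k.2.2.2 + k.2.1 * k.2.2.1) - 2 * P.w * k.2.1 * k.2.2.2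
/-- coefficient of the second lattice coordinate -/
def k2 (P : Par) (k : Key) : ℤ :=
  2 * (P.w * k.2.1) * k.2.2.1 + P.u * (P.w * k.2.1 * k.2.2.2 + (k.1 + P.u * k.2.1) * k.2.2.1)
    - 2 * P.w * (k.1 + P.u * k.2.1) * k.2.2.2
/-- constant coefficient -/
def k0 (P : Par) (k : Key) : ℤ := nfZ P k.2.2.1 k.2.2.2

/-- selection of a sublist -/
def select : List Key → List Bool → List Key
  | r :: rs, true :: bs => r :: select rs bs
  | _ :: rs, false :: bs => select rs bs
  | [], _ => []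
  | _ :: _, [] => []

/-- sum of integers -/
def isum : List ℤ → ℤ
  | [] => 0
  | a :: l => a + isum l

/-- the aggregated coefficients `(κ, B, L1, L2, L0)` of a list of rows -/
def agg (P : Par) (D : List Key) : ℤ × ℤ × ℤ × ℤ × ℤ :=
  (isum (D.map fun _ => P.cn) - P.kn, isum (D.map (kB P)), isum (D.map (k1 P)),
    isum (D.map (k2 P)), isum (D.map (k0 P)))

/-- scaled value at an integer point -/
def valZ (P : Par) (a : ℤ × ℤ × ℤ × ℤ × ℤ) (x y r : ℤ) : ℤ :=
  a.1 * P.N * r - P.dn * (a.2.1 * (nfZ P x y + r * r) + P.N * (a.2.2.1 * x + a.2.2.2.1 * y)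
    + P.N * P.N * a.2.2.2.2)

/-- scaled value at a real point -/
noncomputable def valR (P : Par) (a : ℤ × ℤ × ℤ × ℤ × ℤ) (x y r : ℝ) : ℝ :=
  a.1 * P.N * r - P.dn * (a.2.1 * (nfR P x y + r * r) + P.N * (a.2.2.1 * x + a.2.2.2.1 * y)
    + P.N * P.N * a.2.2.2.2)

/-- decision trees -/
inductive Tr where
  | leaf (D : List Bool) (s1 s2 s3 : ℤ)
  | nil
  | t0 (a b : Tr)
  | t1 (a b : Tr)
  | t2 (a b : Tr)
  | rad (ρ : ℤ) (a b : Tr)

/-- midpoint -/
def mid (A B : ℤ × ℤ) : ℤ × ℤ := ((A.1 + B.1) / 2, (A.2 + B.2) / 2)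

/-- the midpoint is exact -/
def mok (A B : ℤ × ℤ) : Bool :=
  (2 * (mid A B).1 == A.1 + B.1) && (2 * (mid A B).2 == A.2 + B.2)

/-- condition on the bottom height at a corner -/
def sok (P : Par) (bot : Option ℤ) (top : ℤ) (A : ℤ × ℤ) (s : ℤ) : Bool :=
  match bot with
  | none => decide (0 ≤ s) && decide (s ≤ top) && decide (s * s + nfZ P A.1 A.2 ≤ P.N * P.N)
  | some b => (s == b) && decide (s ≤ top)

/-- the checker -/
def chk (P : Par) (rows : List Key) :
    Tr → ℤ × ℤ → ℤ × ℤ → ℤ × ℤ → Option ℤ → ℤ → Bool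
  | Tr.leaf m s1 s2 s3, A, B, C, bot, top =>
    let a := agg P (select rows m)
    sok P bot top A s1 && sok P bot top B s2 && sok P bot top C s3 &&
      decide (0 ≤ a.2.1) &&
      decide (0 ≤ valZ P a A.1 A.2 s1) && decide (0 ≤ valZ P a B.1 B.2 s2) &&
      decide (0 ≤ valZ P a C.1 C.2 s3) && decide (0 ≤ valZ P a A.1 A.2 top) &&
      decide (0 ≤ valZ P a B.1 B.2 top) && decide (0 ≤ valZ P a C.1 C.2 top)
  | Tr.nil, A, B, C, bot, top =>
    match bot with
    | none => decide (top * top + nfZ P A.1 A.2 < P.N * P.N) &&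
        decide (top * top + nfZ P B.1 B.2 < P.N * P.N) &&
        decide (top * top + nfZ P C.1 C.2 < P.N * P.N)
    | some b => decide (top < b)
  | Tr.t0 a b, A, B, C, bot, top =>
    mok A B && chk P rows a A (mid A B) C bot top && chk P rows b (mid A B) B C bot top
  | Tr.t1 a b, A, B, C, bot, top =>
    mok B C && chk P rows a A B (mid B C) bot top && chk P rows b A (mid B C) C bot top
  | Tr.t2 a b, A, B, C, bot, top =>
    mok A C && chk P rows a A B (mid A C) bot top && chk P rows b (mid A C) B C bot top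
  | Tr.rad ρ a b, A, B, C, bot, top =>
    chk P rows a A B C bot ρ && chk P rows b A B C (some ρ) top

/-- membership in a triangle -/
def inTri (A B C : ℤ × ℤ) (x y : ℝ) : Prop :=
  ∃ α β γ : ℝ, 0 ≤ α ∧ 0 ≤ β ∧ 0 ≤ γ ∧ α + β + γ = 1 ∧
    x = α * A.1 + β * B.1 + γ * C.1 ∧ y = α * A.2 + β * B.2 + γ * C.2

/-- membership above the bottom -/
def inBot (P : Par) (bot : Option ℤ) (x y r : ℝ) : Prop :=
  match bot with
  | none => (P.N : ℝ) * P.N ≤ nfR P x y + r * r
  | some b => (b : ℝ) ≤ r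

theorem valZ_cast (P : Par) (a : ℤ × ℤ × ℤ × ℤ × ℤ) (x y r : ℤ) :
    ((valZ P a x y r : ℤ) : ℝ) = valR P a x y r := by
  unfold valZ valR nfZ nfR
  push_cast
  ring

theorem nf_cast (P : Par) (x y : ℤ) : ((nfZ P x y : ℤ) : ℝ) = nfR P x y := by
  unfold nfZ nfR
  push_cast
  ring

theorem nf_nonneg (P : Par) (h : P.u * P.u + 4 * P.w ≤ 0) (a b : ℝ) : 0 ≤ nfR P a b := by
  have h' : (P.u : ℝ) * P.u + 4 * P.w ≤ 0 := by exact_mod_cast h
  unfold nfR
  have e : a * a + P.u * a * b - P.w * b * b =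
      (a + P.u * b / 2) ^ 2 + (-(P.u * P.u + 4 * P.w) / 4) * b ^ 2 := by ring
  rw [e]
  have : 0 ≤ -((P.u : ℝ) * P.u + 4 * P.w) / 4 := by linarith
  positivity

/-- convexity of the norm form -/
theorem nf_convex (P : Par) (h : P.u * P.u + 4 * P.w ≤ 0) {α β γ : ℝ} (ha : 0 ≤ α) (hb : 0 ≤ β)
    (hc : 0 ≤ γ) (hs : α + β + γ = 1) (x1 y1 x2 y2 x3 y3 : ℝ) :
    nfR P (α * x1 + β * x2 + γ * x3) (α * y1 + β * y2 + γ * y3) ≤
      α * nfR P x1 y1 + β * nfR P x2 y2 + γ * nfR P x3 y3 := by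
  have e : α * nfR P x1 y1 + β * nfR P x2 y2 + γ * nfR P x3 y3 -
      nfR P (α * x1 + β * x2 + γ * x3) (α * y1 + β * y2 + γ * y3) =
      α * β * nfR P (x1 - x2) (y1 - y2) + α * γ * nfR P (x1 - x3) (y1 - y3) +
      β * γ * nfR P (x2 - x3) (y2 - y3) := by
    have hα : α = 1 - β - γ := by linarith
    subst hα
    unfold nfR
    ring
  have h1 := nf_nonneg P h (x1 - x2) (y1 - y2)
  have h2 := nf_nonneg P h (x1 - x3) (y1 - y3)
  have h3 := nf_nonneg P h (x2 - x3) (y2 - y3)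
  have : 0 ≤ α * β * nfR P (x1 - x2) (y1 - y2) + α * γ * nfR P (x1 - x3) (y1 - y3) +
      β * γ * nfR P (x2 - x3) (y2 - y3) := by positivity
  linarith

theorem sq_convex {α β γ : ℝ} (ha : 0 ≤ α) (hb : 0 ≤ β)
    (hc : 0 ≤ γ) (hs : α + β + γ = 1) (s1 s2 s3 : ℝ) :
    (α * s1 + β * s2 + γ * s3) * (α * s1 + β * s2 + γ * s3) ≤
      α * (s1 * s1) + β * (s2 * s2) + γ * (s3 * s3) := by
  have e : α * (s1 * s1) + β * (s2 * s2) + γ * (s3 * s3) -
      (α * s1 + β * s2 + γ * s3) * (α * s1 + β * s2 + γ * s3) =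
      α * β * (s1 - s2) ^ 2 + α * γ * (s1 - s3) ^ 2 + β * γ * (s2 - s3) ^ 2 := by
    have hα : α = 1 - β - γ := by linarith
    subst hα
    ring
  have : 0 ≤ α * β * (s1 - s2) ^ 2 + α * γ * (s1 - s3) ^ 2 + β * γ * (s2 - s3) ^ 2 := by
    positivity
  linarith

/-- concavity of the value -/
theorem val_concave (P : Par) (h : P.u * P.u + 4 * P.w ≤ 0) (hd : 0 ≤ P.dn)
    (a : ℤ × ℤ × ℤ × ℤ × ℤ) (haB : 0 ≤ a.2.1) {α β γ : ℝ} (ha : 0 ≤ α) (hb : 0 ≤ β)
    (hc : 0 ≤ γ) (hs : α + β + γ = 1) (x1 y1 s1 x2 y2 s2 x3 y3 s3 : ℝ) :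
    α * valR P a x1 y1 s1 + β * valR P a x2 y2 s2 + γ * valR P a x3 y3 s3 ≤
      valR P a (α * x1 + β * x2 + γ * x3) (α * y1 + β * y2 + γ * y3)
        (α * s1 + β * s2 + γ * s3) := by
  have h1 := nf_convex P h ha hb hc hs x1 y1 x2 y2 x3 y3
  have h2 := sq_convex ha hb hc hs s1 s2 s3
  have hd' : (0 : ℝ) ≤ P.dn := by exact_mod_cast hd
  have hB' : (0 : ℝ) ≤ a.2.1 := by exact_mod_cast haB
  unfold valR
  have h3 : 0 ≤ (P.dn : ℝ) * a.2.1 := mul_nonneg hd' hB'
  have h4 := mul_le_mul_of_nonneg_left (add_le_add h1 h2) h3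
  have hα : α = 1 - β - γ := by linarith
  subst hα
  nlinarith [h4]

theorem val_rad (P : Par) (hd : 0 ≤ P.dn) (a : ℤ × ℤ × ℤ × ℤ × ℤ) (haB : 0 ≤ a.2.1)
    {x y s t r : ℝ} (h1 : s ≤ r) (h2 : r ≤ t) (hs : 0 ≤ valR P a x y s)
    (ht : 0 ≤ valR P a x y t) : 0 ≤ valR P a x y r := by
  have hd' : (0 : ℝ) ≤ P.dn := by exact_mod_cast hd
  have hB' : (0 : ℝ) ≤ a.2.1 := by exact_mod_cast haB
  rcases eq_or_lt_of_le (h1.trans h2) with he | hlt
  · have : r = s := le_antisymm (by linarith) h1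
    rw [this]; exact hs
  · have key : (t - s) * valR P a x y r = (t - r) * valR P a x y s + (r - s) * valR P a x y t
        + P.dn * a.2.1 * ((r - s) * (t - r) * (t - s)) := by
      unfold valR
      ring
    have h3 : 0 ≤ (t - r) * valR P a x y s := mul_nonneg (by linarith) hs
    have h4 : 0 ≤ (r - s) * valR P a x y t := mul_nonneg (by linarith) ht
    have h5 : 0 ≤ (P.dn : ℝ) * a.2.1 * ((r - s) * (t - r) * (t - s)) :=
      mul_nonneg (mul_nonneg hd' hB')
        (mul_nonneg (mul_nonneg (by linarith) (by linarith)) (by linarith))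
    have h6 : 0 < t - s := by linarith
    refine nonneg_of_mul_nonneg_right ?_ h6
    rw [key]
    linarith

theorem mid_spec {A B : ℤ × ℤ} (h : mok A B = true) :
    ((mid A B).1 : ℝ) = ((A.1 : ℝ) + B.1) / 2 ∧ ((mid A B).2 : ℝ) = ((A.2 : ℝ) + B.2) / 2 := by
  unfold mok at h
  rw [Bool.and_eq_true, beq_iff_eq, beq_iff_eq] at h
  obtain ⟨h1, h2⟩ := h
  have h1' : (2 : ℝ) * ((mid A B).1 : ℝ) = (A.1 : ℝ) + B.1 := by exact_mod_cast h1
  have h2' : (2 : ℝ) * ((mid A B).2 : ℝ) = (A.2 : ℝ) + B.2 := by exact_mod_cast h2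
  constructor <;> linarith

theorem inTri_t0 {A B C : ℤ × ℤ} (h : mok A B = true) {x y : ℝ} (hx : inTri A B C x y) :
    inTri A (mid A B) C x y ∨ inTri (mid A B) B C x y := by
  obtain ⟨m1, m2⟩ := mid_spec h
  obtain ⟨α, β, γ, h1, h2, h3, h4, h5, h6⟩ := hx
  rcases le_total β α with hab | hab
  · left
    refine ⟨α - β, 2 * β, γ, by linarith, by linarith, h3, by linarith, ?_, ?_⟩
    · rw [m1, h5]; ring
    · rw [m2, h6]; ring
  · right
    refine ⟨2 * α, β - α, γ, by linarith, by linarith, h3, by linarith, ?_, ?_⟩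
    · rw [m1, h5]; ring
    · rw [m2, h6]; ring

theorem inTri_rot {A B C : ℤ × ℤ} {x y : ℝ} (hx : inTri A B C x y) : inTri B C A x y := by
  obtain ⟨α, β, γ, h1, h2, h3, h4, h5, h6⟩ := hx
  exact ⟨β, γ, α, h2, h3, h1, by linarith, by rw [h5]; ring, by rw [h6]; ring⟩

theorem inTri_swap {A B C : ℤ × ℤ} {x y : ℝ} (hx : inTri A B C x y) : inTri A C B x y := by
  obtain ⟨α, β, γ, h1, h2, h3, h4, h5, h6⟩ := hx
  exact ⟨α, γ, β, h1, h3, h2, by linarith, by rw [h5]; ring, by rw [h6]; ring⟩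

theorem sok_spec {P : Par} {bot : Option ℤ} {top : ℤ} {A : ℤ × ℤ} {s : ℤ}
    (h : sok P bot top A s = true) : s ≤ top := by
  unfold sok at h
  cases bot with
  | none =>
    simp only [Bool.and_eq_true, decide_eq_true_eq] at h
    exact h.1.2
  | some b =>
    simp only [Bool.and_eq_true, decide_eq_true_eq] at h
    exact h.2

/-- soundness of the checker -/
theorem chk_sound (P : Par) (hP : P.u * P.u + 4 * P.w ≤ 0) (hd : 0 ≤ P.dn) (rows : List Key)
    (t : Tr) : ∀ (A B C : ℤ × ℤ) (bot : Option ℤ) (top : ℤ),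
    chk P rows t A B C bot top = true → ∀ x y r : ℝ, inTri A B C x y → inBot P bot x y r →
      0 ≤ r → r ≤ top → ∃ m : List Bool, 0 ≤ valR P (agg P (select rows m)) x y r := by
  induction t with
  | leaf m s1 s2 s3 =>
    intro A B C bot top h x y r hx hb hr0 hr
    simp only [chk, Bool.and_eq_true, decide_eq_true_eq] at h
    obtain ⟨⟨⟨⟨⟨⟨⟨⟨⟨c1, c2⟩, c3⟩, c4⟩, v1⟩, v2⟩, v3⟩, w1⟩, w2⟩, w3⟩ := h
    refine ⟨m, ?_⟩
    set a := agg P (select rows m) with ha
    obtain ⟨α, β, γ, h1, h2, h3, h4, h5, h6⟩ := hx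
    set st : ℝ := α * s1 + β * s2 + γ * s3 with hst
    have hv : ∀ z : ℤ, 0 ≤ z → (0 : ℝ) ≤ z := fun z hz => by exact_mod_cast hz
    have v1' : 0 ≤ valR P a A.1 A.2 s1 := by rw [← valZ_cast]; exact hv _ v1
    have v2' : 0 ≤ valR P a B.1 B.2 s2 := by rw [← valZ_cast]; exact hv _ v2
    have v3' : 0 ≤ valR P a C.1 C.2 s3 := by rw [← valZ_cast]; exact hv _ v3
    have w1' : 0 ≤ valR P a A.1 A.2 top := by rw [← valZ_cast]; exact hv _ w1
    have w2' : 0 ≤ valR P a B.1 B.2 top := by rw [← valZ_cast]; exact hv _ w2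
    have w3' : 0 ≤ valR P a C.1 C.2 top := by rw [← valZ_cast]; exact hv _ w3
    -- the bottom is below `r`
    have hsr : st ≤ r := by
      cases bot with
      | none =>
        simp only [sok, Bool.and_eq_true, decide_eq_true_eq] at c1 c2 c3
        have b' : (P.N : ℝ) * P.N ≤ nfR P x y + r * r := hb
        have q1 : (s1 : ℝ) * s1 + nfR P A.1 A.2 ≤ P.N * P.N := by
          rw [← nf_cast]; exact_mod_cast c1.2
        have q2 : (s2 : ℝ) * s2 + nfR P B.1 B.2 ≤ P.N * P.N := by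
          rw [← nf_cast]; exact_mod_cast c2.2
        have q3 : (s3 : ℝ) * s3 + nfR P C.1 C.2 ≤ P.N * P.N := by
          rw [← nf_cast]; exact_mod_cast c3.2
        have e1 := nf_convex P hP h1 h2 h3 h4 A.1 A.2 B.1 B.2 C.1 C.2
        have e2 := sq_convex h1 h2 h3 h4 (s1 : ℝ) s2 s3
        rw [← h5, ← h6] at e1
        have e3 : α * ((s1 : ℝ) * s1 + nfR P A.1 A.2) + β * ((s2 : ℝ) * s2 + nfR P B.1 B.2) +
            γ * ((s3 : ℝ) * s3 + nfR P C.1 C.2) ≤ P.N * P.N := by
          have f1 := mul_le_mul_of_nonneg_left q1 h1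
          have f2 := mul_le_mul_of_nonneg_left q2 h2
          have f3 := mul_le_mul_of_nonneg_left q3 h3
          have : α * ((P.N : ℝ) * P.N) + β * ((P.N : ℝ) * P.N) + γ * ((P.N : ℝ) * P.N) =
              P.N * P.N := by
            rw [← add_mul, ← add_mul, h4, one_mul]
          linarith
        have e4 : st * st ≤ r * r := by
          have : st * st ≤ α * (s1 * s1) + β * (s2 * s2) + γ * (s3 * s3) := e2
          linarith
        exact abs_le_of_sq_le_sq' (by rw [pow_two, pow_two]; exact e4) hr0 |>.2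
      | some b =>
        simp only [sok, Bool.and_eq_true, decide_eq_true_eq, beq_iff_eq] at c1 c2 c3
        have b' : (b : ℝ) ≤ r := hb
        have : st = b := by
          rw [hst, c1.1, c2.1, c3.1, ← add_mul, ← add_mul, h4, one_mul]
        linarith
    have m1 : 0 ≤ valR P a x y st := by
      have := val_concave P hP hd a c4 h1 h2 h3 h4 A.1 A.2 s1 B.1 B.2 s2 C.1 C.2 s3
      rw [h5, h6]
      refine le_trans ?_ this
      positivity
    have m2 : 0 ≤ valR P a x y top := by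
      have := val_concave P hP hd a c4 h1 h2 h3 h4 A.1 A.2 top B.1 B.2 top C.1 C.2 top
      have e : α * (top : ℝ) + β * top + γ * top = top := by
        rw [← add_mul, ← add_mul, h4, one_mul]
      rw [e] at this
      rw [h5, h6]
      refine le_trans ?_ this
      positivity
    exact val_rad P hd a c4 hsr hr m1 m2
  | nil =>
    intro A B C bot top h x y r hx hb hr0 hr
    exfalso
    cases bot with
    | none =>
      simp only [chk, Bool.and_eq_true, decide_eq_true_eq] at h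
      obtain ⟨⟨c1, c2⟩, c3⟩ := h
      obtain ⟨α, β, γ, h1, h2, h3, h4, h5, h6⟩ := hx
      have b' : (P.N : ℝ) * P.N ≤ nfR P x y + r * r := hb
      have q1 : (top : ℝ) * top + nfR P A.1 A.2 < P.N * P.N := by
        rw [← nf_cast]; exact_mod_cast c1
      have q2 : (top : ℝ) * top + nfR P B.1 B.2 < P.N * P.N := by
        rw [← nf_cast]; exact_mod_cast c2
      have q3 : (top : ℝ) * top + nfR P C.1 C.2 < P.N * P.N := by
        rw [← nf_cast]; exact_mod_cast c3
      have e1 := nf_convex P hP h1 h2 h3 h4 A.1 A.2 B.1 B.2 C.1 C.2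
      rw [← h5, ← h6] at e1
      have e3 : r * r ≤ top * top := mul_self_le_mul_self hr0 hr
      -- a maximum argument
      set μ : ℝ := max (nfR P A.1 A.2) (max (nfR P B.1 B.2) (nfR P C.1 C.2)) with hμ
      have g1 : nfR P A.1 A.2 ≤ μ := le_max_left _ _
      have g2 : nfR P B.1 B.2 ≤ μ := (le_max_left _ _).trans (le_max_right _ _)
      have g3 : nfR P C.1 C.2 ≤ μ := (le_max_right _ _).trans (le_max_right _ _)
      have g4 : (top : ℝ) * top + μ < P.N * P.N := by
        have : μ < P.N * P.N - top * top := by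
          rw [hμ]
          refine max_lt (by linarith) (max_lt (by linarith) (by linarith))
        linarith
      have f1 := mul_le_mul_of_nonneg_left g1 h1
      have f2 := mul_le_mul_of_nonneg_left g2 h2
      have f3 := mul_le_mul_of_nonneg_left g3 h3
      have : α * μ + β * μ + γ * μ = μ := by
        rw [← add_mul, ← add_mul, h4, one_mul]
      linarith
    | some b =>
      simp only [chk, decide_eq_true_eq] at h
      have b' : (b : ℝ) ≤ r := hb
      have h' : (top : ℝ) < b := by exact_mod_cast h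
      linarith
  | t0 a b iha ihb =>
    intro A B C bot top h x y r hx hb hr0 hr
    simp only [chk, Bool.and_eq_true] at h
    obtain ⟨⟨h1, h2⟩, h3⟩ := h
    rcases inTri_t0 h1 hx with h4 | h4
    · exact iha _ _ _ _ _ h2 x y r h4 hb hr0 hr
    · exact ihb _ _ _ _ _ h3 x y r h4 hb hr0 hr
  | t1 a b iha ihb =>
    intro A B C bot top h x y r hx hb hr0 hr
    simp only [chk, Bool.and_eq_true] at h
    obtain ⟨⟨h1, h2⟩, h3⟩ := h
    rcases inTri_t0 h1 (inTri_rot hx) with h4 | h4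
    · exact iha _ _ _ _ _ h2 x y r (inTri_rot (inTri_rot h4)) hb hr0 hr
    · exact ihb _ _ _ _ _ h3 x y r (inTri_rot (inTri_rot h4)) hb hr0 hr
  | t2 a b iha ihb =>
    intro A B C bot top h x y r hx hb hr0 hr
    simp only [chk, Bool.and_eq_true] at h
    obtain ⟨⟨h1, h2⟩, h3⟩ := h
    rcases inTri_t0 h1 (inTri_swap hx) with h4 | h4
    · exact iha _ _ _ _ _ h2 x y r (inTri_swap h4) hb hr0 hr
    · exact ihb _ _ _ _ _ h3 x y r (inTri_swap h4) hb hr0 hr
  | rad ρ a b iha ihb =>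
    intro A B C bot top h x y r hx hb hr0 hr
    simp only [chk, Bool.and_eq_true] at h
    rcases le_total r (ρ : ℝ) with h4 | h4
    · exact iha _ _ _ _ _ h.1 x y r hx hb hr0 h4
    · exact ihb _ _ _ _ _ h.2 x y r hx h4 hr0 hr

end Pool.Agent.Helper80.Ram
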